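import Pool.Agent.W773.RD.Uniq2

set_option autoImplicit false

open Filter Metric Set Topology MeasureTheory InnerProductSpace
open scoped ComplexConjugate ENNReal

namespace Pool.Agent.W773.RD

section
variable {E : Set ℝ} {U : ℂ → ℝ} {δ : ℝ}

lemma Dense.translate (hE : Dense 1 δ E) (s : ℝ) : Dense 1 δ {t | t - s ∈ E} := by
  refine ⟨hE.closed.preimage (by fun_prop : Continuous fun t : ℝ => t - s), fun x => ?_⟩
  have h3 := hE.dens (x - s)
  have h4 : {t | t - s ∈ E} ∩ Icc x (x + 1) =
      (fun t : ℝ => t + (-s)) ⁻¹' (E ∩ Icc (x - s) (x - s + 1)) := by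
    ext t
    simp only [mem_inter_iff, mem_ofPred_eq, mem_Icc, mem_preimage, ← sub_eq_add_neg]
    constructor
    · rintro ⟨a, b, c⟩; exact ⟨a, by linarith, by linarith⟩
    · rintro ⟨a, b, c⟩; exact ⟨a, by linarith, by linarith⟩
  rw [h4, measure_preimage_add_right]
  exact h3

lemma IsU.translate' (h : IsU E U) (hE : Dense 1 δ E) (hδ : 0 < δ) (hδ1 : δ < 1) (s : ℝ) :
    IsU {t | t - s ∈ E} (fun z => U (z - s)) := by
  refine h.translate s ?_
  obtain ⟨C, hC0, hC⟩ := h.bdd hE hδ hδ1.le
  have h1 : ∀ y : ℝ, (y : ℂ) * Complex.I - (s : ℂ) = ((-s : ℝ) : ℂ) + y * Complex.I := by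
    intro y; push_cast; ring
  simp_rw [h1]
  have h2 : Tendsto (fun y : ℝ => 1 + C / y) atTop (𝓝 (1 + 0)) :=
    tendsto_const_nhds.add (tendsto_id.const_div_atTop C)
  rw [add_zero] at h2
  refine tendsto_of_tendsto_of_tendsto_of_le_of_le' tendsto_const_nhds h2 ?_ ?_
  · filter_upwards [eventually_gt_atTop 0] with y hy
    rw [le_div_iff₀ hy, one_mul]
    have := h.ge_abs (-s) y
    rwa [abs_of_pos hy] at this
  · filter_upwards [eventually_gt_atTop 0] with y hy
    rw [div_le_iff₀ hy]
    have := h.le_abs hC (-s) y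
    rw [abs_of_pos hy] at this
    have e : (1 + C / y) * y = y + C := by field_simp
    rw [e]; exact this

lemma Et_dense (hδ : 0 < δ) (hδ1 : δ < 1) : Dense 1 δ (Et (cd δ)) := by
  have h1 := (Eper_dense hδ hδ1).translate (-(1 / 2))
  have h2 : {t | t - (-(1 / 2)) ∈ Eper δ} = Et (cd δ) := by
    ext t
    rw [mem_ofPred_eq, mem_Eper_iff hδ hδ1]; simp
  rwa [h2] at h1

/-- Poisson mass of a relatively dense set -/
lemma P_mass (hE : Dense 1 δ E) {y : ℝ} (hy : 0 < y) (x : ℝ) :
    δ * (y / (Real.pi * (1 + y ^ 2))) ≤ ∫ t in E, P y (x - t) := by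
  have hpi := Real.pi_pos
  have hPi := (P_int hy x).1
  have h1 : ∫ t in E ∩ Icc x (x + 1), P y (x - t) ≤ ∫ t in E, P y (x - t) :=
    setIntegral_mono_set hPi.integrableOn (Eventually.of_forall fun t => (P_pos hy _).le)
      (Eventually.of_forall inter_subset_left)
  have hf := fin_of_sub (inter_subset_right : E ∩ Icc x (x + 1) ⊆ Icc x (x + 1))
  have h2 : ∫ t in E ∩ Icc x (x + 1), (y / (Real.pi * (1 + y ^ 2))) ≤
      ∫ t in E ∩ Icc x (x + 1), P y (x - t) := by
    refine setIntegral_mono_on (integrableOn_const hf) hPi.integrableOn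
      (hE.closed.measurableSet.inter measurableSet_Icc) fun t ht => ?_
    have h3 := ht.2
    have : (x - t) ^ 2 ≤ 1 := by nlinarith [h3.1, h3.2]
    unfold P
    gcongr
  rw [setIntegral_const, smul_eq_mul] at h2
  have h3 : δ ≤ volume.real (E ∩ Icc x (x + 1)) := (ENNReal.ofReal_le_iff_le_toReal hf).1 (hE.dens x)
  have h4 : δ * (y / (Real.pi * (1 + y ^ 2))) ≤
      volume.real (E ∩ Icc x (x + 1)) * (y / (Real.pi * (1 + y ^ 2))) := by gcongr
  linarith

/-- a function vanishing on the periodic set is dominated by the comparison function -/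
theorem majorant (h : IsU E U) (hE : Dense 1 δ E) (hδ : 0 < δ) (hδ1 : δ < 1)
    (hz : ∀ t ∈ Et (cd δ), U (t : ℂ) = 0) (z : ℂ) : U z ≤ Ut (cd δ) z := by
  have hpi := Real.pi_pos
  have hpi3 := Real.pi_gt_three
  set c := cd δ with hcd
  have hc0 : 0 < c := cd_pos hδ hδ1
  have hc1 : c < 1 := cd_lt_one hδ hδ1
  have hV := Ut_isU hc0 hc1
  have hEt : Dense 1 δ (Et c) := Et_dense hδ hδ1
  have hEm : MeasurableSet (Et c) := hEt.closed.measurableSet
  obtain ⟨C, hC0, hC⟩ := h.bdd hE hδ hδ1.le
  set d : ℂ → ℝ := fun z => U z - Ut c z with hd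
  have hdc : Continuous d := h.cont.sub hV.cont
  set g : ℂ → ℝ := fun z => max (d z) 0 with hg
  have hgc : Continuous g := hdc.max continuous_const
  have hg0 : ∀ z, 0 ≤ g z := fun z => le_max_right _ _
  have hbdd : BddAbove (range fun t : ℝ => g (t : ℂ)) := by
    refine ⟨C, ?_⟩
    rintro _ ⟨t, rfl⟩
    refine max_le ?_ hC0
    have := hC t
    have := hV.nonneg (t : ℂ)
    simp only [hd]; linarith
  set M := ⨆ t : ℝ, g (t : ℂ) with hM
  have hgM : ∀ t : ℝ, g (t : ℂ) ≤ M := fun t => le_ciSup hbdd t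
  have hM0 : 0 ≤ M := (hg0 _).trans (hgM 0)
  have hdEt : ∀ t ∈ Et c, d (t : ℂ) = 0 := fun t ht => by
    simp only [hd, hz t ht, hV.zero t ht, sub_zero]
  -- off the line
  have hoff : ∀ x y : ℝ, y ≠ 0 → d ((x : ℂ) + y * Complex.I) ≤
      M * (1 - δ * (|y| / (Real.pi * (1 + y ^ 2)))) := by
    intro x y hy
    have hy' : 0 < |y| := abs_pos.2 hy
    have e1 : d ((x : ℂ) + y * Complex.I) = mm U |y| x - mm (Ut c) |y| x := by
      simp only [hd]
      rw [h.symm_abs, hV.symm_abs, h.eq_mm hy', hV.eq_mm hy']; ring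
    have hPi := (P_int hy' x).1
    have e2 : mm U |y| x - mm (Ut c) |y| x = ∫ t : ℝ, P |y| (x - t) * d (t : ℂ) := by
      rw [mm, mm, ← integral_sub (h.base hy' x).1 (hV.base hy' x).1]
      refine integral_congr_ae (Eventually.of_forall fun t => ?_)
      simp only [hd]; ring
    have e3 : ∫ t : ℝ, P |y| (x - t) * d (t : ℂ) ≤
        ∫ t : ℝ, (Et c)ᶜ.indicator (fun t => P |y| (x - t) * M) t := by
      refine integral_mono ?_ ?_ fun t => ?_
      · have := (h.base hy' x).1.sub (hV.base hy' x).1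
        refine this.congr (Eventually.of_forall fun t => ?_)
        simp only [hd, Pi.sub_apply]; ring
      · exact (hPi.mul_const M).indicator hEm.compl
      · by_cases ht : t ∈ Et c
        · rw [indicator_of_notMem (by simpa using ht)]
          simp only [hdEt t ht, mul_zero, le_refl]
        · rw [indicator_of_mem (by simpa using ht)]
          exact mul_le_mul_of_nonneg_left ((le_max_left _ _).trans (hgM t)) (P_pos hy' _).le
    have e4 : ∫ t : ℝ, (Et c)ᶜ.indicator (fun t => P |y| (x - t) * M) t =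
        M * (1 - ∫ t in Et c, P |y| (x - t)) := by
      rw [integral_indicator hEm.compl, integral_mul_const]
      have := integral_add_compl hEm hPi
      rw [(P_int hy' x).2] at this
      rw [← this]; ring
    have e5 := P_mass hEt hy' x
    rw [sq_abs] at e5
    rw [e1, e2]
    refine e3.trans ?_
    rw [e4]
    refine mul_le_mul_of_nonneg_left ?_ hM0
    linarith
  have hloc : ∀ a, LocSub g a := by
    intro a
    by_cases ha : d a ≤ 0
    · exact locSub_of_zero hg0 (max_eq_right ha)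
    · rw [not_le] at ha
      have hna : a ∈ (Complex.ofReal '' Et c)ᶜ := by
        rintro ⟨t, ht, rfl⟩
        rw [hdEt t ht] at ha
        exact lt_irrefl _ ha
      filter_upwards [h.locSub a, mvp_of_harmonicAt (hV.harm a hna)] with r h1 h2
      have h3 : Real.circleAverage d a r = Real.circleAverage U a r - Real.circleAverage (Ut c) a r :=
        Real.circleAverage_fun_sub h.cont.continuousOn.circleIntegrable'
          hV.cont.continuousOn.circleIntegrable'
      have h4 : g a = d a := max_eq_left ha.le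
      rw [h4]
      calc d a ≤ Real.circleAverage d a r := by rw [h3, h2]; simp only [hd]; linarith
        _ ≤ Real.circleAverage g a r := Real.circleAverage_mono hdc.continuousOn.circleIntegrable'
            hgc.continuousOn.circleIntegrable' fun ζ _ => le_max_left _ _
  have hline : ∀ x : ℝ, g (x : ℂ) ≤ M * (1 - δ / (4 * Real.pi)) := by
    intro x
    have h1 := sub_of_loc hgc hloc (x : ℂ) 1
    rw [circle_Av] at h1
    refine h1.trans ?_
    have h2 : Av (fun ψ => g ((x : ℂ) + (1 * Real.cos ψ : ℝ) + (1 * Real.sin ψ : ℝ) * Complex.I)) ≤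
        Av fun ψ => M + (-(M * δ / (2 * Real.pi))) * Real.sin ψ ^ 2 := by
      refine Av_mono (hgc.comp (by fun_prop)) (by fun_prop) fun ψ => ?_
      rw [one_mul, one_mul]
      set s := Real.sin ψ with hs
      have hs1 : |s| ≤ 1 := Real.abs_sin_le_one ψ
      have hs2 : s ^ 2 ≤ 1 := by rw [← sq_abs]; nlinarith [abs_nonneg s]
      have hRHS : M + (-(M * δ / (2 * Real.pi))) * s ^ 2 = M * (1 - δ * (s ^ 2 / (2 * Real.pi))) := by
        ring
      have hpos : 0 ≤ 1 - δ * (s ^ 2 / (2 * Real.pi)) := by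
        have : s ^ 2 / (2 * Real.pi) ≤ 1 := by rw [div_le_one (by positivity)]; linarith
        have h3 : 0 ≤ s ^ 2 / (2 * Real.pi) := by positivity
        nlinarith
      rw [hRHS]
      have e : (x : ℂ) + (Real.cos ψ : ℝ) + (s : ℝ) * Complex.I =
          ((x + Real.cos ψ : ℝ) : ℂ) + s * Complex.I := by push_cast; ring
      rw [e]
      rcases eq_or_ne s 0 with h0 | h0
      · rw [h0]
        simpa using hgM (x + Real.cos ψ)
      · refine max_le ((hoff _ s h0).trans ?_) (mul_nonneg hM0 hpos)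
        refine mul_le_mul_of_nonneg_left ?_ hM0
        have h3 : s ^ 2 / (2 * Real.pi) ≤ |s| / (Real.pi * (1 + s ^ 2)) := by
          rw [div_le_div_iff₀ (by positivity) (by positivity)]
          have h4 : s ^ 2 ≤ |s| := by rw [← sq_abs]; nlinarith [abs_nonneg s]
          have h5 : s ^ 2 * (1 + s ^ 2) ≤ |s| * 2 := by
            have : 0 ≤ s ^ 2 := sq_nonneg s
            nlinarith
          calc s ^ 2 * (Real.pi * (1 + s ^ 2)) = Real.pi * (s ^ 2 * (1 + s ^ 2)) := by ring
            _ ≤ Real.pi * (|s| * 2) := by gcongr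
            _ = |s| * (2 * Real.pi) := by ring
        have h4 : δ * (s ^ 2 / (2 * Real.pi)) ≤ δ * (|s| / (Real.pi * (1 + s ^ 2))) := by gcongr
        linarith
    refine h2.trans (le_of_eq ?_)
    rw [Av_add continuous_const (by fun_prop), Av_const, Av_const_mul, Av_sin_sq]
    ring
  have hMle : M ≤ M * (1 - δ / (4 * Real.pi)) := ciSup_le hline
  have hMz : M = 0 := by
    have h1 : 0 < δ / (4 * Real.pi) := by positivity
    have h2 : M * (δ / (4 * Real.pi)) ≤ 0 := by linarith
    have h3 : 0 ≤ M * (δ / (4 * Real.pi)) := mul_nonneg hM0 h1.le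
    have h4 : M * (δ / (4 * Real.pi)) = 0 := le_antisymm h2 h3
    exact (mul_eq_zero.1 h4).resolve_right h1.ne'
  have hfin : d z ≤ 0 := by
    have e : z = (z.re : ℂ) + z.im * Complex.I := (Complex.re_add_im z).symm
    rcases eq_or_ne z.im 0 with h0 | h0
    · rw [e, h0]
      have := (le_max_left (d (z.re : ℂ)) 0).trans (hgM z.re)
      rw [hMz] at this
      simpa using this
    · have := hoff z.re z.im h0
      rw [hMz, zero_mul, ← e] at this
      exact this
  simp only [hd] at hfin
  linarith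

/-- **uniqueness**, extremal point at the origin -/
theorem uniq0 (h : IsU E U) (hE : Dense 1 δ E) (hδ : 0 < δ) (hδ1 : δ < 1)
    (hU0 : U 0 = Ut (cd δ) 0) : U = Ut (cd δ) ∧ E = Et (cd δ) := by
  have hc0 : 0 < cd δ := cd_pos hδ hδ1
  have hc1 : cd δ < 1 := cd_lt_one hδ hδ1
  have hV := Ut_isU hc0 hc1
  have h1 := U2_eq h hE hδ hδ1 hU0
  have hz : ∀ t ∈ Et (cd δ), U (t : ℂ) = 0 := by
    intro t ht
    have h2 := h1 (t : ℂ)
    rw [hV.zero t ht, U2] at h2
    have h3 := h.nonneg (t : ℂ)
    have h4 := h.nonneg (-(t : ℂ))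
    linarith
  have hmaj := majorant h hE hδ hδ1 hz
  have hUeq : U = Ut (cd δ) := by
    funext z
    have h2 := h1 z
    have h3 := hmaj z
    have h4 := hmaj (-z)
    rw [Ut_neg] at h4
    rw [U2] at h2
    linarith
  refine ⟨hUeq, ?_⟩
  ext t
  constructor
  · intro ht
    by_contra hcon
    have h2 : 0 < Ut (cd δ) (t : ℂ) := by
      refine hV.pos _ ?_
      rintro ⟨s, hs, he⟩
      have : s = t := by exact_mod_cast he
      exact hcon (this ▸ hs)
    rw [← hUeq, h.zero t ht] at h2
    exact lt_irrefl _ h2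
  · intro ht
    by_contra hcon
    have h2 : 0 < U (t : ℂ) := by
      refine h.pos _ ?_
      rintro ⟨s, hs, he⟩
      have : s = t := by exact_mod_cast he
      exact hcon (this ▸ hs)
    rw [hUeq, hV.zero t ht] at h2
    exact lt_irrefl _ h2

/-- **uniqueness** -/
theorem uniq (h : IsU E U) (hE : Dense 1 δ E) (hδ : 0 < δ) (hδ1 : δ < 1) {x : ℝ}
    (hx : U x = Ut (cd δ) 0) :
    E = {t | t - (x - 1 / 2) ∈ Eper δ} ∧ ∀ z, U z = Ut (cd δ) (z - x) := by
  have h1 := h.translate' hE hδ hδ1 (-x)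
  have h2 := hE.translate (-x)
  obtain ⟨h3, h4⟩ := uniq0 h1 h2 hδ hδ1 (by simpa using hx)
  constructor
  · ext t
    have h5 : t - x ∈ {t | t - -x ∈ E} ↔ t - x ∈ Et (cd δ) := by rw [h4]
    simp only [mem_ofPred_eq, sub_neg_eq_add, sub_add_cancel] at h5
    rw [h5, mem_ofPred_eq, mem_Eper_iff hδ hδ1]
    have : t - (x - 1 / 2) - 1 / 2 = t - x := by ring
    rw [this]
  · intro z
    have h5 := congrFun h3 (z - x)
    simp only [Complex.ofReal_neg, sub_neg_eq_add, sub_add_cancel] at h5
    exact h5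

end

end Pool.Agent.W773.RD
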