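import Pool.Agent.W773.RD.Bath

set_option autoImplicit false

open Filter Metric Set Topology MeasureTheory InnerProductSpace
open scoped ComplexConjugate ENNReal

namespace Pool.Agent.W773.RD

section
variable {F : Set ℝ} {x : ℝ} (hF : MeasurableSet F) (hsub : F ⊆ Icc x (x + 1))

/-- shift set -/
def TT (F : Set ℝ) (x σ h : ℝ) : Set ℝ := {τ | τ ∈ F ∧ τ - σ * h ∉ F ∧ τ - σ * h ∈ Icc x (x + 1)}

include hF in
lemma TT_meas (σ h : ℝ) : MeasurableSet (TT F x σ h) := by
  have h1 : Measurable fun τ : ℝ => τ - σ * h := by fun_prop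
  exact hF.inter ((h1 hF.compl).inter (h1 measurableSet_Icc))

include hF hsub in
lemma core_aux {σ u v du dv : ℝ} (hσ : |σ| = 1) (hu : u ∈ Ioo x (x + 1)) (hv : v ∈ Ioo x (x + 1))
    (huv : u < v)
    (hdu : HasDerivAt (fun t => ∫ s in (0 : ℝ)..t, F.indicator (fun _ => (1 : ℝ)) s) du u)
    (hdv : HasDerivAt (fun t => ∫ s in (0 : ℝ)..t, F.indicator (fun _ => (1 : ℝ)) s) dv v)
    (hs : σ * (dv - du) = 1) {η : ℝ} (hη : 0 < η) :
    ∃ h₀ > 0, ∀ h, 0 < h → h < h₀ → (1 - η) * h ≤ volume.real (TT F x σ h) := by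
  set f : ℝ → ℝ := F.indicator (fun _ => (1 : ℝ)) with hf
  set Φ : ℝ → ℝ := fun t => ∫ s in (0 : ℝ)..t, f s with hΦ
  have hfi : Integrable f := by
    rw [hf, integrable_indicator_iff hF]
    exact integrableOn_const (fin_of_sub hsub)
  have hfii : ∀ a b, IntervalIntegrable f volume a b := fun a b => hfi.intervalIntegrable
  set k : ℝ → ℝ := fun h => (Φ v - Φ u) - (Φ (v - σ * h) - Φ (u - σ * h)) with hk
  have hkd : HasDerivAt k 1 0 := by
    have h1 : ∀ w : ℝ, HasDerivAt (fun h : ℝ => w - σ * h) (-σ) 0 := by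
      intro w
      have := ((hasDerivAt_id (0 : ℝ)).const_mul σ).const_sub w
      simpa using this
    have h2 : HasDerivAt (fun h : ℝ => Φ (v - σ * h)) (dv * -σ) 0 := by
      refine HasDerivAt.comp (0 : ℝ) (h₂ := Φ) (h := fun h : ℝ => v - σ * h) ?_ (h1 v)
      simpa using hdv
    have h3 : HasDerivAt (fun h : ℝ => Φ (u - σ * h)) (du * -σ) 0 := by
      refine HasDerivAt.comp (0 : ℝ) (h₂ := Φ) (h := fun h : ℝ => u - σ * h) ?_ (h1 u)
      simpa using hdu
    have h4 := (h2.sub h3).const_sub (Φ v - Φ u)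
    have h5 : -(dv * -σ - du * -σ) = 1 := by linear_combination hs
    rw [h5] at h4
    exact h4
  have hk0 : k 0 = 0 := by simp [hk]
  have hslope : ∀ᶠ h in 𝓝[>] (0 : ℝ), 1 - η < h⁻¹ * k h := by
    have h1 := hkd.tendsto_slope_zero_right
    simp only [zero_add, hk0, sub_zero, smul_eq_mul] at h1
    exact h1.eventually (lt_mem_nhds (by linarith))
  obtain ⟨h₁, hh₁, hh₁'⟩ := (mem_nhdsGT_iff_exists_Ioo_subset' (by norm_num : (0 : ℝ) < 1)).1 hslope
  refine ⟨min h₁ (min (u - x) (x + 1 - v)), ?_, fun h h0 hlt => ?_⟩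
  · exact lt_min hh₁ (lt_min (by linarith [hu.1]) (by linarith [hv.2]))
  have hlt1 : h < h₁ := hlt.trans_le (min_le_left _ _)
  have hlt2 : h < u - x := hlt.trans_le ((min_le_right _ _).trans (min_le_left _ _))
  have hlt3 : h < x + 1 - v := hlt.trans_le ((min_le_right _ _).trans (min_le_right _ _))
  have hslope' : 1 - η < h⁻¹ * k h := hh₁' ⟨h0, hlt1⟩
  have hkh : (1 - η) * h ≤ k h := by
    have := mul_lt_mul_of_pos_right hslope' h0
    rw [mul_comm h⁻¹, mul_assoc, inv_mul_cancel₀ h0.ne', mul_one] at this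
    exact this.le
  refine hkh.trans ?_
  have hσh : |σ * h| = h := by rw [abs_mul, hσ, one_mul, abs_of_pos h0]
  have hσh' := abs_le.1 hσh.le
  have e1 : k h = ∫ τ in u..v, (f τ - f (τ - σ * h)) := by
    rw [intervalIntegral.integral_sub (hfii _ _) (by
      have := (hfii (u - σ * h) (v - σ * h)).comp_sub_right (σ * h)
      simpa using this), intervalIntegral.integral_comp_sub_right f]
    simp only [hk, hΦ]
    rw [intervalIntegral.integral_interval_sub_left (hfii _ _) (hfii _ _),
      intervalIntegral.integral_interval_sub_left (hfii _ _) (hfii _ _)]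
  have hTm : MeasurableSet (TT F x σ h) := TT_meas hF σ h
  have hTf : volume (TT F x σ h) ≠ ∞ := fin_of_sub (fun τ hτ => hsub hτ.1)
  have hTi : Integrable ((TT F x σ h).indicator fun _ => (1 : ℝ)) := by
    rw [integrable_indicator_iff hTm]
    exact integrableOn_const hTf
  rw [e1]
  calc ∫ τ in u..v, (f τ - f (τ - σ * h))
      ≤ ∫ τ in u..v, (TT F x σ h).indicator (fun _ => (1 : ℝ)) τ := by
        refine intervalIntegral.integral_mono_on huv.le ?_ hTi.intervalIntegrable fun τ hτ => ?_
        · refine (hfii _ _).sub ?_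
          have := (hfii (u - σ * h) (v - σ * h)).comp_sub_right (σ * h)
          simpa using this
        · simp only [hf]
          by_cases h1 : τ ∈ F
          · by_cases h2 : τ - σ * h ∈ F
            · rw [indicator_of_mem h1, indicator_of_mem h2, sub_self]
              exact indicator_nonneg (fun _ _ => zero_le_one) _
            · have h3 : τ ∈ TT F x σ h := by
                refine ⟨h1, h2, ?_, ?_⟩
                · linarith [hτ.1]
                · linarith [hτ.2]
              rw [indicator_of_mem h1, indicator_of_notMem h2, indicator_of_mem h3, sub_zero]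
          · rw [indicator_of_notMem h1, zero_sub]
            have h4 : 0 ≤ F.indicator (fun _ => (1 : ℝ)) (τ - σ * h) :=
              indicator_nonneg (fun _ _ => zero_le_one) _
            have h5 : 0 ≤ (TT F x σ h).indicator (fun _ => (1 : ℝ)) τ :=
              indicator_nonneg (fun _ _ => zero_le_one) _
            linarith
    _ = ∫ τ in Ioc u v, (TT F x σ h).indicator (fun _ => (1 : ℝ)) τ := by
        rw [intervalIntegral.integral_of_le huv.le]
    _ ≤ ∫ τ, (TT F x σ h).indicator (fun _ => (1 : ℝ)) τ :=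
        setIntegral_le_integral hTi (Eventually.of_forall fun τ =>
          indicator_nonneg (fun _ _ => zero_le_one) _)
    _ = volume.real (TT F x σ h) := by
        rw [integral_indicator hTm, setIntegral_const]; simp

include hF hsub in
lemma core (h0 : 0 < volume.real F) (h1 : volume.real F < 1) :
    ∃ σ : ℝ, |σ| = 1 ∧ ∀ η > 0, ∃ h₀ > 0, ∀ h, 0 < h → h < h₀ →
      (1 - η) * h ≤ volume.real (TT F x σ h) := by
  set f : ℝ → ℝ := F.indicator (fun _ => (1 : ℝ)) with hf
  have hfi : Integrable f := by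
    rw [hf, integrable_indicator_iff hF]
    exact integrableOn_const (fin_of_sub hsub)
  have hae := LocallyIntegrable.ae_hasDerivAt_integral hfi.locallyIntegrable
  have hends : ∀ᵐ t : ℝ, t ≠ x ∧ t ≠ x + 1 := by
    have h₁ : ∀ᵐ t : ℝ, t ≠ x := by simp [ae_iff, measure_singleton]
    have h₂ : ∀ᵐ t : ℝ, t ≠ x + 1 := by simp [ae_iff, measure_singleton]
    exact h₁.and h₂
  have hall := hae.and hends
  have pick : ∀ A : Set ℝ, volume A ≠ 0 → ∃ t ∈ A,
      (∀ c, HasDerivAt (fun x => ∫ (t : ℝ) in c..x, f t) (f t) t) ∧ t ≠ x ∧ t ≠ x + 1 := by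
    intro A hA
    by_contra hcon
    push Not at hcon
    apply hA
    refine measure_mono_null ?_ (ae_iff.1 hall)
    intro t ht hcon2
    exact hcon2.2.2 (hcon t ht hcon2.1 hcon2.2.1)
  have hFf := fin_of_sub hsub
  obtain ⟨α, hαF, hα1, hα2, hα3⟩ := pick F (by
    intro h; rw [Measure.real, h] at h0; simp at h0)
  have hIF : volume (Icc x (x + 1) \ F) ≠ 0 := by
    intro h
    have h2 : volume (Icc x (x + 1)) ≤ volume F + volume (Icc x (x + 1) \ F) := by
      refine (measure_mono ?_).trans (measure_union_le _ _)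
      intro t ht
      by_cases h3 : t ∈ F
      · exact Or.inl h3
      · exact Or.inr ⟨ht, h3⟩
    rw [h, add_zero, Real.volume_Icc] at h2
    have h3 : (1 : ℝ) ≤ volume.real F := by
      have := (ENNReal.ofReal_le_iff_le_toReal hFf).1 h2
      show 1 ≤ (volume F).toReal
      simpa using this
    linarith
  obtain ⟨β, hβF, hβ1, hβ2, hβ3⟩ := pick _ hIF
  have hα : α ∈ Ioo x (x + 1) := ⟨lt_of_le_of_ne (hsub hαF).1 hα2.symm, lt_of_le_of_ne (hsub hαF).2 hα3⟩
  have hβ : β ∈ Ioo x (x + 1) := ⟨lt_of_le_of_ne hβF.1.1 hβ2.symm, lt_of_le_of_ne hβF.1.2 hβ3⟩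
  have dα := hα1 0
  have dβ := hβ1 0
  rw [hf, indicator_of_mem hαF] at dα
  rw [hf, indicator_of_notMem hβF.2] at dβ
  rcases lt_trichotomy α β with h | h | h
  · exact ⟨-1, by simp, fun η hη => core_aux hF hsub (by simp) hα hβ h dα dβ (by norm_num) hη⟩
  · exact absurd (h ▸ hαF) hβF.2
  · exact ⟨1, by simp, fun η hη => core_aux hF hsub (by simp) hβ hα h dβ dα (by norm_num) hη⟩

include hF hsub in
/-- rearranging two shifted copies of `F` into a larger and a smaller set inside unit windows -/
lemma AB (h0 : 0 < volume.real F) (h1 : volume.real F < 1) {η : ℝ} (hη : 0 < η) (hη1 : η < 1) :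
    ∃ s₀ > 0, ∀ s, 0 < s → s < s₀ → ∃ xA xB : ℝ, ∃ A B : Set ℝ, MeasurableSet A ∧ MeasurableSet B ∧
      A ⊆ Icc xA (xA + 1) ∧ B ⊆ Icc xB (xB + 1) ∧
      volume.real A = volume.real F - 2 * ((1 - η) * s) ∧
      volume.real B = volume.real F + 2 * ((1 - η) * s) ∧
      ∀ g : ℝ → ℝ, Continuous g →
        (∫ t in F, g (t + s)) + ∫ t in F, g (t - s) = (∫ t in A, g t) + ∫ t in B, g t := by
  obtain ⟨σ, hσ, hcore⟩ := core hF hsub h0 h1
  obtain ⟨h₀, hh₀, hcore'⟩ := hcore η hη
  refine ⟨h₀ / 2, by positivity, fun s hs0 hs => ?_⟩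
  have hT := hcore' (2 * s) (by linarith) (by linarith)
  set s' := σ * s with hs'
  -- the shifted sets
  set Fp : Set ℝ := {t | t - s' ∈ F} with hFp
  set Fm : Set ℝ := {t | t + s' ∈ F} with hFm
  have hFpm : MeasurableSet Fp := (by fun_prop : Measurable fun t : ℝ => t - s') hF
  have hFmm : MeasurableSet Fm := (by fun_prop : Measurable fun t : ℝ => t + s') hF
  have hFps : Fp ⊆ Icc (x + s') (x + s' + 1) := fun t ht => by
    have h2 : t - s' ∈ Icc x (x + 1) := hsub ht
    exact ⟨by linarith [h2.1], by linarith [h2.2]⟩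
  have hFms : Fm ⊆ Icc (x - s') (x - s' + 1) := fun t ht => by
    have h2 : t + s' ∈ Icc x (x + 1) := hsub ht
    exact ⟨by linarith [h2.1], by linarith [h2.2]⟩
  set D₀ : Set ℝ := {t | t + s' ∈ TT F x σ (2 * s)} with hD₀
  have hD₀m : MeasurableSet D₀ :=
    (by fun_prop : Measurable fun t : ℝ => t + s') (TT_meas hF σ (2 * s))
  have hD₀v : volume.real D₀ = volume.real (TT F x σ (2 * s)) := by
    rw [Measure.real, Measure.real]
    congr 1
    exact measure_preimage_add_right volume s' _
  have hD₀Fm : D₀ ⊆ Fm := fun t ht => ht.1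
  have hD₀Fp : ∀ t ∈ D₀, t ∉ Fp := by
    intro t ht h2
    refine ht.2.1 ?_
    have e : t + s' - σ * (2 * s) = t - s' := by rw [hs']; ring
    rw [e]; exact h2
  have hD₀s : D₀ ⊆ Icc (x + s') (x + s' + 1) := by
    intro t ht
    have h2 := ht.2.2
    have e : t + s' - σ * (2 * s) = t - s' := by rw [hs']; ring
    rw [e] at h2
    exact ⟨by linarith [h2.1], by linarith [h2.2]⟩
  obtain ⟨τ, hτ⟩ := exists_cut hD₀s (ρ := 2 * ((1 - η) * s))
    (by have : 0 ≤ 1 - η := by linarith
        positivity) (by rw [hD₀v]; linarith)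
  set D := D₀ ∩ Iic τ with hD
  have hDm : MeasurableSet D := hD₀m.inter measurableSet_Iic
  have hDFm : D ⊆ Fm := inter_subset_left.trans hD₀Fm
  have hDs : D ⊆ Icc (x + s') (x + s' + 1) := inter_subset_left.trans hD₀s
  have hdisj : Disjoint Fp D := by
    rw [Set.disjoint_right]
    exact fun t ht => hD₀Fp t ht.1
  have hFpf := fin_of_sub hFps
  have hFmf := fin_of_sub hFms
  have hDf := fin_of_sub hDs
  have hvp : volume.real Fp = volume.real F := by
    rw [Measure.real, Measure.real]
    congr 1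
    have e : Fp = (fun h => h + -s') ⁻¹' F := by ext t; simp [hFp, sub_eq_add_neg]
    rw [e]
    exact measure_preimage_add_right volume (-s') F
  have hvm : volume.real Fm = volume.real F := by
    rw [Measure.real, Measure.real]
    congr 1
    exact measure_preimage_add_right volume s' F
  refine ⟨x - s', x + s', Fm \ D, Fp ∪ D, hFmm.diff hDm, hFpm.union hDm, sdiff_subset.trans hFms,
    union_subset hFps hDs, ?_, ?_, fun g hg => ?_⟩
  · rw [measureReal_sdiff hDFm hDm, hvm, hτ]
  · rw [measureReal_union hdisj hDm hFpf hDf, hvp, hτ]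
  · have hgi : ∀ {S : Set ℝ} {a b : ℝ}, S ⊆ Icc a b → IntegrableOn g S := fun h =>
      (hg.continuousOn.integrableOn_compact isCompact_Icc).mono_set h
    rw [setIntegral_union hdisj hDm (hgi hFps) (hgi hDs)]
    have e1 := setIntegral_sdiff hDm (hgi hFms) hDFm
    have ep : ∫ t in F, g (t + s') = ∫ t in Fp, g t := by
      have h2 := (measurePreserving_add_right volume s').setIntegral_preimage_emb
        (MeasurableEquiv.addRight s').measurableEmbedding g Fp
      rw [← h2]
      congr 2
      ext t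
      simp [hFp]
    have em : ∫ t in F, g (t - s') = ∫ t in Fm, g t := by
      have h2 := (measurePreserving_add_right volume (-s')).setIntegral_preimage_emb
        (MeasurableEquiv.addRight (-s')).measurableEmbedding g Fm
      rw [← h2]
      have : (fun x => x + -s') ⁻¹' Fm = F := by
        ext t
        simp [hFm]
      rw [this]
      rfl
    have esum : (∫ t in F, g (t + s)) + ∫ t in F, g (t - s) =
        (∫ t in F, g (t + s')) + ∫ t in F, g (t - s') := by
      rcases (abs_eq zero_le_one).1 hσ with h | h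
      · rw [hs', h, one_mul]
      · rw [hs', h, add_comm]
        congr 1
        · congr 1; funext t; congr 1; ring
        · congr 1; funext t; congr 1; ring
    rw [esum, ep, em, e1]
    ring

end

end Pool.Agent.W773.RD
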