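import Pool.Agent.W773.RD.Basic

set_option autoImplicit false

open Filter Metric Set Topology MeasureTheory InnerProductSpace
open scoped ComplexConjugate ENNReal

namespace Pool.Agent.W773.RD

/-- the open unit disc in `ℝ × ℝ` -/
def D : Set (ℝ × ℝ) := {p | p.1 ^ 2 + p.2 ^ 2 < 1}

lemma isOpen_D : IsOpen D :=
  isOpen_lt (by fun_prop) continuous_const

lemma lintegral_circle {v : ℂ → ℝ} (hv : Continuous v) (h0 : ∀ z, 0 ≤ v z) (z : ℂ) (r : ℝ) :
    ∫⁻ φ in Ioo (-Real.pi) Real.pi, ENNReal.ofReal (v (circleMap z r φ)) =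
      ENNReal.ofReal (2 * Real.pi * Real.circleAverage v z r) := by
  have hpi := Real.pi_pos
  have hc : Continuous fun φ => v (circleMap z r φ) := hv.comp (continuous_circleMap z r)
  have h1 : ∫ θ in (0 : ℝ)..2 * Real.pi, v (circleMap z r θ) =
      ∫ θ in (-Real.pi)..Real.pi, v (circleMap z r θ) := by
    have hper : Function.Periodic (fun φ => v (circleMap z r φ)) (2 * Real.pi) := by
      intro θ; simp only [(periodic_circleMap z r) θ]
    have := hper.intervalIntegral_add_eq 0 (-Real.pi)
    rw [zero_add] at this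
    rw [this]; ring_nf
  rw [Real.circleAverage_def, smul_eq_mul, ← mul_assoc, mul_inv_cancel₀ (by positivity), one_mul,
    h1, intervalIntegral.integral_of_le (by linarith), restrict_Ioo_eq_restrict_Ioc]
  exact (ofReal_integral_eq_lintegral_ofReal
    ((intervalIntegrable_iff_integrableOn_Ioc_of_le (by linarith)).1 (hc.intervalIntegrable _ _))
    (Eventually.of_forall fun _ => h0 _)).symm

/-- area sub-mean value property on the unit disc -/
lemma area_sub {v : ℂ → ℝ} (hv : Continuous v) (h0 : ∀ z, 0 ≤ v z)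
    (hs : ∀ z R, v z ≤ Real.circleAverage v z R) (z : ℂ) :
    ENNReal.ofReal (Real.pi * v z) ≤
      ∫⁻ p in D, ENNReal.ofReal (v (z + p.1 + p.2 * Complex.I)) := by
  have hpi := Real.pi_pos
  rw [← lintegral_indicator isOpen_D.measurableSet, ← lintegral_comp_polarCoord_symm]
  set H : ℝ × ℝ → ℝ≥0∞ := fun p => ENNReal.ofReal p.1 •
    D.indicator (fun p : ℝ × ℝ => ENNReal.ofReal (v (z + p.1 + p.2 * Complex.I)))
      (polarCoord.symm p) with hH
  have h1 : ∀ r ∈ Ioo (0 : ℝ) 1, ∀ φ : ℝ, H (r, φ) =
      ENNReal.ofReal r * ENNReal.ofReal (v (circleMap z r φ)) := by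
    intro r hr φ
    simp only [hH, polarCoord_symm_apply, smul_eq_mul]
    have hm : (r * Real.cos φ, r * Real.sin φ) ∈ D := by
      have := Real.sin_sq_add_cos_sq φ
      have e : (r * Real.cos φ) ^ 2 + (r * Real.sin φ) ^ 2 = r ^ 2 := by
        linear_combination r ^ 2 * this
      show (r * Real.cos φ) ^ 2 + (r * Real.sin φ) ^ 2 < 1
      rw [e]
      nlinarith [hr.1, hr.2]
    rw [indicator_of_mem hm]
    have e : z + ((r * Real.cos φ : ℝ) : ℂ) + ((r * Real.sin φ : ℝ) : ℂ) * Complex.I =
        circleMap z r φ := by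
      rw [circleMap, Complex.exp_mul_I]; push_cast; ring
    simp only [e]
  have hmeas : Measurable H := by
    have h2 : Measurable (D.indicator
        (fun p : ℝ × ℝ => ENNReal.ofReal (v (z + p.1 + p.2 * Complex.I)))) := by
      refine Measurable.indicator ?_ isOpen_D.measurableSet
      exact (hv.comp (by fun_prop)).measurable.ennreal_ofReal
    have h3 : Measurable (polarCoord.symm : ℝ × ℝ → ℝ × ℝ) := by
      have : (polarCoord.symm : ℝ × ℝ → ℝ × ℝ) = fun p => (p.1 * Real.cos p.2, p.1 * Real.sin p.2) :=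
        funext polarCoord_symm_apply
      rw [this]; fun_prop
    exact (by fun_prop : Measurable fun p : ℝ × ℝ => ENNReal.ofReal p.1).mul (h2.comp h3)
  calc ENNReal.ofReal (Real.pi * v z)
      = ∫⁻ r in Ioo (0 : ℝ) 1, ENNReal.ofReal r * ENNReal.ofReal (2 * Real.pi * v z) := by
        rw [lintegral_mul_const _ (by fun_prop)]
        have h5 : ∫⁻ r in Ioo (0 : ℝ) 1, ENNReal.ofReal r = ENNReal.ofReal (1 / 2) := by
          rw [restrict_Ioo_eq_restrict_Ioc, ← ofReal_integral_eq_lintegral_ofReal]
          · rw [← intervalIntegral.integral_of_le (by norm_num), integral_id]; norm_num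
          · exact (intervalIntegrable_iff_integrableOn_Ioc_of_le (by norm_num)).1
              (continuous_id.intervalIntegrable _ _)
          · exact (ae_restrict_iff' measurableSet_Ioc).2 (Eventually.of_forall fun r hr => hr.1.le)
        rw [h5, ← ENNReal.ofReal_mul (by norm_num)]
        congr 1; ring
    _ ≤ ∫⁻ r in Ioo (0 : ℝ) 1, ∫⁻ φ in Ioo (-Real.pi) Real.pi, H (r, φ) := by
        refine setLIntegral_mono' measurableSet_Ioo fun r hr => ?_
        simp_rw [h1 r hr]
        rw [lintegral_const_mul' _ _ ENNReal.ofReal_ne_top, lintegral_circle hv h0]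
        gcongr
        exact hs z r
    _ = ∫⁻ p in Ioo (0 : ℝ) 1 ×ˢ Ioo (-Real.pi) Real.pi, H p := by
        rw [Measure.volume_eq_prod, ← Measure.prod_restrict, lintegral_prod _ hmeas.aemeasurable]
    _ ≤ ∫⁻ p in polarCoord.target, H p := by
        refine lintegral_mono_set ?_
        rw [polarCoord_target]
        exact prod_mono Ioo_subset_Ioi_self Subset.rfl

end Pool.Agent.W773.RD
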