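import Pool.Agent.W773.RD.Repr3

set_option autoImplicit false

open Filter Metric Set Topology MeasureTheory InnerProductSpace
open scoped ComplexConjugate

namespace Pool.Agent.W773.RD

/-- `U` is the normalised symmetric positive harmonic function vanishing on `E ⊆ ℝ`. -/
structure IsU (E : Set ℝ) (U : ℂ → ℝ) : Prop where
  cont : Continuous U
  harm : HarmonicOnNhd U (Complex.ofReal '' E)ᶜ
  pos : ∀ z ∈ (Complex.ofReal '' E)ᶜ, 0 < U z
  zero : ∀ t ∈ E, U t = 0
  symm : ∀ z, U (conj z) = U z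
  norm : Tendsto (fun y : ℝ => U (y * Complex.I) / y) atTop (𝓝 1)

/-- closed sets meeting every interval of length `N` in measure at least `δ` -/
structure Dense (N δ : ℝ) (E : Set ℝ) : Prop where
  closed : IsClosed E
  dens : ∀ x : ℝ, ENNReal.ofReal δ ≤ volume (E ∩ Icc x (x + N))

lemma harmonicAt_comp {f : ℂ → ℝ} {φ : ℂ → ℂ} {z : ℂ} (hφ : AnalyticAt ℂ φ z)
    (h : HarmonicAt f (φ z)) : HarmonicAt (fun w => f (φ w)) z := by
  obtain ⟨ε, h1, h2⟩ := Metric.isOpen_iff.1 (isOpen_setOfPred_harmonicAt f) (φ z) h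
  obtain ⟨F, hF, hFe⟩ := HarmonicOnNhd.exists_analyticOnNhd_ball_re_eq
    (f := f) (z := φ z) (R := ε) (fun _ hy => h2 hy)
  have h3 : AnalyticAt ℂ (fun w => F (φ w)) z := (hF (φ z) (mem_ball_self h1)).comp hφ
  refine (harmonicAt_congr_nhds ?_).1 h3.harmonicAt_re
  filter_upwards [hφ.continuousAt.eventually (ball_mem_nhds (φ z) h1)] with w hw
  exact hFe hw

section
variable {E : Set ℝ} {U : ℂ → ℝ}

lemma IsU.notMem_of_im {z : ℂ} (hz : z.im ≠ 0) : z ∈ (Complex.ofReal '' E)ᶜ := by
  rintro ⟨t, _, rfl⟩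
  simp at hz

lemma IsU.harmonicAt_im (h : IsU E U) {z : ℂ} (hz : z.im ≠ 0) : HarmonicAt U z :=
  h.harm z (IsU.notMem_of_im hz)

lemma IsU.nonneg (h : IsU E U) (z : ℂ) : 0 ≤ U z := by
  by_cases hz : z ∈ (Complex.ofReal '' E)ᶜ
  · exact (h.pos z hz).le
  · rw [notMem_compl_iff] at hz
    obtain ⟨t, ht, rfl⟩ := hz
    exact (h.zero t ht).ge

lemma IsU.locSub (h : IsU E U) (z : ℂ) : LocSub U z := by
  by_cases hz : z ∈ (Complex.ofReal '' E)ᶜ
  · exact locSub_of_harmonicAt (h.harm z hz)
  · rw [notMem_compl_iff] at hz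
    obtain ⟨t, ht, rfl⟩ := hz
    exact locSub_of_zero h.nonneg (h.zero t ht)

lemma IsU.sub (h : IsU E U) (z : ℂ) (R : ℝ) : U z ≤ Real.circleAverage U z R :=
  sub_of_loc h.cont h.locSub z R

/-- the shifted function -/
lemma IsU.shift (h : IsU E U) {v Y : ℝ} (hv : 0 ≤ v) (hY : 0 < Y) (x : ℝ) :
    Integrable (fun t : ℝ => P Y (x - t) * U (t + v * Complex.I)) ∧
    U (x + (Y + v) * Complex.I) = Y + ∫ t : ℝ, P Y (x - t) * U (t + v * Complex.I) := by
  set g : ℂ → ℝ := fun z => U (z + v * Complex.I) with hg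
  have hgc : Continuous g := h.cont.comp (by fun_prop)
  have hgh : ∀ z : ℂ, 0 < z.im → HarmonicAt g z := by
    intro z hz
    refine harmonicAt_comp (φ := fun z => z + v * Complex.I) (by fun_prop) (h.harmonicAt_im ?_)
    simp only [Complex.add_im, Complex.mul_im, Complex.ofReal_re, Complex.ofReal_im, Complex.I_re,
      Complex.I_im]
    have : 0 < z.im + v := by linarith
    simpa using this.ne'
  have hgn : Tendsto (fun y : ℝ => g (y * Complex.I) / y) atTop (𝓝 1) := by
    have h1 : Tendsto (fun y : ℝ => U (((y + v : ℝ) : ℂ) * Complex.I) / (y + v)) atTop (𝓝 1) :=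
      h.norm.comp (tendsto_atTop_add_const_right _ v tendsto_id)
    have h2 : Tendsto (fun y : ℝ => (y + v) / y) atTop (𝓝 1) := by
      have h3 : Tendsto (fun y : ℝ => 1 + v / y) atTop (𝓝 (1 + 0)) :=
        tendsto_const_nhds.add (tendsto_id.const_div_atTop v)
      rw [add_zero] at h3
      refine h3.congr' ?_
      filter_upwards [eventually_gt_atTop 0] with y hy
      field_simp
    have h4 := h1.mul h2
    rw [one_mul] at h4
    refine h4.congr' ?_
    filter_upwards [eventually_gt_atTop 0] with y hy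
    have : y + v ≠ 0 := by positivity
    have e : ((y + v : ℝ) : ℂ) * Complex.I = y * Complex.I + v * Complex.I := by push_cast; ring
    rw [e]
    simp only [hg]
    field_simp
  have hw : 0 < ((x : ℂ) + Y * Complex.I).im := by simpa using hY
  have h5 := poisson_repr hgc hgh (fun z => h.nonneg _) hgn hw
  have e1 : ((x : ℂ) + Y * Complex.I).im = Y := by simp
  have e2 : ((x : ℂ) + Y * Complex.I).re = x := by simp
  rw [e1, e2] at h5
  refine ⟨h5.1, ?_⟩
  rw [← h5.2]
  simp only [hg]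
  congr 1; ring

lemma IsU.base (h : IsU E U) {Y : ℝ} (hY : 0 < Y) (x : ℝ) :
    Integrable (fun t : ℝ => P Y (x - t) * U t) ∧
    U (x + Y * Complex.I) = Y + ∫ t : ℝ, P Y (x - t) * U t := by
  have := h.shift le_rfl hY x
  simpa using this

lemma P_pos {Y : ℝ} (hY : 0 < Y) (t : ℝ) : 0 < P Y t := by
  unfold P; have := Real.pi_pos; positivity

lemma P_int {Y : ℝ} (hY : 0 < Y) (x : ℝ) :
    Integrable (fun t : ℝ => P Y (x - t)) ∧ ∫ t : ℝ, P Y (x - t) = 1 := by
  set g : ℂ → ℝ := fun z => |z.im| + 1 with hg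
  have hgc : Continuous g := (Complex.continuous_im.abs).add continuous_const
  have hgh : ∀ z : ℂ, 0 < z.im → HarmonicAt g z := by
    intro z hz
    have h1 : HarmonicAt (fun w : ℂ => (-Complex.I * w + 1).re) z :=
      AnalyticAt.harmonicAt_re (by fun_prop)
    refine (harmonicAt_congr_nhds ?_).1 h1
    have : {w : ℂ | 0 < w.im} ∈ 𝓝 z := (isOpen_lt continuous_const Complex.continuous_im).mem_nhds hz
    filter_upwards [this] with w hw
    simp only [hg, abs_of_pos (show 0 < w.im from hw)]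
    simp
  have hgn : Tendsto (fun y : ℝ => g (y * Complex.I) / y) atTop (𝓝 1) := by
    have h3 : Tendsto (fun y : ℝ => 1 + 1 / y) atTop (𝓝 (1 + 0)) :=
      tendsto_const_nhds.add (tendsto_id.const_div_atTop 1)
    rw [add_zero] at h3
    refine h3.congr' ?_
    filter_upwards [eventually_gt_atTop 0] with y hy
    simp only [hg, Complex.mul_im, Complex.ofReal_re, Complex.ofReal_im, Complex.I_re,
      Complex.I_im, mul_one, mul_zero, add_zero, abs_of_pos hy]
    field_simp
  have hw : 0 < ((x : ℂ) + Y * Complex.I).im := by simpa using hY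
  have h5 := poisson_repr hgc hgh (fun z => by simp only [hg]; positivity) hgn hw
  have e1 : ((x : ℂ) + Y * Complex.I).im = Y := by simp
  have e2 : ((x : ℂ) + Y * Complex.I).re = x := by simp
  rw [e1, e2] at h5
  simp only [hg, Complex.ofReal_im, abs_zero, zero_add, mul_one, e1, abs_of_pos hY] at h5
  exact ⟨h5.1, by linarith [h5.2]⟩

end

end Pool.Agent.W773.RD
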