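import Pool.Agent.W773.RD.Comp4

set_option autoImplicit false

open Filter Metric Set Topology MeasureTheory InnerProductSpace
open scoped ComplexConjugate ENNReal

namespace Pool.Agent.W773.RD

lemma fin_of_sub {D : Set ℝ} {a b : ℝ} (h : D ⊆ Icc a b) : volume D ≠ ∞ :=
  ((measure_mono h).trans_lt (by rw [Real.volume_Icc]; exact ENNReal.ofReal_lt_top)).ne

lemma exists_cut {D : Set ℝ} {a b : ℝ} (hsub : D ⊆ Icc a b) {ρ : ℝ} (h0 : 0 ≤ ρ)
    (h1 : ρ ≤ volume.real D) : ∃ τ, volume.real (D ∩ Iic τ) = ρ := by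
  have hfin : volume D ≠ ∞ := fin_of_sub hsub
  have hfin' : ∀ τ, volume (D ∩ Iic τ) ≠ ∞ := fun τ => fin_of_sub (inter_subset_left.trans hsub)
  have hmono : ∀ τ τ', τ ≤ τ' → volume.real (D ∩ Iic τ) ≤ volume.real (D ∩ Iic τ') := fun τ τ' h =>
    measureReal_mono (inter_subset_inter_right _ (Iic_subset_Iic.2 h)) (hfin' _)
  have hlip : ∀ τ τ', τ ≤ τ' → volume.real (D ∩ Iic τ') ≤ volume.real (D ∩ Iic τ) + (τ' - τ) := by
    intro τ τ' h
    have h2 : D ∩ Iic τ' ⊆ (D ∩ Iic τ) ∪ Ioc τ τ' := by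
      rintro t ⟨ht, ht'⟩
      rcases le_or_gt t τ with h3 | h3
      · exact Or.inl ⟨ht, h3⟩
      · exact Or.inr ⟨h3, ht'⟩
    have h3 : volume (Ioc τ τ') ≠ ∞ := by rw [Real.volume_Ioc]; exact ENNReal.ofReal_ne_top
    refine (measureReal_mono h2 (measure_union_ne_top (hfin' _) h3)).trans ?_
    refine (measureReal_union_le _ _).trans (le_of_eq ?_)
    rw [Real.volume_real_Ioc_of_le h]
  have hc : Continuous fun τ => volume.real (D ∩ Iic τ) := by
    refine (LipschitzWith.of_le_add_mul 1 fun τ τ' => ?_).continuous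
    rw [NNReal.coe_one, one_mul, Real.dist_eq]
    rcases le_total τ τ' with h | h
    · linarith [hmono _ _ h, abs_nonneg (τ - τ')]
    · linarith [hlip _ _ h, le_abs_self (τ - τ')]
  refine mem_range_of_exists_le_of_exists_ge hc ⟨a - 1, ?_⟩ ⟨b, ?_⟩
  · have : D ∩ Iic (a - 1) = ∅ := by
      ext t
      simp only [mem_inter_iff, mem_Iic, mem_empty_iff_false, iff_false, not_and, not_le]
      intro ht
      linarith [(hsub ht).1]
    rw [this]; simpa using h0
  · have : D ∩ Iic b = D := inter_eq_left.2 fun t ht => (hsub ht).2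
    rwa [this]

lemma bath_le {g : ℝ → ℝ} (hg : Continuous g) {x l : ℝ} {F : Set ℝ}
    (hsub : F ⊆ Icc x (x + 1)) :
    ∫ t in F, g t ≤ volume.real F * l + ∫ t in Icc x (x + 1), max (g t - l) 0 := by
  have hc : Continuous fun t => max (g t - l) 0 := by fun_prop
  have hi1 : IntegrableOn (fun t => max (g t - l) 0) (Icc x (x + 1)) :=
    hc.continuousOn.integrableOn_compact isCompact_Icc
  have hi2 : IntegrableOn g F :=
    (hg.continuousOn.integrableOn_compact isCompact_Icc).mono_set hsub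
  have hi3 : IntegrableOn (fun _ => l) F :=
    integrableOn_const (fin_of_sub hsub)
  have e1 : ∫ t in F, g t = volume.real F * l + ∫ t in F, (g t - l) := by
    rw [integral_sub hi2 hi3, setIntegral_const, smul_eq_mul]; ring
  rw [e1]
  have h1 : ∫ t in F, (g t - l) ≤ ∫ t in F, max (g t - l) 0 :=
    setIntegral_mono (hi2.sub hi3) (hi1.mono_set hsub) fun t => le_max_left _ _
  have h2 : ∫ t in F, max (g t - l) 0 ≤ ∫ t in Icc x (x + 1), max (g t - l) 0 :=
    setIntegral_mono_set hi1 (Eventually.of_forall fun t => le_max_right _ _)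
      (Eventually.of_forall hsub)
  linarith

lemma bath_eq {g : ℝ → ℝ} (hg : Continuous g) {x θ Λ : ℝ} (h0 : 0 ≤ θ) (h1 : θ ≤ 1 / 2)
    (hg0 : ∀ t ∈ Icc x (x + 1), 0 ≤ g t) (hΛ : ∀ t ∈ Icc x (x + 1), g t ≤ Λ) :
    ∃ F, MeasurableSet F ∧ F ⊆ Icc x (x + 1) ∧ volume.real F = 2 * θ ∧
      ∃ l ∈ Icc 0 Λ, ∫ t in F, g t = 2 * θ * l + ∫ t in Icc x (x + 1), max (g t - l) 0 := by
  set I := Icc x (x + 1) with hI
  have hIm : MeasurableSet I := measurableSet_Icc
  have hvI : volume I = 1 := by rw [hI, Real.volume_Icc]; simp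
  have hxI : x ∈ I := ⟨le_rfl, by linarith⟩
  set S : Set ℝ := {l | 0 ≤ l ∧ volume (I ∩ {t | l < g t}) ≤ ENNReal.ofReal (2 * θ)} with hS
  have hΛS : Λ ∈ S := by
    refine ⟨(hg0 x hxI).trans (hΛ x hxI), ?_⟩
    have : I ∩ {t | Λ < g t} = ∅ := by
      ext t
      simp only [mem_inter_iff, mem_ofPred_eq, mem_empty_iff_false, iff_false, not_and, not_lt]
      exact hΛ t
    rw [this]; simp
  have hbdd : BddBelow S := ⟨0, fun l hl => hl.1⟩
  set l := sInf S with hl
  have hlΛ : l ≤ Λ := csInf_le hbdd hΛS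
  have hl0 : 0 ≤ l := le_csInf ⟨Λ, hΛS⟩ fun l hl => hl.1
  have hmeas : ∀ l, MeasurableSet (I ∩ {t | l < g t}) := fun l =>
    hIm.inter (isOpen_lt continuous_const hg).measurableSet
  have hA : volume (I ∩ {t | l < g t}) ≤ ENNReal.ofReal (2 * θ) := by
    have h2 : Monotone fun n : ℕ => I ∩ {t | l + 1 / ((n : ℝ) + 1) < g t} := by
      intro n m hnm t ht
      have h5 : l + 1 / ((n : ℝ) + 1) < g t := ht.2
      have h6 : 1 / ((m : ℝ) + 1) ≤ 1 / ((n : ℝ) + 1) := by gcongr
      have h7 : l + 1 / ((m : ℝ) + 1) < g t := by linarith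
      exact ⟨ht.1, h7⟩
    have h3 := tendsto_measure_iUnion_atTop (μ := volume) h2
    have h4 : (⋃ n : ℕ, I ∩ {t | l + 1 / ((n : ℝ) + 1) < g t}) = I ∩ {t | l < g t} := by
      ext t
      simp only [mem_iUnion, mem_inter_iff, mem_ofPred_eq]
      constructor
      · rintro ⟨n, h5, h6⟩
        have : 0 < 1 / ((n : ℝ) + 1) := by positivity
        exact ⟨h5, by linarith⟩
      · rintro ⟨h5, h6⟩
        obtain ⟨n, hn⟩ := exists_nat_one_div_lt (sub_pos.2 h6)
        exact ⟨n, h5, by linarith⟩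
    rw [h4] at h3
    refine le_of_tendsto' h3 fun n => ?_
    have h5 : l < l + 1 / ((n : ℝ) + 1) := by
      have : 0 < 1 / ((n : ℝ) + 1) := by positivity
      linarith
    obtain ⟨l', hl', h6⟩ := exists_lt_of_csInf_lt ⟨Λ, hΛS⟩ h5
    refine le_trans (measure_mono ?_) hl'.2
    exact fun t ht => ⟨ht.1, lt_trans h6 ht.2⟩
  have hB : ENNReal.ofReal (2 * θ) ≤ volume (I ∩ {t | l ≤ g t}) := by
    rcases eq_or_lt_of_le hl0 with h2 | h2
    · rw [← h2]
      have : I ∩ {t | 0 ≤ g t} = I := inter_eq_left.2 hg0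
      rw [this, hvI]
      exact ENNReal.ofReal_le_one.2 (by linarith)
    · have h3 : Antitone fun n : ℕ => I ∩ {t | l - l / ((n : ℝ) + 1) < g t} := by
        intro n m hnm t ht
        have h5 : l - l / ((m : ℝ) + 1) < g t := ht.2
        have h6 : l / ((m : ℝ) + 1) ≤ l / ((n : ℝ) + 1) := by gcongr
        have h7 : l - l / ((n : ℝ) + 1) < g t := by linarith
        exact ⟨ht.1, h7⟩
      have h4 := tendsto_measure_iInter_atTop (μ := volume)
        (fun n : ℕ => (hmeas (l - l / ((n : ℝ) + 1))).nullMeasurableSet) h3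
        ⟨0, fin_of_sub inter_subset_left⟩
      have h5 : (⋂ n : ℕ, I ∩ {t | l - l / ((n : ℝ) + 1) < g t}) = I ∩ {t | l ≤ g t} := by
        ext t
        simp only [mem_iInter, mem_inter_iff, mem_ofPred_eq]
        constructor
        · intro h6
          refine ⟨(h6 0).1, ?_⟩
          by_contra hcon
          rw [not_le] at hcon
          obtain ⟨n, hn⟩ := exists_nat_one_div_lt (div_pos (sub_pos.2 hcon) h2)
          have h7 := (h6 n).2
          have h8 : l / ((n : ℝ) + 1) < l - g t := by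
            have h9 := mul_lt_mul_of_pos_right hn h2
            rw [div_mul_cancel₀ _ h2.ne'] at h9
            calc l / ((n : ℝ) + 1) = 1 / ((n : ℝ) + 1) * l := by ring
              _ < _ := h9
          linarith
        · rintro ⟨h6, h7⟩ n
          have : 0 < l / ((n : ℝ) + 1) := by positivity
          exact ⟨h6, by linarith⟩
      rw [h5] at h4
      refine ge_of_tendsto' h4 fun n => ?_
      have h6 : l - l / ((n : ℝ) + 1) < l := by
        have : 0 < l / ((n : ℝ) + 1) := by positivity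
        linarith
      have h7 : 0 ≤ l - l / ((n : ℝ) + 1) := by
        have : l / ((n : ℝ) + 1) ≤ l / 1 := by gcongr; linarith [(Nat.cast_nonneg n : (0 : ℝ) ≤ n)]
        rw [div_one] at this; linarith
      have h8 := notMem_of_lt_csInf h6 hbdd
      rw [hS, mem_ofPred_eq, not_and, not_le] at h8
      exact (h8 h7).le
  set A := I ∩ {t | l < g t} with hAd
  set B := I ∩ {t | g t = l} with hBd
  have hBm : MeasurableSet B := hIm.inter (isClosed_eq hg continuous_const).measurableSet
  have hAB : I ∩ {t | l ≤ g t} = A ∪ B := by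
    ext t
    simp only [hAd, hBd, mem_inter_iff, mem_ofPred_eq, mem_union]
    constructor
    · rintro ⟨h2, h3⟩
      rcases lt_or_eq_of_le h3 with h4 | h4
      · exact Or.inl ⟨h2, h4⟩
      · exact Or.inr ⟨h2, h4.symm⟩
    · rintro (⟨h2, h3⟩ | ⟨h2, h3⟩)
      · exact ⟨h2, h3.le⟩
      · exact ⟨h2, h3.ge⟩
  have hdisj : Disjoint A B := by
    rw [Set.disjoint_left]
    rintro t ⟨_, h2⟩ ⟨_, h3⟩
    have h2' : l < g t := h2
    have h3' : g t = l := h3
    linarith
  have hAf : volume A ≠ ∞ := fin_of_sub (inter_subset_left : A ⊆ Icc x (x + 1))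
  have hBf : volume B ≠ ∞ := fin_of_sub (inter_subset_left : B ⊆ Icc x (x + 1))
  have hA' : volume.real A ≤ 2 * θ := ENNReal.toReal_le_of_le_ofReal (by linarith) hA
  have hB' : 2 * θ ≤ volume.real A + volume.real B := by
    rw [hAB, measure_union hdisj hBm] at hB
    rw [Measure.real, Measure.real, ← ENNReal.toReal_add hAf hBf]
    exact (ENNReal.ofReal_le_iff_le_toReal (ENNReal.add_ne_top.2 ⟨hAf, hBf⟩)).1 hB
  obtain ⟨τ, hτ⟩ := exists_cut (inter_subset_left : B ⊆ Icc x (x + 1))
    (sub_nonneg.2 hA') (by linarith : 2 * θ - volume.real A ≤ volume.real B)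
  have hdisj' : Disjoint A (B ∩ Iic τ) := hdisj.mono_right inter_subset_left
  have hBτ : MeasurableSet (B ∩ Iic τ) := hBm.inter measurableSet_Iic
  have hBτf : volume (B ∩ Iic τ) ≠ ∞ :=
    fin_of_sub ((inter_subset_left.trans inter_subset_left) : B ∩ Iic τ ⊆ Icc x (x + 1))
  have hgI : IntegrableOn g I := hg.continuousOn.integrableOn_compact isCompact_Icc
  refine ⟨A ∪ (B ∩ Iic τ), (hmeas l).union hBτ, ?_, ?_, l, ⟨hl0, hlΛ⟩, ?_⟩
  · exact union_subset inter_subset_left (inter_subset_left.trans inter_subset_left)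
  · rw [measureReal_union hdisj' hBτ hAf hBτf, hτ]; ring
  · rw [setIntegral_union hdisj' hBτ (hgI.mono_set inter_subset_left)
      (hgI.mono_set (inter_subset_left.trans inter_subset_left))]
    have e1 : ∫ t in B ∩ Iic τ, g t = volume.real (B ∩ Iic τ) * l := by
      rw [setIntegral_congr_fun (g := fun _ => l) hBτ fun t ht => ht.1.2, setIntegral_const,
        smul_eq_mul]
    have e2 : ∫ t in I, max (g t - l) 0 = ∫ t in A, (g t - l) := by
      rw [← setIntegral_indicator (s := I) (t := {t | l < g t})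
        (isOpen_lt continuous_const hg).measurableSet]
      refine setIntegral_congr_fun hIm fun t ht => ?_
      by_cases h2 : l < g t
      · rw [indicator_of_mem (show t ∈ {t | l < g t} from h2)]
        exact max_eq_left (by linarith)
      · rw [indicator_of_notMem (show t ∉ {t | l < g t} from h2)]
        exact max_eq_right (by linarith [not_lt.1 h2])
    have e3 : ∫ t in A, (g t - l) = (∫ t in A, g t) - volume.real A * l := by
      rw [integral_sub (hgI.mono_set inter_subset_left) (integrableOn_const hAf),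
        setIntegral_const, smul_eq_mul]
    rw [e1, e2, e3, hτ]; ring

end Pool.Agent.W773.RD
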