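import Pool.Agent.W773.RD.Area

set_option autoImplicit false

open Filter Metric Set Topology MeasureTheory InnerProductSpace
open scoped ComplexConjugate ENNReal

namespace Pool.Agent.W773.RD

lemma K1 {Y η ξ : ℝ} (hY : 2 ≤ Y) (h0 : 0 ≤ η) (h1 : η ≤ 1) (hξ : |ξ| ≤ 1) (s : ℝ) :
    P (Y + η) (s + ξ) ≤ (1 + 5 / Y) * P Y s := by
  unfold P
  have hpi := Real.pi_pos
  have e : (1 + 5 / Y) * (Y / (Real.pi * (s ^ 2 + Y ^ 2))) = (Y + 5) / (Real.pi * (s ^ 2 + Y ^ 2)) := by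
    field_simp
  rw [e, div_le_div_iff₀ (by positivity) (by positivity)]
  have h2 : -|s| ≤ s * ξ := by
    have : |s * ξ| ≤ |s| := by
      rw [abs_mul]; exact mul_le_of_le_one_right (abs_nonneg _) hξ
    linarith [neg_abs_le (s * ξ)]
  have h3 : (Y + 1) * (s ^ 2 + Y ^ 2) ≤ (Y + 5) * ((s + ξ) ^ 2 + Y ^ 2) := by
    have h4 : 0 ≤ 4 * (|s| - Y) ^ 2 := by positivity
    have h5 : (Y + 5) * (2 * |s|) ≤ 8 * (|s| * Y) := by nlinarith [abs_nonneg s]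
    have h6 : (Y + 5) * (-(2 * |s|)) ≤ (Y + 5) * (2 * (s * ξ) + ξ ^ 2) := by
      refine mul_le_mul_of_nonneg_left ?_ (by linarith)
      nlinarith [sq_nonneg ξ]
    nlinarith [sq_abs s]
  have h4 : (Y + η) * (s ^ 2 + Y ^ 2) ≤ (Y + 5) * ((s + ξ) ^ 2 + (Y + η) ^ 2) := by
    have h5 : (Y + η) * (s ^ 2 + Y ^ 2) ≤ (Y + 1) * (s ^ 2 + Y ^ 2) := by gcongr
    have h6 : (Y + 5) * ((s + ξ) ^ 2 + Y ^ 2) ≤ (Y + 5) * ((s + ξ) ^ 2 + (Y + η) ^ 2) := by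
      have : Y ^ 2 ≤ (Y + η) ^ 2 := by gcongr; linarith
      gcongr
    linarith
  nlinarith

lemma K2 {Y A B : ℝ} (hY : 1 ≤ Y) (h : |A - B| ≤ 1 / 2) : P Y B / 3 ≤ P Y A := by
  unfold P
  have hpi := Real.pi_pos
  rw [div_div, div_le_div_iff₀ (by positivity) (by positivity)]
  have h1 : A ^ 2 + Y ^ 2 ≤ 3 * (B ^ 2 + Y ^ 2) := by
    have h2 := abs_le.1 h
    nlinarith [sq_nonneg (A - B), sq_nonneg (A - 2 * B), sq_nonneg (B + 1), sq_nonneg (B - 1)]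
  have : Y * (Real.pi * (A ^ 2 + Y ^ 2)) ≤ Y * (Real.pi * (3 * (B ^ 2 + Y ^ 2))) := by gcongr
  linarith

lemma K3 {Y η : ℝ} (hY : 1 ≤ Y) (h0 : 0 ≤ η) (h1 : η ≤ 1 / 2) (s : ℝ) :
    2 / 3 * P Y s ≤ P (Y + η) s := by
  unfold P
  have hpi := Real.pi_pos
  rw [← mul_div_assoc, div_le_div_iff₀ (by positivity) (by positivity)]
  have h2 : 2 / 3 * Y * (s ^ 2 + (Y + η) ^ 2) ≤ (Y + η) * (s ^ 2 + Y ^ 2) := by
    have h3 : 2 / 3 * Y * s ^ 2 ≤ (Y + η) * s ^ 2 := by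
      refine mul_le_mul_of_nonneg_right (by linarith) (sq_nonneg s)
    have h4 : 2 / 3 * Y * (Y + η) ^ 2 ≤ (Y + η) * Y ^ 2 := by
      have : 0 ≤ (Y + η) * Y * (Y / 3 - 2 / 3 * η) := by
        refine mul_nonneg (by positivity) (by linarith)
      nlinarith
    nlinarith
  calc 2 / 3 * Y * (Real.pi * (s ^ 2 + (Y + η) ^ 2))
      = Real.pi * (2 / 3 * Y * (s ^ 2 + (Y + η) ^ 2)) := by ring
    _ ≤ Real.pi * ((Y + η) * (s ^ 2 + Y ^ 2)) := by gcongr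
    _ = _ := by ring

/-- Poisson integral of the boundary values -/
noncomputable def mm (U : ℂ → ℝ) (Y x : ℝ) : ℝ := ∫ t : ℝ, P Y (x - t) * U t

section
variable {E : Set ℝ} {U : ℂ → ℝ}

lemma IsU.symm_abs (h : IsU E U) (s η : ℝ) :
    U (s + η * Complex.I) = U (s + (|η| : ℝ) * Complex.I) := by
  rcases le_total 0 η with h1 | h1
  · rw [abs_of_nonneg h1]
  · rw [abs_of_nonpos h1, ← h.symm]
    congr 1
    apply Complex.ext <;> simp

lemma mm_nonneg (h : IsU E U) {Y : ℝ} (hY : 0 < Y) (x : ℝ) : 0 ≤ mm U Y x :=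
  integral_nonneg fun t => mul_nonneg (P_pos hY _).le (h.nonneg _)

lemma IsU.eq_mm (h : IsU E U) {Y : ℝ} (hY : 0 < Y) (x : ℝ) :
    U (x + Y * Complex.I) = Y + mm U Y x := (h.base hY x).2

lemma F0 (h : IsU E U) {Y : ℝ} (hY : 0 < Y) (x ξ η : ℝ) :
    ∫⁻ t : ℝ, ENNReal.ofReal (P Y (x - t)) * ENNReal.ofReal (U ((t + ξ : ℝ) + η * Complex.I)) =
      ENNReal.ofReal (|η| + mm U (Y + |η|) (x + ξ)) := by
  have h1 := h.shift (abs_nonneg η) hY (x + ξ)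
  have h2 := h.eq_mm (add_pos_of_pos_of_nonneg hY (abs_nonneg η)) (x + ξ)
  have h3 : ∫ t : ℝ, P Y (x + ξ - t) * U (t + (|η| : ℝ) * Complex.I) = |η| + mm U (Y + |η|) (x + ξ) := by
    have h4 := h1.2
    have e : (((x + ξ : ℝ)) : ℂ) + ((Y : ℂ) + ((|η| : ℝ) : ℂ)) * Complex.I =
      ((x + ξ : ℝ) : ℂ) + ((Y + |η| : ℝ) : ℂ) * Complex.I := by push_cast; ring
    rw [e, h2] at h4
    linarith
  rw [← h3, ofReal_integral_eq_lintegral_ofReal h1.1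
    (Eventually.of_forall fun t => mul_nonneg (P_pos hY _).le (h.nonneg _)),
    ← lintegral_add_right_eq_self
      (fun t : ℝ => ENNReal.ofReal (P Y (x + ξ - t) * U (t + (|η| : ℝ) * Complex.I))) ξ]
  refine lintegral_congr fun t => ?_
  rw [← ENNReal.ofReal_mul (P_pos hY _).le, ← h.symm_abs]
  congr 3; ring

lemma mm_le (h : IsU E U) {Y η ξ : ℝ} (hY : 2 ≤ Y) (h0 : 0 ≤ η) (h1 : η ≤ 1) (hξ : |ξ| ≤ 1)
    (x : ℝ) : mm U (Y + η) (x + ξ) ≤ (1 + 5 / Y) * mm U Y x := by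
  unfold mm
  rw [← integral_const_mul]
  refine integral_mono (h.base (by linarith) _).1 ((h.base (by linarith) _).1.const_mul _)
    fun t => ?_
  show P (Y + η) (x + ξ - t) * U t ≤ (1 + 5 / Y) * (P Y (x - t) * U t)
  rw [← mul_assoc]
  refine mul_le_mul_of_nonneg_right ?_ (h.nonneg _)
  have := K1 hY h0 h1 hξ (x - t)
  rwa [show x - t + ξ = x + ξ - t by ring] at this

lemma le_mm (h : IsU E U) {Y η : ℝ} (hY : 1 ≤ Y) (h0 : 0 ≤ η) (h1 : η ≤ 1 / 2) (x : ℝ) :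
    2 / 3 * mm U Y x ≤ mm U (Y + η) x := by
  unfold mm
  rw [← integral_const_mul]
  refine integral_mono ((h.base (by linarith) _).1.const_mul _) (h.base (by linarith) _).1
    fun t => ?_
  show 2 / 3 * (P Y (x - t) * U t) ≤ P (Y + η) (x - t) * U t
  rw [← mul_assoc]
  exact mul_le_mul_of_nonneg_right (K3 hY h0 h1 _) (h.nonneg _)

lemma volume_D : volume D = ENNReal.ofReal Real.pi := by
  have h1 := Complex.volume_preserving_equiv_real_prod.measure_preimage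
    (isOpen_D.measurableSet.nullMeasurableSet)
  rw [← h1]
  have h2 : Complex.measurableEquivRealProd ⁻¹' D = ball (0 : ℂ) 1 := by
    ext z
    rw [mem_preimage, mem_ball_zero_iff, Complex.measurableEquivRealProd_apply]
    show z.re ^ 2 + z.im ^ 2 < 1 ↔ _
    rw [← sq_lt_one_iff₀ (norm_nonneg z), ← Complex.normSq_eq_norm_sq, Complex.normSq_apply,
      ← sq, ← sq]
  rw [h2, Complex.volume_ball]
  simp
  rw [← NNReal.coe_real_pi, ENNReal.ofReal_coe_nnreal]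

end

end Pool.Agent.W773.RD
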