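import Pool.Agent.W773.RD.Bounded

set_option autoImplicit false

open Filter Metric Set Topology MeasureTheory InnerProductSpace
open scoped ComplexConjugate ENNReal

namespace Pool.Agent.W773.RD

section
variable {E : Set ℝ} {U : ℂ → ℝ}

/-- `h (s, η) = U(s + iη)` as an extended nonnegative function -/
noncomputable def hh (U : ℂ → ℝ) (s η : ℝ) : ℝ≥0∞ := ENNReal.ofReal (U ((s : ℝ) + η * Complex.I))

lemma hh_meas (h : IsU E U) : Measurable fun p : ℝ × ℝ => hh U p.1 p.2 :=
  (h.cont.comp (by fun_prop)).measurable.ennreal_ofReal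

/-- the part over `E` -/
lemma lower_E (h : IsU E U) {δ : ℝ} (hE : Dense 1 δ E) (hδ : 0 ≤ δ) {Y : ℝ} (hY : 1 ≤ Y) (x : ℝ) :
    ENNReal.ofReal (2 * δ / 9 * mm U Y x) ≤
      ∫⁻ t in E, ENNReal.ofReal (P Y (x - t)) * ∫⁻ p in D, hh U (t + p.1) p.2 := by
  have hY0 : 0 < Y := by linarith
  set q : ℝ → ℝ≥0∞ := fun t => ENNReal.ofReal (P Y (x - t)) with hq
  have hqm : Measurable q := by
    have : Measurable fun t : ℝ => P Y (x - t) := by unfold P; fun_prop
    exact this.ennreal_ofReal
  have hm := hh_meas h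
  set I : Set ℝ := Icc (-(1 / 2)) (1 / 2) with hI
  have hsub : I ×ˢ I ⊆ D := by
    rintro ⟨a, b⟩ ⟨⟨h1, h2⟩, ⟨h3, h4⟩⟩
    show a ^ 2 + b ^ 2 < 1
    simp only at h1 h2 h3 h4
    nlinarith
  have hm3 : Measurable fun r : (ℝ × ℝ) × ℝ => hh U (r.1.1 + r.2) r.1.2 :=
    hm.comp (by fun_prop : Measurable fun r : (ℝ × ℝ) × ℝ => (r.1.1 + r.2, r.1.2))
  -- inner estimate for fixed η
  have inner : ∀ η ∈ I, ENNReal.ofReal (2 * δ / 9 * mm U Y x) ≤
      ∫⁻ t in E, q t * ∫⁻ ξ in I, hh U (t + ξ) η := by
    intro η hη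
    have hη' : |η| ≤ 1 / 2 := abs_le.2 hη
    have e1 : ∀ t, ∫⁻ ξ in I, hh U (t + ξ) η = ∫⁻ s, I.indicator (fun _ => (1 : ℝ≥0∞)) (s - t) * hh U s η := by
      intro t
      rw [← lintegral_indicator measurableSet_Icc,
        ← lintegral_sub_right_eq_self (fun ξ => I.indicator (fun ξ => hh U (t + ξ) η) ξ) t]
      refine lintegral_congr fun s => ?_
      by_cases hs : s - t ∈ I
      · rw [indicator_of_mem hs, indicator_of_mem hs, one_mul]; congr 1; ring
      · rw [indicator_of_notMem hs, indicator_of_notMem hs, zero_mul]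
    have hmη : Measurable fun s => hh U s η := hm.comp (by fun_prop : Measurable fun s : ℝ => (s, η))
    have hind : Measurable fun p : ℝ × ℝ => I.indicator (fun _ => (1 : ℝ≥0∞)) (p.2 - p.1) :=
      (measurable_const.indicator measurableSet_Icc).comp (by fun_prop)
    have e2 : ∫⁻ t in E, q t * ∫⁻ ξ in I, hh U (t + ξ) η =
        ∫⁻ s, ∫⁻ t in E, q t * (I.indicator (fun _ => (1 : ℝ≥0∞)) (s - t) * hh U s η) := by
      rw [← lintegral_lintegral_swap]
      · refine lintegral_congr fun t => ?_
        have hmt : Measurable fun s => I.indicator (fun _ => (1 : ℝ≥0∞)) (s - t) * hh U s η :=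
          ((measurable_const.indicator measurableSet_Icc).comp
            (by fun_prop : Measurable fun s : ℝ => s - t)).mul hmη
        rw [e1, lintegral_const_mul _ hmt]
      · refine (Measurable.mul (hqm.comp measurable_fst) (hind.mul (hmη.comp measurable_snd))).aemeasurable
    rw [e2]
    have e3 : ∀ s, ENNReal.ofReal (δ / 3) * (q s * hh U s η) ≤
        ∫⁻ t in E, q t * (I.indicator (fun _ => (1 : ℝ≥0∞)) (s - t) * hh U s η) := by
      intro s
      have h1 : ∀ t ∈ E ∩ Icc (s - 1 / 2) (s - 1 / 2 + 1), ENNReal.ofReal (P Y (x - s) / 3) ≤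
          q t * I.indicator (fun _ => (1 : ℝ≥0∞)) (s - t) := by
        rintro t ⟨_, h2, h3⟩
        have h4 : s - t ∈ I := ⟨by linarith, by linarith⟩
        rw [indicator_of_mem h4, mul_one]
        refine ENNReal.ofReal_le_ofReal (K2 hY ?_)
        rw [abs_le]; constructor <;> linarith
      calc ENNReal.ofReal (δ / 3) * (q s * hh U s η)
          = (ENNReal.ofReal (P Y (x - s) / 3) * ENNReal.ofReal δ) * hh U s η := by
            rw [← mul_assoc]
            simp only [hq]
            rw [← ENNReal.ofReal_mul (by positivity), ← ENNReal.ofReal_mul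
              (by have := (P_pos hY0 (x - s)).le; positivity)]
            congr 2; ring
        _ ≤ (∫⁻ t in E, q t * I.indicator (fun _ => (1 : ℝ≥0∞)) (s - t)) * hh U s η := by
            gcongr
            calc ENNReal.ofReal (P Y (x - s) / 3) * ENNReal.ofReal δ
                ≤ ENNReal.ofReal (P Y (x - s) / 3) * volume (E ∩ Icc (s - 1 / 2) (s - 1 / 2 + 1)) := by
                  gcongr; exact hE.dens _
              _ = ∫⁻ t in E ∩ Icc (s - 1 / 2) (s - 1 / 2 + 1), ENNReal.ofReal (P Y (x - s) / 3) := by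
                  rw [setLIntegral_const]
              _ ≤ ∫⁻ t in E ∩ Icc (s - 1 / 2) (s - 1 / 2 + 1),
                    q t * I.indicator (fun _ => (1 : ℝ≥0∞)) (s - t) :=
                  setLIntegral_mono' (hE.closed.measurableSet.inter measurableSet_Icc) h1
              _ ≤ _ := lintegral_mono_set inter_subset_left
        _ = _ := by
            have hmt : Measurable fun t => q t * I.indicator (fun _ => (1 : ℝ≥0∞)) (s - t) :=
              hqm.mul ((measurable_const.indicator measurableSet_Icc).comp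
                (by fun_prop : Measurable fun t : ℝ => s - t))
            rw [← lintegral_mul_const _ hmt]
            refine lintegral_congr fun t => ?_
            rw [mul_assoc]
    refine le_trans ?_ (lintegral_mono e3)
    have hmq : Measurable fun s => q s * hh U s η := hqm.mul hmη
    rw [lintegral_const_mul _ hmq]
    have e4 := F0 h hY0 x 0 η
    simp only [add_zero] at e4
    have e5 : ∫⁻ s, q s * hh U s η = ENNReal.ofReal (|η| + mm U (Y + |η|) x) := e4
    rw [e5, ← ENNReal.ofReal_mul (by positivity)]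
    refine ENNReal.ofReal_le_ofReal ?_
    have h6 := le_mm h hY (abs_nonneg η) hη' x
    have h7 := abs_nonneg η
    calc 2 * δ / 9 * mm U Y x = δ / 3 * (2 / 3 * mm U Y x) := by ring
      _ ≤ δ / 3 * (|η| + mm U (Y + |η|) x) := by gcongr; linarith
  have hvI : volume I = 1 := by
    rw [hI, Real.volume_Icc]; norm_num
  calc ENNReal.ofReal (2 * δ / 9 * mm U Y x)
      = ∫⁻ η in I, ENNReal.ofReal (2 * δ / 9 * mm U Y x) := by
        rw [setLIntegral_const, hvI, mul_one]
    _ ≤ ∫⁻ η in I, ∫⁻ t in E, q t * ∫⁻ ξ in I, hh U (t + ξ) η :=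
        setLIntegral_mono' measurableSet_Icc inner
    _ = ∫⁻ t in E, ∫⁻ η in I, q t * ∫⁻ ξ in I, hh U (t + ξ) η := by
        rw [lintegral_lintegral_swap]
        have h1 : Measurable fun p : ℝ × ℝ => ∫⁻ ξ in I, hh U (p.2 + ξ) p.1 := by
          refine Measurable.lintegral_prod_right' (f := fun r : (ℝ × ℝ) × ℝ => hh U (r.1.2 + r.2) r.1.1) ?_
          exact hm.comp (by fun_prop : Measurable fun r : (ℝ × ℝ) × ℝ => (r.1.2 + r.2, r.1.1))
        exact ((hqm.comp measurable_snd).mul h1).aemeasurable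
    _ = ∫⁻ t in E, q t * ∫⁻ η in I, ∫⁻ ξ in I, hh U (t + ξ) η := by
        refine lintegral_congr fun t => ?_
        rw [lintegral_const_mul]
        refine Measurable.lintegral_prod_right' (f := fun r : ℝ × ℝ => hh U (t + r.2) r.1) ?_
        exact hm.comp (by fun_prop : Measurable fun r : ℝ × ℝ => (t + r.2, r.1))
    _ ≤ ∫⁻ t in E, q t * ∫⁻ p in D, hh U (t + p.1) p.2 := by
        refine lintegral_mono fun t => mul_le_mul_right ?_ _
        refine le_trans (le_of_eq ?_) (lintegral_mono_set hsub)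
        have h1 : Measurable fun p : ℝ × ℝ => hh U (t + p.1) p.2 :=
          hm.comp (by fun_prop : Measurable fun r : ℝ × ℝ => (t + r.1, r.2))
        rw [Measure.volume_eq_prod, ← Measure.prod_restrict, lintegral_prod_symm _ h1.aemeasurable]

/-- the key inequality: the Poisson integral is bounded -/
theorem mm_bound (h : IsU E U) {δ : ℝ} (hE : Dense 1 δ E) (hδ : 0 < δ) (hδ1 : δ ≤ 1) (x : ℝ) :
    mm U (45 * Real.pi / δ) x ≤ 9 * Real.pi / δ := by
  have hpi := Real.pi_pos
  have hpi3 := Real.pi_gt_three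
  set Y := 45 * Real.pi / δ with hYd
  have hY : 2 ≤ Y := by
    rw [hYd, le_div_iff₀ hδ]; nlinarith
  have hY0 : 0 < Y := by linarith
  set a := mm U Y x with ha
  have ha0 : 0 ≤ a := mm_nonneg h hY0 x
  set q : ℝ → ℝ≥0∞ := fun t => ENNReal.ofReal (P Y (x - t)) with hq
  have hqm : Measurable q := by
    have : Measurable fun t : ℝ => P Y (x - t) := by unfold P; fun_prop
    exact this.ennreal_ofReal
  have hm := hh_meas h
  set T : ℝ → ℝ≥0∞ := fun t => ∫⁻ p in D, hh U (t + p.1) p.2 with hT
  have hTm : Measurable T := by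
    refine Measurable.lintegral_prod_right' (f := fun r : ℝ × (ℝ × ℝ) => hh U (r.1 + r.2.1) r.2.2) ?_
    exact hm.comp (by fun_prop : Measurable fun r : ℝ × (ℝ × ℝ) => (r.1 + r.2.1, r.2.2))
  have hEm : MeasurableSet E := hE.closed.measurableSet
  -- total
  have tot : ∫⁻ t, q t * T t ≤ ENNReal.ofReal (Real.pi * (1 + (1 + 5 / Y) * a)) := by
    have e1 : ∫⁻ t, q t * T t = ∫⁻ p in D, ∫⁻ t, q t * hh U (t + p.1) p.2 := by
      rw [← lintegral_lintegral_swap]
      · refine lintegral_congr fun t => ?_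
        rw [lintegral_const_mul]
        exact hm.comp (by fun_prop : Measurable fun r : ℝ × ℝ => (t + r.1, r.2))
      · exact ((hqm.comp measurable_fst).mul
          (hm.comp (by fun_prop : Measurable fun r : ℝ × (ℝ × ℝ) => (r.1 + r.2.1, r.2.2)))).aemeasurable
    rw [e1]
    calc ∫⁻ p in D, ∫⁻ t, q t * hh U (t + p.1) p.2
        ≤ ∫⁻ p in D, ENNReal.ofReal (1 + (1 + 5 / Y) * a) := by
          refine setLIntegral_mono' isOpen_D.measurableSet fun p hp => ?_
          have hp' : p.1 ^ 2 + p.2 ^ 2 < 1 := hp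
          have h1 : |p.1| ≤ 1 := abs_le_one_iff_mul_self_le_one.2 (by nlinarith)
          have h2 : |p.2| ≤ 1 := abs_le_one_iff_mul_self_le_one.2 (by nlinarith)
          have e2 := F0 h hY0 x p.1 p.2
          have e3 : ∫⁻ t, q t * hh U (t + p.1) p.2 =
            ENNReal.ofReal (|p.2| + mm U (Y + |p.2|) (x + p.1)) := e2
          rw [e3]
          refine ENNReal.ofReal_le_ofReal ?_
          have := mm_le h hY (abs_nonneg p.2) h2 h1 x
          linarith
      _ = _ := by
          rw [setLIntegral_const, volume_D, ← ENNReal.ofReal_mul (by positivity), mul_comm]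
  -- the part off E
  have off : ENNReal.ofReal (Real.pi * a) ≤ ∫⁻ t in Eᶜ, q t * T t := by
    have hb := (h.base hY0 x).1
    have e1 : ENNReal.ofReal (Real.pi * a) = ∫⁻ t : ℝ, ENNReal.ofReal (Real.pi * (P Y (x - t) * U t)) := by
      rw [ha, mm, ← integral_const_mul, ofReal_integral_eq_lintegral_ofReal (hb.const_mul _)]
      exact Eventually.of_forall fun t =>
        mul_nonneg hpi.le (mul_nonneg (P_pos hY0 _).le (h.nonneg _))
    rw [e1, ← lintegral_add_compl _ hEm]
    have e2 : ∫⁻ t : ℝ in E, ENNReal.ofReal (Real.pi * (P Y (x - t) * U t)) = 0 := by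
      rw [setLIntegral_congr_fun (g := fun _ => 0) hEm fun t ht => by simp [h.zero t ht]]
      simp
    rw [e2, zero_add]
    refine lintegral_mono fun t => ?_
    have e3 : Real.pi * (P Y (x - t) * U t) = P Y (x - t) * (Real.pi * U t) := by ring
    show ENNReal.ofReal (Real.pi * (P Y (x - t) * U t)) ≤ q t * T t
    rw [e3, ENNReal.ofReal_mul (P_pos hY0 _).le]
    refine mul_le_mul_right ?_ _
    refine (area_sub h.cont h.nonneg h.sub t).trans (le_of_eq ?_)
    refine lintegral_congr fun p => ?_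
    simp only [hh]
    congr 3; push_cast; ring
  have onE := lower_E h hE hδ.le (by linarith : 1 ≤ Y) x
  have hsum : ENNReal.ofReal (2 * δ / 9 * a) + ENNReal.ofReal (Real.pi * a) ≤
      ENNReal.ofReal (Real.pi * (1 + (1 + 5 / Y) * a)) := by
    refine (add_le_add onE off).trans ?_
    have : (∫⁻ t in E, q t * T t) + ∫⁻ t in Eᶜ, q t * T t = ∫⁻ t, q t * T t := lintegral_add_compl _ hEm
    exact this.le.trans tot
  rw [← ENNReal.ofReal_add (by positivity) (by positivity),
    ENNReal.ofReal_le_ofReal_iff (by positivity)] at hsum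
  have h5 : Real.pi * (5 / Y) = δ / 9 := by
    rw [hYd]; field_simp; norm_num
  have h6 : δ / 9 * a ≤ Real.pi := by nlinarith
  rw [le_div_iff₀ hδ]
  linarith

end

end Pool.Agent.W773.RD
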