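import Pool.Agent.W773.RD.Bounded2

set_option autoImplicit false

open Filter Metric Set Topology MeasureTheory InnerProductSpace
open scoped ComplexConjugate ENNReal

namespace Pool.Agent.W773.RD

section
variable {E : Set ℝ} {U : ℂ → ℝ}

/-- boundedness on the real line -/
theorem IsU.bdd (h : IsU E U) {δ : ℝ} (hE : Dense 1 δ E) (hδ : 0 < δ) (hδ1 : δ ≤ 1) :
    ∃ C : ℝ, 0 ≤ C ∧ ∀ x : ℝ, U x ≤ C := by
  have hpi := Real.pi_pos
  have hpi3 := Real.pi_gt_three
  set Y := 45 * Real.pi / δ with hYd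
  have hY : 2 ≤ Y := by
    rw [hYd, le_div_iff₀ hδ]; nlinarith
  have hY0 : 0 < Y := by linarith
  set κ := Y / (Real.pi * (1 + Y ^ 2)) with hκ
  have hκ0 : 0 < κ := by positivity
  set B := 1 + (1 + 5 / Y) * (9 * Real.pi / δ) with hB
  have hB0 : 0 < B := by positivity
  have hm := hh_meas h
  refine ⟨2 * (B / κ) / Real.pi, by positivity, fun x => ?_⟩
  set J : Set ℝ := Icc (-1) 1 with hJ
  have hvJ : volume J = ENNReal.ofReal 2 := by rw [hJ, Real.volume_Icc]; norm_num
  have inner : ∀ η ∈ J, ∫⁻ ξ in J, hh U (x + ξ) η ≤ ENNReal.ofReal (B / κ) := by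
    intro η hη
    have hη' : |η| ≤ 1 := abs_le.2 hη
    have e1 := F0 h hY0 0 x η
    have h2 : ENNReal.ofReal (|η| + mm U (Y + |η|) (0 + x)) ≤ ENNReal.ofReal B := by
      refine ENNReal.ofReal_le_ofReal ?_
      have h3 := mm_le h hY (abs_nonneg η) hη' (by simp : |(0 : ℝ)| ≤ 1) x
      have h4 := mm_bound h hE hδ hδ1 x
      rw [add_zero] at h3
      rw [zero_add, hB]
      have h5 : (1 + 5 / Y) * mm U Y x ≤ (1 + 5 / Y) * (9 * Real.pi / δ) := by gcongr
      linarith
    have h3 : ENNReal.ofReal κ * ∫⁻ ξ in J, hh U (x + ξ) η ≤ ENNReal.ofReal B := by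
      refine le_trans ?_ (e1.le.trans h2)
      have hmη : Measurable fun ξ => hh U (x + ξ) η :=
        hm.comp (by fun_prop : Measurable fun s : ℝ => (x + s, η))
      rw [← lintegral_const_mul _ hmη]
      refine le_trans (setLIntegral_mono' measurableSet_Icc fun t ht => ?_)
        (setLIntegral_le_lintegral J _)
      have e2 : hh U (x + t) η = ENNReal.ofReal (U ((t + x : ℝ) + η * Complex.I)) := by
        simp only [hh]; congr 3; push_cast; ring
      rw [e2]
      refine mul_le_mul_left (ENNReal.ofReal_le_ofReal ?_) _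
      rw [hκ, P]
      have : (0 - t) ^ 2 ≤ 1 := by nlinarith [ht.1, ht.2]
      gcongr
    have h4 : ENNReal.ofReal (B / κ) = (ENNReal.ofReal κ)⁻¹ * ENNReal.ofReal B := by
      rw [← ENNReal.ofReal_inv_of_pos hκ0, ← ENNReal.ofReal_mul (by positivity)]
      congr 1; field_simp
    rw [h4]
    have h5 : ENNReal.ofReal κ ≠ 0 := (ENNReal.ofReal_pos.2 hκ0).ne'
    rw [mul_comm, ← div_eq_mul_inv, ENNReal.le_div_iff_mul_le (Or.inl h5) (Or.inl ENNReal.ofReal_ne_top), mul_comm]
    exact h3
  have key : ENNReal.ofReal (Real.pi * U x) ≤ ENNReal.ofReal (2 * (B / κ)) := by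
    refine (area_sub h.cont h.nonneg h.sub x).trans ?_
    have hsub : D ⊆ J ×ˢ J := by
      rintro ⟨a, b⟩ hp
      have hp' : a ^ 2 + b ^ 2 < 1 := hp
      exact ⟨abs_le.1 (abs_le_one_iff_mul_self_le_one.2 (by nlinarith)),
        abs_le.1 (abs_le_one_iff_mul_self_le_one.2 (by nlinarith))⟩
    refine (lintegral_mono_set hsub).trans ?_
    have h1 : Measurable fun p : ℝ × ℝ => ENNReal.ofReal (U (x + p.1 + p.2 * Complex.I)) :=
      (h.cont.comp (by fun_prop)).measurable.ennreal_ofReal
    rw [Measure.volume_eq_prod, ← Measure.prod_restrict, lintegral_prod_symm _ h1.aemeasurable]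
    calc ∫⁻ η in J, ∫⁻ ξ in J, ENNReal.ofReal (U (x + ξ + η * Complex.I))
        ≤ ∫⁻ η in J, ENNReal.ofReal (B / κ) := by
          refine setLIntegral_mono' measurableSet_Icc fun η hη => ?_
          have := inner η hη
          simp only [hh] at this
          push_cast at this
          exact this
      _ = _ := by
          rw [setLIntegral_const, hvJ, ← ENNReal.ofReal_mul (by positivity), mul_comm]
  rw [ENNReal.ofReal_le_ofReal_iff (by positivity)] at key
  rw [le_div_iff₀ hpi]; linarith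

/-- upper bound in the plane -/
lemma IsU.le_abs (h : IsU E U) {C : ℝ} (hC : ∀ x : ℝ, U x ≤ C) (x y : ℝ) :
    U (x + y * Complex.I) ≤ |y| + C := by
  rw [h.symm_abs]
  rcases eq_or_lt_of_le (abs_nonneg y) with hy | hy
  · rw [← hy]; simpa using hC x
  · rw [h.eq_mm hy, mm]
    have h1 : ∫ t : ℝ, P |y| (x - t) * U t ≤ ∫ t : ℝ, P |y| (x - t) * C :=
      integral_mono (h.base hy x).1 ((P_int hy x).1.mul_const _) fun t =>
        mul_le_mul_of_nonneg_left (hC t) (P_pos hy _).le
    rw [integral_mul_const, (P_int hy x).2, one_mul] at h1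
    linarith

lemma IsU.ge_abs (h : IsU E U) (x y : ℝ) : |y| ≤ U (x + y * Complex.I) := by
  rw [h.symm_abs]
  rcases eq_or_lt_of_le (abs_nonneg y) with hy | hy
  · rw [← hy]; exact h.nonneg _
  · rw [h.eq_mm hy]
    linarith [mm_nonneg h hy x]

/-- windows at height `y` -/
lemma IsU.window (h : IsU E U) {Φ : ℝ} (hΦ : ∀ x : ℝ, ∫ t in x..(x + 1), U t ≤ Φ) (x y : ℝ) :
    ∫ t in x..(x + 1), U ((t : ℝ) + y * Complex.I) ≤ |y| + Φ := by
  have e0 : ∫ t in x..(x + 1), U ((t : ℝ) + y * Complex.I) =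
      ∫ t in x..(x + 1), U ((t : ℝ) + (|y| : ℝ) * Complex.I) :=
    intervalIntegral.integral_congr fun t _ => h.symm_abs t y
  rw [e0]
  rcases eq_or_lt_of_le (abs_nonneg y) with hy | hy
  · rw [← hy]; simpa using hΦ x
  have hxx : x ≤ x + 1 := by linarith
  have hUc : Continuous fun t : ℝ => U (t : ℂ) := h.cont.comp Complex.continuous_ofReal
  have hΦ0 : 0 ≤ Φ := le_trans (intervalIntegral.integral_nonneg (by linarith : (0 : ℝ) ≤ 0 + 1)
    fun t _ => h.nonneg _) (hΦ 0)
  have hcy : Continuous fun t : ℝ => U (t + (|y| : ℝ) * Complex.I) := h.cont.comp (by fun_prop)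
  have hwin : ∀ s : ℝ, ∫⁻ t in Ioc x (x + 1), ENNReal.ofReal (U ((t - s : ℝ) : ℂ)) ≤ ENNReal.ofReal Φ := by
    intro s
    have h1 : ∫ t in x..(x + 1), U ((t - s : ℝ) : ℂ) ≤ Φ := by
      rw [intervalIntegral.integral_comp_sub_right (fun t : ℝ => U (t : ℂ))]
      have := hΦ (x - s)
      rwa [show x - s + 1 = x + 1 - s by ring] at this
    rw [intervalIntegral.integral_of_le hxx] at h1
    have hcs : Continuous fun t : ℝ => U ((t - s : ℝ) : ℂ) :=
      hUc.comp (by fun_prop : Continuous fun t : ℝ => t - s)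
    rw [← ofReal_integral_eq_lintegral_ofReal
      ((intervalIntegrable_iff_integrableOn_Ioc_of_le hxx).1 (hcs.intervalIntegrable _ _))
      (Eventually.of_forall fun _ => h.nonneg _)]
    exact ENNReal.ofReal_le_ofReal h1
  have hPm : Measurable fun s : ℝ => ENNReal.ofReal (P |y| s) := by
    have : Measurable fun t : ℝ => P |y| t := by unfold P; fun_prop
    exact this.ennreal_ofReal
  have hconv : ∀ t : ℝ, ENNReal.ofReal (mm U |y| t) =
      ∫⁻ s : ℝ, ENNReal.ofReal (P |y| s) * ENNReal.ofReal (U ((t - s : ℝ) : ℂ)) := by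
    intro t
    rw [mm, ofReal_integral_eq_lintegral_ofReal (h.base hy t).1
      (Eventually.of_forall fun s => mul_nonneg (P_pos hy _).le (h.nonneg _)),
      ← lintegral_sub_left_eq_self _ t]
    refine lintegral_congr fun s => ?_
    rw [ENNReal.ofReal_mul (P_pos hy _).le, sub_sub_cancel]
  have hmmI : ∫⁻ t in Ioc x (x + 1), ENNReal.ofReal (mm U |y| t) ≤ ENNReal.ofReal Φ := by
    simp_rw [hconv]
    rw [lintegral_lintegral_swap]
    · calc ∫⁻ s : ℝ, ∫⁻ t in Ioc x (x + 1), ENNReal.ofReal (P |y| s) * ENNReal.ofReal (U ((t - s : ℝ) : ℂ))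
          = ∫⁻ s : ℝ, ENNReal.ofReal (P |y| s) * ∫⁻ t in Ioc x (x + 1), ENNReal.ofReal (U ((t - s : ℝ) : ℂ)) := by
            refine lintegral_congr fun s => ?_
            rw [lintegral_const_mul]
            exact (hUc.comp (by fun_prop : Continuous fun t : ℝ => t - s)).measurable.ennreal_ofReal
        _ ≤ ∫⁻ s : ℝ, ENNReal.ofReal (P |y| s) * ENNReal.ofReal Φ :=
            lintegral_mono fun s => mul_le_mul_right (hwin s) _
        _ = ENNReal.ofReal Φ := by
            rw [lintegral_mul_const _ hPm]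
            have h2 := P_int hy 0
            have h3 : ∫⁻ s : ℝ, ENNReal.ofReal (P |y| s) = 1 := by
              rw [← lintegral_sub_left_eq_self _ 0, ← ofReal_integral_eq_lintegral_ofReal h2.1
                (Eventually.of_forall fun s => (P_pos hy _).le), h2.2, ENNReal.ofReal_one]
            rw [h3, one_mul]
    · refine ((hPm.comp measurable_snd).mul ?_).aemeasurable
      exact (hUc.comp (by fun_prop : Continuous fun p : ℝ × ℝ => p.1 - p.2)).measurable.ennreal_ofReal
  have hsum : ENNReal.ofReal (∫ t in x..(x + 1), U (t + (|y| : ℝ) * Complex.I)) ≤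
      ENNReal.ofReal (|y| + Φ) := by
    rw [intervalIntegral.integral_of_le hxx, ofReal_integral_eq_lintegral_ofReal
      ((intervalIntegrable_iff_integrableOn_Ioc_of_le hxx).1 (hcy.intervalIntegrable _ _))
      (Eventually.of_forall fun _ => h.nonneg _)]
    have e1 : ∀ t : ℝ, ENNReal.ofReal (U (t + (|y| : ℝ) * Complex.I)) =
        ENNReal.ofReal |y| + ENNReal.ofReal (mm U |y| t) := by
      intro t
      rw [h.eq_mm hy, ENNReal.ofReal_add hy.le (mm_nonneg h hy t)]
    simp_rw [e1]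
    rw [lintegral_add_left measurable_const, setLIntegral_const, Real.volume_Ioc,
      ENNReal.ofReal_add hy.le hΦ0]
    have e2 : x + 1 - x = 1 := by ring
    rw [e2, ENNReal.ofReal_one, mul_one]
    gcongr
  exact (ENNReal.ofReal_le_ofReal_iff (by positivity)).1 hsum

end

end Pool.Agent.W773.RD
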