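import Pool.Agent.W773.RD.Bounded3

set_option autoImplicit false

open Filter Metric Set Topology MeasureTheory InnerProductSpace
open scoped ComplexConjugate ENNReal

namespace Pool.Agent.W773.RD

/-- half the sum of the distances to `±1` -/
noncomputable def AA (w : ℂ) : ℝ := (‖w + 1‖ + ‖w - 1‖) / 2

/-- Green function of the complement of `[-1,1]` with pole at infinity -/
noncomputable def LL (w : ℂ) : ℝ := Real.log (AA w + √(AA w ^ 2 - 1))

/-- the segment `[-1,1]` -/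
def seg : Set ℂ := {w | w.im = 0 ∧ |w.re| ≤ 1}

lemma isClosed_seg : IsClosed seg :=
  (isClosed_eq Complex.continuous_im continuous_const).inter
    (isClosed_le Complex.continuous_re.abs continuous_const)

lemma one_le_AA (w : ℂ) : 1 ≤ AA w := by
  have h : ‖(w + 1) - (w - 1)‖ ≤ ‖w + 1‖ + ‖w - 1‖ := norm_sub_le _ _
  have e : (w + 1) - (w - 1) = 2 := by ring
  rw [e] at h
  simp only [Complex.norm_ofNat] at h
  unfold AA; linarith

lemma continuous_AA : Continuous AA := by unfold AA; fun_prop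

lemma continuous_LL : Continuous LL := by
  unfold LL
  refine Continuous.log ?_ fun w => ?_
  · have := continuous_AA
    fun_prop
  · have := one_le_AA w
    have := Real.sqrt_nonneg (AA w ^ 2 - 1)
    linarith

lemma LL_nonneg (w : ℂ) : 0 ≤ LL w := by
  refine Real.log_nonneg ?_
  have := one_le_AA w
  have := Real.sqrt_nonneg (AA w ^ 2 - 1)
  linarith

lemma LL_zero {w : ℂ} (hw : w ∈ seg) : LL w = 0 := by
  obtain ⟨h1, h2⟩ := hw
  have e : w = (w.re : ℂ) := Complex.ext (by simp) (by simp [h1])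
  have hA : AA w = 1 := by
    rw [e, AA]
    have h3 := abs_le.1 h2
    have e1 : ((w.re : ℂ) + 1) = ((w.re + 1 : ℝ) : ℂ) := by push_cast; ring
    have e2 : ((w.re : ℂ) - 1) = ((w.re - 1 : ℝ) : ℂ) := by push_cast; ring
    rw [e1, e2, Complex.norm_real, Complex.norm_real, Real.norm_eq_abs, Real.norm_eq_abs,
      abs_of_nonneg (by linarith), abs_of_nonpos (by linarith)]
    ring
  rw [LL, hA]; simp

/-- principal square root -/
noncomputable def Sq (ω : ℂ) : ℂ := Complex.exp (Complex.log ω / 2)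

lemma Sq_sq {ω : ℂ} (h : ω ≠ 0) : Sq ω ^ 2 = ω := by
  rw [Sq, ← Complex.exp_nat_mul]
  have : ((2 : ℕ) : ℂ) * (Complex.log ω / 2) = Complex.log ω := by push_cast; ring
  rw [this, Complex.exp_log h]

lemma Sq_re_pos {ω : ℂ} (h : ω ∈ Complex.slitPlane) : 0 < (Sq ω).re := by
  rw [Sq, Complex.exp_re]
  refine mul_pos (Real.exp_pos _) (Real.cos_pos_of_mem_Ioo ?_)
  have h1 : (Complex.log ω / 2).im = Complex.arg ω / 2 := by
    rw [show Complex.log ω / 2 = Complex.log ω / ((2 : ℝ) : ℂ) by push_cast; rfl,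
      Complex.div_ofReal_im, Complex.log_im]
  rw [h1]
  have h2 := Complex.mem_slitPlane_iff_arg.1 h
  have h3 := Complex.neg_pi_lt_arg ω
  have h4 := lt_of_le_of_ne (Complex.arg_le_pi ω) h2.1
  constructor <;> linarith

lemma analyticAt_Sq {ω : ℂ} (h : ω ∈ Complex.slitPlane) : AnalyticAt ℂ Sq ω := by
  unfold Sq
  exact ((analyticAt_clog h).div_const).cexp'

/-- the Joukowski inverse -/
noncomputable def JJ (w : ℂ) : ℂ := w * (1 + Sq (1 - (w ^ 2)⁻¹))

lemma slit_of_notMem {w : ℂ} (hw : w ∉ seg) : w ≠ 0 ∧ 1 - (w ^ 2)⁻¹ ∈ Complex.slitPlane := by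
  have h0 : w ≠ 0 := by
    rintro rfl
    exact hw ⟨by simp, by simp⟩
  refine ⟨h0, ?_⟩
  by_contra hcon
  rw [Complex.mem_slitPlane_iff, not_or, not_lt, not_not] at hcon
  obtain ⟨h1, h2⟩ := hcon
  set r : ℝ := 1 - (1 - (w ^ 2)⁻¹).re with hr
  have hr1 : 1 ≤ r := by linarith
  have e1 : (w ^ 2)⁻¹ = (r : ℂ) := by
    apply Complex.ext
    · rw [hr, Complex.sub_re, Complex.one_re, Complex.ofReal_re]; ring
    · rw [Complex.sub_im] at h2
      simp only [Complex.one_im, zero_sub, neg_eq_zero] at h2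
      simp [h2]
  have e2 : w ^ 2 = ((r⁻¹ : ℝ) : ℂ) := by
    rw [Complex.ofReal_inv, ← e1, inv_inv]
  have h3 : w.re * w.re - w.im * w.im = r⁻¹ := by
    have := congrArg Complex.re e2
    rw [sq, Complex.mul_re, Complex.ofReal_re] at this
    exact this
  have h4 : w.re * w.im = 0 := by
    have := congrArg Complex.im e2
    rw [sq, Complex.mul_im, Complex.ofReal_im] at this
    linarith
  have h5 : 0 < r⁻¹ := by positivity
  have h6 : r⁻¹ ≤ 1 := inv_le_one_of_one_le₀ hr1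
  rcases mul_eq_zero.1 h4 with h7 | h7
  · rw [h7] at h3; nlinarith [mul_self_nonneg w.im]
  · refine hw ⟨h7, ?_⟩
    rw [h7] at h3
    exact abs_le_one_iff_mul_self_le_one.2 (by linarith)

lemma JJ_norm {w : ℂ} (hw : w ∉ seg) : 1 < ‖JJ w‖ ∧ AA w = (‖JJ w‖ + ‖JJ w‖⁻¹) / 2 := by
  obtain ⟨h0, h1⟩ := slit_of_notMem hw
  set s := Sq (1 - (w ^ 2)⁻¹) with hs
  have hs2 : s ^ 2 = 1 - (w ^ 2)⁻¹ := Sq_sq (Complex.slitPlane_ne_zero h1)
  have hre : 0 < s.re := Sq_re_pos h1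
  have hw2 : w ^ 2 ≠ 0 := pow_ne_zero 2 h0
  have e1 : w ^ 2 * (1 - s ^ 2) = 1 := by rw [hs2]; field_simp; ring
  have hJ : JJ w = w * (1 + s) := rfl
  have e2 : JJ w * (w * (1 - s)) = 1 := by
    rw [hJ]
    calc w * (1 + s) * (w * (1 - s)) = w ^ 2 * (1 - s ^ 2) := by ring
      _ = 1 := e1
  have hJ0 : JJ w ≠ 0 := left_ne_zero_of_mul_eq_one e2
  have e3 : (JJ w)⁻¹ = w * (1 - s) := by
    rw [inv_eq_of_mul_eq_one_right e2]
  have h2 : ‖(1 : ℂ) - s‖ < ‖(1 : ℂ) + s‖ := by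
    refine lt_of_pow_lt_pow_left₀ 2 (norm_nonneg _) ?_
    rw [← Complex.normSq_eq_norm_sq, ← Complex.normSq_eq_norm_sq, Complex.normSq_apply,
      Complex.normSq_apply]
    simp only [Complex.sub_re, Complex.one_re, Complex.sub_im, Complex.one_im, Complex.add_re,
      Complex.add_im]
    nlinarith
  have h3 : ‖JJ w‖⁻¹ < ‖JJ w‖ := by
    rw [← norm_inv, e3, hJ, norm_mul, norm_mul]
    exact mul_lt_mul_of_pos_left h2 (norm_pos_iff.2 h0)
  have hJp : 0 < ‖JJ w‖ := norm_pos_iff.2 hJ0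
  have h4 : 1 < ‖JJ w‖ := by
    by_contra hcon
    have h5 : 1 ≤ ‖JJ w‖⁻¹ := (one_le_inv₀ hJp).2 (not_lt.1 hcon)
    linarith
  refine ⟨h4, ?_⟩
  have e4 : w + 1 = (JJ w + 1) ^ 2 / (2 * JJ w) := by
    rw [eq_div_iff (by simpa using hJ0)]
    have : 2 * w = JJ w + (JJ w)⁻¹ := by rw [e3, hJ]; ring
    have h6 : 2 * w * JJ w = JJ w ^ 2 + 1 := by rw [this]; field_simp
    linear_combination h6
  have e5 : w - 1 = (JJ w - 1) ^ 2 / (2 * JJ w) := by
    rw [eq_div_iff (by simpa using hJ0)]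
    have : 2 * w = JJ w + (JJ w)⁻¹ := by rw [e3, hJ]; ring
    have h6 : 2 * w * JJ w = JJ w ^ 2 + 1 := by rw [this]; field_simp
    linear_combination h6
  have e6 : ‖JJ w + 1‖ ^ 2 + ‖JJ w - 1‖ ^ 2 = 2 * ‖JJ w‖ ^ 2 + 2 := by
    rw [← Complex.normSq_eq_norm_sq, ← Complex.normSq_eq_norm_sq, ← Complex.normSq_eq_norm_sq,
      Complex.normSq_apply, Complex.normSq_apply, Complex.normSq_apply]
    simp only [Complex.sub_re, Complex.one_re, Complex.sub_im, Complex.one_im, Complex.add_re,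
      Complex.add_im]
    ring
  rw [AA, e4, e5, norm_div, norm_div, norm_pow, norm_pow, norm_mul, Complex.norm_ofNat,
    ← add_div, e6]
  field_simp

lemma LL_eq {w : ℂ} (hw : w ∉ seg) : LL w = Real.log ‖JJ w‖ := by
  obtain ⟨h1, h2⟩ := JJ_norm hw
  have hp : 0 < ‖JJ w‖ := by linarith
  have h3 : AA w ^ 2 - 1 = ((‖JJ w‖ - ‖JJ w‖⁻¹) / 2) ^ 2 := by
    rw [h2]; field_simp; ring
  have h4 : 0 ≤ (‖JJ w‖ - ‖JJ w‖⁻¹) / 2 := by
    have : ‖JJ w‖⁻¹ ≤ 1 := inv_le_one_of_one_le₀ h1.le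
    linarith
  rw [LL, h3, Real.sqrt_sq h4, h2]
  congr 1; ring

lemma LL_pos {w : ℂ} (hw : w ∉ seg) : 0 < LL w := by
  rw [LL_eq hw]; exact Real.log_pos (JJ_norm hw).1

lemma LL_harmonicAt {w : ℂ} (hw : w ∉ seg) : HarmonicAt LL w := by
  obtain ⟨h0, h1⟩ := slit_of_notMem hw
  have hJ : AnalyticAt ℂ JJ w := by
    unfold JJ
    have h2 : AnalyticAt ℂ (fun w : ℂ => 1 - (w ^ 2)⁻¹) w :=
      analyticAt_const.sub ((analyticAt_id.pow 2).inv (pow_ne_zero 2 h0))
    have h3 : AnalyticAt ℂ (fun w : ℂ => Sq (1 - (w ^ 2)⁻¹)) w :=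
      AnalyticAt.fun_comp (f := fun w : ℂ => 1 - (w ^ 2)⁻¹) (analyticAt_Sq h1) h2
    exact analyticAt_id.mul (analyticAt_const.add h3)
  have hJ0 : JJ w ≠ 0 := by
    have := (JJ_norm hw).1
    intro h; rw [h, norm_zero] at this; linarith
  refine (harmonicAt_congr_nhds ?_).1 (hJ.harmonicAt_log_norm hJ0)
  filter_upwards [isClosed_seg.isOpen_compl.mem_nhds hw] with v hv
  exact (LL_eq hv).symm

end Pool.Agent.W773.RD
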