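import Pool.Agent.W773.RD.Comp

set_option autoImplicit false

open Filter Metric Set Topology MeasureTheory InnerProductSpace
open scoped ComplexConjugate ENNReal

namespace Pool.Agent.W773.RD

/-- the comparison function -/
noncomputable def Ut (c : ℝ) (z : ℂ) : ℝ := 1 / Real.pi * LL (Complex.cos (Real.pi * z) / c)

/-- the periodic set -/
def Et (c : ℝ) : Set ℝ := {t | |Real.cos (Real.pi * t)| ≤ c}

section
variable {c : ℝ} (hc : 0 < c) (hc1 : c < 1)

lemma cos_div_real (t : ℝ) :
    Complex.cos (Real.pi * t) / c = ((Real.cos (Real.pi * t) / c : ℝ) : ℂ) := by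
  push_cast; rfl

include hc in
lemma mem_seg_of_mem {t : ℝ} (ht : t ∈ Et c) : Complex.cos (Real.pi * t) / c ∈ seg := by
  rw [cos_div_real]
  refine ⟨by simp only [Complex.ofReal_im], ?_⟩
  rw [Complex.ofReal_re, abs_div, abs_of_pos hc, div_le_one hc]
  exact ht

include hc hc1 in
lemma mem_of_mem_seg {z : ℂ} (hz : Complex.cos (Real.pi * z) / c ∈ seg) :
    z ∈ Complex.ofReal '' Et c := by
  have hpi := Real.pi_pos
  obtain ⟨h1, h2⟩ := hz
  set w := Complex.cos (Real.pi * z) / c with hw
  have hcc : (c : ℂ) ≠ 0 := by exact_mod_cast hc.ne'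
  have e1 : w = (w.re : ℂ) := Complex.ext (by simp) (by simp [h1])
  have e2 : Complex.cos (Real.pi * z) = ((c * w.re : ℝ) : ℂ) := by
    have : Complex.cos (Real.pi * z) = c * w := by rw [hw]; field_simp
    rw [this, e1]; push_cast; simp
  have h3 : |c * w.re| ≤ c := by
    rw [abs_mul, abs_of_pos hc]; exact mul_le_of_le_one_right hc.le h2
  have h4 := abs_le.1 h3
  have e3 : Complex.cos (Real.pi * z) = Complex.cos ((Real.arccos (c * w.re) : ℝ) : ℂ) := by
    rw [e2, ← Complex.ofReal_cos, Real.cos_arccos (by linarith) (by linarith)]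
  obtain ⟨k, hk⟩ := Complex.cos_eq_cos_iff.1 e3
  have hreal : ∃ t : ℝ, z = t := by
    have hpc : (Real.pi : ℂ) ≠ 0 := by exact_mod_cast hpi.ne'
    rcases hk with hk | hk
    · refine ⟨(Real.arccos (c * w.re) - 2 * k * Real.pi) / Real.pi, ?_⟩
      push_cast
      rw [eq_div_iff hpc, hk]; ring
    · refine ⟨(2 * k * Real.pi - Real.arccos (c * w.re)) / Real.pi, ?_⟩
      push_cast
      rw [eq_div_iff hpc, hk]; ring
  obtain ⟨t, rfl⟩ := hreal
  refine ⟨t, ?_, rfl⟩
  have e4 : Real.cos (Real.pi * t) = c * w.re := by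
    have : ((Real.cos (Real.pi * t) : ℝ) : ℂ) = ((c * w.re : ℝ) : ℂ) := by
      rw [← e2]; push_cast; rfl
    exact_mod_cast this
  show |Real.cos (Real.pi * t)| ≤ c
  rw [e4]; exact h3

/-- the function in the variable `q = exp (2πiz)` -/
noncomputable def GG (c : ℝ) (q : ℂ) : ℂ := (1 + q) * (1 + Sq (1 - 4 * c ^ 2 * q / (1 + q) ^ 2))

lemma expq {z : ℂ} : Complex.cos (Real.pi * z) =
    Complex.exp (-(Complex.I * Real.pi * z)) * (1 + Complex.exp (2 * Real.pi * Complex.I * z)) / 2 := by
  rw [Complex.cos, mul_add, mul_one, ← Complex.exp_add]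
  congr 1
  rw [add_comm]
  congr 2 <;> ring

lemma one_add_ne {q : ℂ} (hq : ‖q‖ < 1) : 1 + q ≠ 0 := by
  intro h
  have : q = -1 := by linear_combination h
  rw [this] at hq; simp at hq

lemma norm_expq (z : ℂ) : ‖Complex.exp (2 * Real.pi * Complex.I * z)‖ = Real.exp (-(2 * Real.pi * z.im)) := by
  rw [Complex.norm_exp]
  congr 1
  simp [Complex.mul_re, Complex.mul_im]

lemma om_eq {z : ℂ} (hz : 0 < z.im) :
    1 - ((Complex.cos (Real.pi * z) / c) ^ 2)⁻¹ = 1 - 4 * c ^ 2 * Complex.exp (2 * Real.pi * Complex.I * z) /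
      (1 + Complex.exp (2 * Real.pi * Complex.I * z)) ^ 2 := by
  have hpi := Real.pi_pos
  have hq1 : ‖Complex.exp (2 * Real.pi * Complex.I * z)‖ < 1 := by
    rw [norm_expq, Real.exp_lt_one_iff]
    have : 0 < 2 * Real.pi * z.im := by positivity
    linarith
  have h1 := one_add_ne hq1
  have h2 := Complex.exp_ne_zero (-(Complex.I * Real.pi * z))
  have h3 : Complex.exp (2 * Real.pi * Complex.I * z) * Complex.exp (-(Complex.I * Real.pi * z)) ^ 2 = 1 := by
    rw [← Complex.exp_nat_mul, ← Complex.exp_add]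
    have : 2 * (Real.pi : ℂ) * Complex.I * z + ((2 : ℕ) : ℂ) * -(Complex.I * Real.pi * z) = 0 := by
      push_cast; ring
    rw [this, Complex.exp_zero]
  rw [expq]
  set q := Complex.exp (2 * Real.pi * Complex.I * z)
  set e := Complex.exp (-(Complex.I * Real.pi * z))
  have hq0 : q = (e ^ 2)⁻¹ := eq_inv_of_mul_eq_one_left h3
  have : ((e * (1 + q) / 2 / (c : ℂ)) ^ 2)⁻¹ = 4 * c ^ 2 * (e ^ 2)⁻¹ / (1 + q) ^ 2 := by
    rw [div_div, div_pow, inv_div, mul_pow, mul_pow]
    field_simp
    ring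
  rw [this, ← hq0]

include hc hc1 in
lemma notMem_seg_im {z : ℂ} (hz : z.im ≠ 0) : Complex.cos (Real.pi * z) / c ∉ seg := by
  intro h
  obtain ⟨t, _, rfl⟩ := mem_of_mem_seg hc hc1 h
  simp at hz

include hc hc1 in
lemma slit_q {q : ℂ} (hq : ‖q‖ < 1) : 1 - 4 * c ^ 2 * q / (1 + q) ^ 2 ∈ Complex.slitPlane := by
  have hpi := Real.pi_pos
  rcases eq_or_ne q 0 with rfl | h0
  · simp
  set z : ℂ := Complex.log q / (2 * Real.pi * Complex.I) with hz
  have hpc : (2 * Real.pi * Complex.I : ℂ) ≠ 0 := by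
    simp [hpi.ne']
  have e1 : 2 * Real.pi * Complex.I * z = Complex.log q := by rw [hz]; field_simp
  have e2 : Complex.exp (2 * Real.pi * Complex.I * z) = q := by rw [e1, Complex.exp_log h0]
  have him : 0 < z.im := by
    have h1 := norm_expq z
    rw [e2] at h1
    rw [h1, Real.exp_lt_one_iff] at hq
    by_contra hcon
    have : 2 * Real.pi * z.im ≤ 0 := mul_nonpos_of_nonneg_of_nonpos (by positivity) (not_lt.1 hcon)
    linarith
  have h2 := (slit_of_notMem (notMem_seg_im hc hc1 him.ne')).2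
  rw [om_eq him, e2] at h2
  exact h2

include hc hc1 in
lemma GG_ne {q : ℂ} (hq : ‖q‖ < 1) : GG c q ≠ 0 := by
  have h1 := Sq_re_pos (slit_q hc hc1 hq)
  refine mul_ne_zero (one_add_ne hq) fun h => ?_
  have := congrArg Complex.re h
  rw [Complex.add_re, Complex.one_re, Complex.zero_re] at this
  linarith

include hc hc1 in
lemma GG_an {q : ℂ} (hq : ‖q‖ < 1) : AnalyticAt ℂ (GG c) q := by
  unfold GG
  have h2 : AnalyticAt ℂ (fun q : ℂ => 1 - 4 * c ^ 2 * q / (1 + q) ^ 2) q := by
    refine analyticAt_const.sub ((analyticAt_const.mul analyticAt_id).div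
      ((analyticAt_const.add analyticAt_id).pow 2) (pow_ne_zero 2 (one_add_ne hq)))
  have h3 : AnalyticAt ℂ (fun q : ℂ => Sq (1 - 4 * c ^ 2 * q / (1 + q) ^ 2)) q :=
    AnalyticAt.fun_comp (f := fun q : ℂ => 1 - 4 * c ^ 2 * q / (1 + q) ^ 2)
      (analyticAt_Sq (slit_q hc hc1 hq)) h2
  exact (analyticAt_const.add analyticAt_id).mul (analyticAt_const.add h3)

lemma GG_zero : GG c 0 = 2 := by
  simp [GG, Sq]; norm_num

include hc hc1 in
lemma Ut_eq {z : ℂ} (hz : 0 < z.im) :
    Ut c z = z.im - 1 / Real.pi * Real.log (2 * c) +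
      1 / Real.pi * Real.log ‖GG c (Complex.exp (2 * Real.pi * Complex.I * z))‖ := by
  have hpi := Real.pi_pos
  have hq1 : ‖Complex.exp (2 * Real.pi * Complex.I * z)‖ < 1 := by
    rw [norm_expq, Real.exp_lt_one_iff]
    have : 0 < 2 * Real.pi * z.im := by positivity
    linarith
  rw [Ut, LL_eq (notMem_seg_im hc hc1 hz.ne'), JJ, om_eq hz]
  have e1 : Complex.cos (Real.pi * z) / c * (1 + Sq (1 - 4 * c ^ 2 * Complex.exp (2 * Real.pi * Complex.I * z) /
      (1 + Complex.exp (2 * Real.pi * Complex.I * z)) ^ 2)) =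
      Complex.exp (-(Complex.I * Real.pi * z)) / ((2 * c : ℝ) : ℂ) * GG c (Complex.exp (2 * Real.pi * Complex.I * z)) := by
    rw [expq, GG]
    push_cast
    ring
  have h5 : 0 < ‖GG c (Complex.exp (2 * Real.pi * Complex.I * z))‖ := norm_pos_iff.2 (GG_ne hc hc1 hq1)
  rw [e1, norm_mul, norm_div, Complex.norm_real, Complex.norm_exp, Real.norm_eq_abs,
    abs_of_pos (by positivity : 0 < 2 * c), Real.log_mul (by positivity) h5.ne',
    Real.log_div (Real.exp_pos _).ne' (by positivity), Real.log_exp]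
  have e2 : (-(Complex.I * Real.pi * z)).re = Real.pi * z.im := by
    simp [Complex.mul_re, Complex.mul_im]
  rw [e2]
  field_simp

lemma Ut_continuous : Continuous (Ut c) := by
  unfold Ut
  exact continuous_const.mul (continuous_LL.comp
    ((Complex.continuous_cos.comp (continuous_const.mul continuous_id)).div_const _))

include hc hc1 in
lemma Ut_isU : IsU (Et c) (Ut c) := by
  have hpi := Real.pi_pos
  refine ⟨Ut_continuous, ?_, ?_, ?_, ?_, ?_⟩
  · intro z hz
    have h1 : Complex.cos (Real.pi * z) / c ∉ seg := fun h => hz (mem_of_mem_seg hc hc1 h)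
    have h2 : HarmonicAt (fun z : ℂ => LL (Complex.cos (Real.pi * z) / c)) z := by
      refine harmonicAt_comp (φ := fun z => Complex.cos (Real.pi * z) / c) ?_ (LL_harmonicAt h1)
      fun_prop
    exact h2.const_smul
  · intro z hz
    have h1 : Complex.cos (Real.pi * z) / c ∉ seg := fun h => hz (mem_of_mem_seg hc hc1 h)
    exact mul_pos (by positivity) (LL_pos h1)
  · intro t ht
    rw [Ut, LL_zero (mem_seg_of_mem hc ht), mul_zero]
  · intro z
    have hLL : ∀ w : ℂ, LL (conj w) = LL w := by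
      intro w
      have hA : AA (conj w) = AA w := by
        have e1 : conj w + 1 = conj (w + 1) := by simp
        have e2 : conj w - 1 = conj (w - 1) := by simp
        rw [AA, AA, e1, e2, Complex.norm_conj, Complex.norm_conj]
      rw [LL, LL, hA]
    rw [Ut, Ut]
    congr 1
    rw [← hLL]
    congr 1
    rw [map_div₀, Complex.conj_ofReal, ← Complex.cos_conj, map_mul, Complex.conj_ofReal,
      Complex.conj_conj]
  · have h1 : Tendsto (fun y : ℝ => Real.log ‖GG c (Complex.exp (2 * Real.pi * Complex.I * (y * Complex.I)))‖)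
        atTop (𝓝 (Real.log ‖GG c 0‖)) := by
      have h2 : Tendsto (fun y : ℝ => Complex.exp (2 * Real.pi * Complex.I * (y * Complex.I))) atTop (𝓝 0) := by
        rw [tendsto_zero_iff_norm_tendsto_zero]
        simp_rw [norm_expq]
        simp only [Complex.mul_im, Complex.ofReal_re, Complex.ofReal_im, Complex.I_re, Complex.I_im,
          mul_one, mul_zero, add_zero]
        exact Real.tendsto_exp_neg_atTop_nhds_zero.comp
          (tendsto_id.const_mul_atTop (by positivity : 0 < 2 * Real.pi))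
      have h3 := (GG_an hc hc1 (by simp : ‖(0 : ℂ)‖ < 1)).continuousAt
      have h4 : Real.log ‖GG c 0‖ = Real.log ‖GG c 0‖ := rfl
      refine (Real.continuousAt_log ?_).tendsto.comp ((continuous_norm.tendsto _).comp (h3.tendsto.comp h2))
      rw [GG_zero]; simp
    have h5 : Tendsto (fun y : ℝ => 1 + (1 / Real.pi * Real.log ‖GG c (Complex.exp (2 * Real.pi * Complex.I * (y * Complex.I)))‖
        - 1 / Real.pi * Real.log (2 * c)) / y) atTop (𝓝 (1 + 0)) :=
      tendsto_const_nhds.add (((h1.const_mul _).sub_const _).div_atTop tendsto_id)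
    rw [add_zero] at h5
    refine h5.congr' ?_
    filter_upwards [eventually_gt_atTop 0] with y hy
    rw [Ut_eq hc hc1 (by simpa using hy)]
    simp only [Complex.mul_im, Complex.ofReal_re, Complex.ofReal_im, Complex.I_re, Complex.I_im,
      mul_one, mul_zero, add_zero]
    field_simp
    ring

end

end Pool.Agent.W773.RD
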