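import Pool.Agent.W773.RD.Comp2

set_option autoImplicit false

open Filter Metric Set Topology MeasureTheory InnerProductSpace
open scoped ComplexConjugate ENNReal

namespace Pool.Agent.W773.RD

lemma LL_neg (w : ℂ) : LL (-w) = LL w := by
  have hA : AA (-w) = AA w := by
    have e1 : -w + 1 = -(w - 1) := by ring
    have e2 : -w - 1 = -(w + 1) := by ring
    rw [AA, AA, e1, e2, norm_neg, norm_neg, add_comm]
  rw [LL, LL, hA]

lemma Ut_add_one (c : ℝ) (z : ℂ) : Ut c (z + 1) = Ut c z := by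
  rw [Ut, Ut]
  have : Complex.cos (Real.pi * (z + 1)) / c = -(Complex.cos (Real.pi * z) / c) := by
    rw [mul_add, mul_one, Complex.cos_add_pi]; ring
  rw [this, LL_neg]

lemma Ut_neg (c : ℝ) (z : ℂ) : Ut c (-z) = Ut c z := by
  rw [Ut, Ut, mul_neg, Complex.cos_neg]

lemma Ut_neg_real {c : ℝ} (hc : 0 < c) (hc1 : c < 1) (t y : ℝ) :
    Ut c ((-t : ℝ) + y * Complex.I) = Ut c (t + y * Complex.I) := by
  rw [← Ut_neg, ← (Ut_isU hc hc1).symm]
  congr 1
  apply Complex.ext <;> simp

section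
variable {c : ℝ} (hc : 0 < c) (hc1 : c < 1)

include hc hc1 in
lemma V_pos {y : ℝ} (hy : 0 < y) :
    ∫ t in (-(1 / 2 : ℝ))..(1 / 2), Ut c (t + y * Complex.I) = y + 1 / Real.pi * Real.log (1 / c) := by
  have hpi := Real.pi_pos
  set r : ℝ := Real.exp (-(2 * Real.pi * y)) with hr
  have hr0 : 0 < r := Real.exp_pos _
  have hr1 : r < 1 := by
    rw [hr, Real.exp_lt_one_iff]
    have : 0 < 2 * Real.pi * y := by positivity
    linarith
  have e1 : ∀ t : ℝ, Ut c (t + y * Complex.I) = (y - 1 / Real.pi * Real.log (2 * c)) +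
      1 / Real.pi * Real.log ‖GG c (circleMap 0 r (2 * Real.pi * t))‖ := by
    intro t
    rw [Ut_eq hc hc1 (by simpa using hy)]
    have e2 : Complex.exp (2 * Real.pi * Complex.I * (t + y * Complex.I)) =
        circleMap 0 r (2 * Real.pi * t) := by
      rw [circleMap, zero_add, hr, Complex.ofReal_exp, ← Complex.exp_add]
      congr 1
      push_cast
      linear_combination (2 * Real.pi * y : ℂ) * Complex.I_sq
    rw [e2]
    simp
  have hcont : ContinuousOn (fun q : ℂ => Real.log ‖GG c q‖) (ball 0 1) := by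
    intro q hq
    have hq' : ‖q‖ < 1 := by simpa using hq
    have h1 := (GG_an hc hc1 hq').continuousAt
    refine ((Real.continuousAt_log ?_).comp h1.norm).continuousWithinAt
    exact norm_ne_zero_iff.2 (GG_ne hc hc1 hq')
  have hcm : Continuous fun t : ℝ => Real.log ‖GG c (circleMap 0 r (2 * Real.pi * t))‖ := by
    refine hcont.comp_continuous ((continuous_circleMap 0 r).comp (by fun_prop)) fun t => ?_
    rw [mem_ball_zero_iff, norm_circleMap_zero, abs_of_pos hr0]; exact hr1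
  have e3 : ∫ t in (-(1 / 2 : ℝ))..(1 / 2), Real.log ‖GG c (circleMap 0 r (2 * Real.pi * t))‖ =
      Real.log 2 := by
    set φ : ℝ → ℝ := fun θ => Real.log ‖GG c (circleMap 0 r θ)‖ with hφ
    have h1 := intervalIntegral.integral_comp_mul_left (a := -(1 / 2 : ℝ)) (b := 1 / 2) φ
      (by positivity : (2 * Real.pi) ≠ 0)
    have h2 : ∫ θ in (0 : ℝ)..2 * Real.pi, φ θ = ∫ θ in (-Real.pi)..Real.pi, φ θ := by
      have hper : Function.Periodic φ (2 * Real.pi) := by
        intro θ; simp only [hφ, (periodic_circleMap 0 r) θ]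
      have := hper.intervalIntegral_add_eq 0 (-Real.pi)
      rw [zero_add] at this
      rw [this]; ring_nf
    have h3 : Real.circleAverage (fun q => Real.log ‖GG c q‖) 0 r = Real.log ‖GG c 0‖ := by
      refine InnerProductSpace.HarmonicOnNhd.circleAverage_eq fun q hq => ?_
      have hq' : ‖q‖ < 1 := by
        rw [mem_closedBall_zero_iff, abs_of_pos hr0] at hq; linarith
      exact (GG_an hc hc1 hq').harmonicAt_log_norm (GG_ne hc hc1 hq')
    rw [Real.circleAverage_def, h2, GG_zero] at h3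
    show ∫ t in (-(1 / 2 : ℝ))..(1 / 2), φ (2 * Real.pi * t) = _
    rw [h1]
    have e4 : 2 * Real.pi * -(1 / 2) = -Real.pi := by ring
    have e5 : 2 * Real.pi * (1 / 2) = Real.pi := by ring
    rw [e4, e5, h3]
    simp
  simp_rw [e1]
  rw [intervalIntegral.integral_add intervalIntegrable_const
    ((hcm.const_mul _).intervalIntegrable _ _), intervalIntegral.integral_const,
    intervalIntegral.integral_const_mul, e3, Real.log_mul (by norm_num) hc.ne', one_div c,
    Real.log_inv]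
  simp only [smul_eq_mul]
  ring

include hc hc1 in
lemma V_eq (y : ℝ) :
    ∫ t in (-(1 / 2 : ℝ))..(1 / 2), Ut c (t + y * Complex.I) = |y| + 1 / Real.pi * Real.log (1 / c) := by
  have hU := Ut_isU hc hc1
  have e0 : ∫ t in (-(1 / 2 : ℝ))..(1 / 2), Ut c (t + y * Complex.I) =
      ∫ t in (-(1 / 2 : ℝ))..(1 / 2), Ut c (t + (|y| : ℝ) * Complex.I) :=
    intervalIntegral.integral_congr fun t _ => hU.symm_abs t y
  rw [e0]
  rcases eq_or_lt_of_le (abs_nonneg y) with hy | hy
  · rw [← hy]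
    have hV : Continuous fun y : ℝ => ∫ t in (-(1 / 2 : ℝ))..(1 / 2), Ut c (t + y * Complex.I) := by
      refine intervalIntegral.continuous_parametric_intervalIntegral_of_continuous' ?_ _ _
      exact hU.cont.comp (by fun_prop)
    have h1 : Tendsto (fun y : ℝ => ∫ t in (-(1 / 2 : ℝ))..(1 / 2), Ut c (t + y * Complex.I))
        (𝓝[>] 0) (𝓝 (∫ t in (-(1 / 2 : ℝ))..(1 / 2), Ut c (t + (0 : ℝ) * Complex.I))) :=
      (hV.tendsto 0).mono_left nhdsWithin_le_nhds
    have h2 : Tendsto (fun y : ℝ => y + 1 / Real.pi * Real.log (1 / c)) (𝓝[>] 0)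
        (𝓝 (0 + 1 / Real.pi * Real.log (1 / c))) :=
      ((continuous_id.add continuous_const).tendsto 0).mono_left nhdsWithin_le_nhds
    refine tendsto_nhds_unique h1 (h2.congr' ?_)
    filter_upwards [self_mem_nhdsWithin] with y hy
    exact (V_pos hc hc1 hy).symm
  · exact V_pos hc hc1 hy

end

/-- twice the integral of the comparison function over `[0,θ]` at height `y` -/
noncomputable def W (c θ y : ℝ) : ℝ := 2 * ∫ t in (0 : ℝ)..θ, Ut c (t + y * Complex.I)

section
variable {c : ℝ} (hc : 0 < c) (hc1 : c < 1)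

lemma Ut_line (c y : ℝ) : Continuous fun t : ℝ => Ut c (t + y * Complex.I) :=
  Ut_continuous.comp (by fun_prop)

lemma Ut_ii (c y a b : ℝ) :
    IntervalIntegrable (fun t : ℝ => Ut c (t + y * Complex.I)) volume a b :=
  (Ut_line c y).intervalIntegrable _ _

lemma W_zero (c y : ℝ) : W c 0 y = 0 := by simp [W]

include hc hc1 in
lemma W_neg (θ y : ℝ) : W c (-θ) y = -W c θ y := by
  rw [W, W]
  have h : ∫ t in (0 : ℝ)..(-θ), Ut c (t + y * Complex.I) = -∫ t in (0 : ℝ)..θ, Ut c (t + y * Complex.I) := by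
    have h1 := intervalIntegral.integral_comp_neg (a := 0) (b := θ)
      (fun t : ℝ => Ut c (t + y * Complex.I))
    rw [neg_zero] at h1
    have h2 : ∫ t in (0 : ℝ)..θ, Ut c ((-t : ℝ) + y * Complex.I) =
      ∫ t in (0 : ℝ)..θ, Ut c (t + y * Complex.I) :=
      intervalIntegral.integral_congr fun t _ => Ut_neg_real hc hc1 t y
    rw [h2] at h1
    rw [intervalIntegral.integral_symm, ← h1]
  rw [h]; ring

include hc hc1 in
lemma W_sym (θ y : ℝ) : W c θ y = ∫ t in (-θ)..θ, Ut c (t + y * Complex.I) := by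
  have h1 := W_neg hc hc1 θ y
  rw [W, W] at h1
  have h2 := intervalIntegral.integral_add_adjacent_intervals
    (Ut_ii c y (-θ) 0) (Ut_ii c y 0 θ)
  rw [← h2, W, intervalIntegral.integral_symm 0 (-θ)]
  linarith

include hc hc1 in
lemma W_half (y : ℝ) : W c (1 / 2) y = |y| + 1 / Real.pi * Real.log (1 / c) := by
  rw [W_sym hc hc1, V_eq hc hc1]

lemma W_continuous (c : ℝ) : Continuous fun p : ℝ × ℝ => W c p.1 p.2 := by
  unfold W
  refine continuous_const.mul ?_
  exact intervalIntegral.continuous_parametric_intervalIntegral_of_continuous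
    (f := fun (p : ℝ × ℝ) (t : ℝ) => Ut c (t + p.2 * Complex.I))
    (Ut_continuous.comp (by fun_prop)) continuous_fst

include hc hc1 in
lemma W_mono {θ θ' : ℝ} (h : θ ≤ θ') (y : ℝ) : W c θ y ≤ W c θ' y := by
  have h2 := intervalIntegral.integral_add_adjacent_intervals
    (Ut_ii c y 0 θ) (Ut_ii c y θ θ')
  rw [W, W, ← h2]
  have : 0 ≤ ∫ t in θ..θ', Ut c (t + y * Complex.I) :=
    intervalIntegral.integral_nonneg h fun t _ => (Ut_isU hc hc1).nonneg _
  linarith

include hc hc1 in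
lemma W_ge {θ : ℝ} (h : 0 ≤ θ) (y : ℝ) : 2 * θ * |y| ≤ W c θ y := by
  have h1 : ∫ t in (0 : ℝ)..θ, |y| ≤ ∫ t in (0 : ℝ)..θ, Ut c (t + y * Complex.I) :=
    intervalIntegral.integral_mono_on h intervalIntegrable_const
      (Ut_ii c y _ _) fun t _ => (Ut_isU hc hc1).ge_abs t y
  rw [intervalIntegral.integral_const, smul_eq_mul, sub_zero] at h1
  rw [W]; linarith

lemma mem_Et_of {t : ℝ} (h0 : 0 ≤ t) (h1 : t ≤ 1 / 2) (h : Real.cos (Real.pi * t) ≤ c) : t ∈ Et c := by
  have hpi := Real.pi_pos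
  show |Real.cos (Real.pi * t)| ≤ c
  have : 0 ≤ Real.cos (Real.pi * t) :=
    Real.cos_nonneg_of_mem_Icc ⟨by nlinarith, by nlinarith⟩
  rwa [abs_of_nonneg this]

include hc hc1 in
lemma W_crack {θ : ℝ} (h0 : 0 ≤ θ) (h1 : θ ≤ 1 / 2) (h : Real.cos (Real.pi * θ) ≤ c) :
    W c θ 0 = 1 / Real.pi * Real.log (1 / c) := by
  have hpi := Real.pi_pos
  have h2 := W_half hc hc1 0
  rw [abs_zero, zero_add] at h2
  rw [← h2, W, W, ← intervalIntegral.integral_add_adjacent_intervals
    (Ut_ii c 0 0 θ) (Ut_ii c 0 θ (1 / 2))]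
  have h3 : ∫ t in θ..(1 / 2 : ℝ), Ut c (t + (0 : ℝ) * Complex.I) = 0 := by
    rw [intervalIntegral.integral_congr (g := fun _ => (0 : ℝ))]
    · simp
    · intro t ht
      rw [uIcc_of_le h1] at ht
      have h4 : t ∈ Et c := by
        refine mem_Et_of (by linarith [ht.1]) ht.2 (le_trans ?_ h)
        refine Real.cos_le_cos_of_nonneg_of_le_pi (by positivity) ?_ ?_
        · nlinarith [ht.2]
        · gcongr; exact ht.1
      simp [(Ut_isU hc hc1).zero t h4]
  rw [h3, add_zero]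

include hc hc1 in
lemma W_strict {θ : ℝ} (h1 : θ < 1 / 2) (h : c < Real.cos (Real.pi * θ)) :
    W c θ 0 < 1 / Real.pi * Real.log (1 / c) := by
  have hpi := Real.pi_pos
  have h2 := W_half hc hc1 0
  rw [abs_zero, zero_add] at h2
  rw [← h2, W, W, ← intervalIntegral.integral_add_adjacent_intervals
    (Ut_ii c 0 0 θ) (Ut_ii c 0 θ (1 / 2))]
  have h3 : 0 < ∫ t in θ..(1 / 2 : ℝ), Ut c (t + (0 : ℝ) * Complex.I) := by
    refine intervalIntegral.integral_pos h1 (Ut_line c 0).continuousOn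
      (fun t _ => (Ut_isU hc hc1).nonneg _) ⟨θ, ⟨le_rfl, h1.le⟩, ?_⟩
    refine (Ut_isU hc hc1).pos _ ?_
    rintro ⟨s, hs, hse⟩
    have : s = θ := by
      have := congrArg Complex.re hse
      simpa using this
    rw [this] at hs
    have h4 : |Real.cos (Real.pi * θ)| ≤ c := hs
    linarith [le_abs_self (Real.cos (Real.pi * θ))]
  linarith

lemma Ut_at_zero (hc : 0 < c) (hc1 : c < 1) :
    Ut c 0 = 1 / Real.pi * Real.log ((1 + √(1 - c ^ 2)) / c) := by
  rw [Ut, mul_zero, Complex.cos_zero, LL]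
  have hA : AA (1 / c) = 1 / c := by
    have e1 : (1 / (c : ℂ) + 1) = ((1 / c + 1 : ℝ) : ℂ) := by push_cast; ring
    have e2 : (1 / (c : ℂ) - 1) = ((1 / c - 1 : ℝ) : ℂ) := by push_cast; ring
    have h1 : 1 < 1 / c := by rw [lt_div_iff₀ hc]; linarith
    rw [AA, e1, e2, Complex.norm_real, Complex.norm_real, Real.norm_eq_abs, Real.norm_eq_abs,
      abs_of_pos (by linarith), abs_of_pos (by linarith)]
    ring
  rw [hA]
  congr 2
  have h2 : (1 / c) ^ 2 - 1 = (1 - c ^ 2) / c ^ 2 := by field_simp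
  rw [h2, Real.sqrt_div' _ (by positivity), Real.sqrt_sq hc.le]
  ring

end

end Pool.Agent.W773.RD
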