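import Pool.Agent.W773.RD.Comp3

set_option autoImplicit false

open Filter Metric Set Topology MeasureTheory InnerProductSpace
open scoped ComplexConjugate ENNReal

namespace Pool.Agent.W773.RD

/-- average over the angle -/
noncomputable def Av (H : ℝ → ℝ) : ℝ := (2 * Real.pi)⁻¹ * ∫ ψ in (0 : ℝ)..2 * Real.pi, H ψ

lemma Av_reflect (G : ℝ → ℝ → ℝ) :
    Av (fun ψ => G (-Real.cos ψ) (Real.sin ψ)) = Av (fun ψ => G (Real.cos ψ) (Real.sin ψ)) := by
  unfold Av
  congr 1
  set φ : ℝ → ℝ := fun ψ => G (Real.cos ψ) (Real.sin ψ) with hφ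
  have h1 : ∀ ψ, G (-Real.cos ψ) (Real.sin ψ) = φ (Real.pi - ψ) := by
    intro ψ; simp only [hφ, Real.cos_pi_sub, Real.sin_pi_sub]
  simp_rw [h1]
  rw [intervalIntegral.integral_comp_sub_left φ]
  have hper : Function.Periodic φ (2 * Real.pi) := by
    intro ψ; simp only [hφ, Real.cos_add_two_pi, Real.sin_add_two_pi]
  have := hper.intervalIntegral_add_eq 0 (Real.pi - 2 * Real.pi)
  rw [zero_add] at this
  rw [this]
  congr 1; ring

lemma circle_eq (z : ℂ) (r ψ : ℝ) :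
    circleMap z r ψ = z + (r * Real.cos ψ : ℝ) + (r * Real.sin ψ : ℝ) * Complex.I := by
  rw [circleMap, Complex.exp_mul_I]; push_cast; ring

lemma circle_Av (v : ℂ → ℝ) (z : ℂ) (r : ℝ) :
    Real.circleAverage v z r =
      Av fun ψ => v (z + (r * Real.cos ψ : ℝ) + (r * Real.sin ψ : ℝ) * Complex.I) := by
  rw [Real.circleAverage_def, Av, smul_eq_mul]
  simp_rw [circle_eq]

lemma Av_mono {G H : ℝ → ℝ} (hG : Continuous G) (hH : Continuous H) (h : ∀ ψ, G ψ ≤ H ψ) :
    Av G ≤ Av H := by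
  unfold Av
  have hpi := Real.pi_pos
  refine mul_le_mul_of_nonneg_left ?_ (by positivity)
  exact intervalIntegral.integral_mono (by positivity) (hG.intervalIntegrable _ _)
    (hH.intervalIntegrable _ _) h

lemma Av_add {G H : ℝ → ℝ} (hG : Continuous G) (hH : Continuous H) :
    Av (fun ψ => G ψ + H ψ) = Av G + Av H := by
  unfold Av
  rw [intervalIntegral.integral_add (hG.intervalIntegrable _ _) (hH.intervalIntegrable _ _)]
  ring

lemma Av_const_mul (a : ℝ) (G : ℝ → ℝ) : Av (fun ψ => a * G ψ) = a * Av G := by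
  unfold Av
  rw [intervalIntegral.integral_const_mul]; ring

lemma Av_const (a : ℝ) : Av (fun _ => a) = a := by
  unfold Av
  rw [intervalIntegral.integral_const, smul_eq_mul, sub_zero, ← mul_assoc,
    inv_mul_cancel₀ (by have := Real.pi_pos; positivity), one_mul]

lemma Av_cos : Av Real.cos = 0 := by
  unfold Av; rw [integral_cos]; simp

lemma Av_sin : Av Real.sin = 0 := by
  unfold Av; rw [integral_sin]; simp

lemma Av_cos_sq : Av (fun ψ => Real.cos ψ ^ 2) = 1 / 2 := by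
  have := Real.pi_pos
  unfold Av; rw [integral_cos_sq]; simp; field_simp

lemma Av_sin_sq : Av (fun ψ => Real.sin ψ ^ 2) = 1 / 2 := by
  have := Real.pi_pos
  unfold Av; rw [integral_sin_sq]; simp; field_simp

/-- the auxiliary strictly superharmonic function -/
def kap (θ y : ℝ) : ℝ := 1 - 2 * θ ^ 2 + y ^ 2

lemma Av_kap (θ y r : ℝ) :
    Av (fun ψ => kap (θ + r * Real.cos ψ) (y + r * Real.sin ψ)) = kap θ y - r ^ 2 / 2 := by
  have e : (fun ψ => kap (θ + r * Real.cos ψ) (y + r * Real.sin ψ)) =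
      fun ψ => ((kap θ y + (-4 * θ * r) * Real.cos ψ) + (2 * y * r) * Real.sin ψ) +
        ((-2 * r ^ 2) * Real.cos ψ ^ 2 + r ^ 2 * Real.sin ψ ^ 2) := by
    funext ψ; unfold kap; ring
  rw [e, Av_add (by fun_prop) (by fun_prop), Av_add (by fun_prop) (by fun_prop),
    Av_add (by fun_prop) (by fun_prop), Av_add (by fun_prop) (by fun_prop), Av_const,
    Av_const_mul _ Real.cos, Av_const_mul _ Real.sin, Av_const_mul, Av_const_mul, Av_cos, Av_sin,
    Av_cos_sq, Av_sin_sq]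
  ring

lemma Av_swap {f : ℝ → ℝ → ℝ} (hf : Continuous fun p : ℝ × ℝ => f p.1 p.2) (a b : ℝ) :
    Av (fun ψ => ∫ t in a..b, f ψ t) = ∫ t in a..b, Av (fun ψ => f ψ t) := by
  unfold Av
  rw [intervalIntegral.integral_const_mul]
  congr 1
  refine intervalIntegral_intervalIntegral_swap ?_
  have h1 : ContinuousOn (fun p : ℝ × ℝ => f p.1 p.2) (uIcc 0 (2 * Real.pi) ×ˢ uIcc a b) :=
    hf.continuousOn
  exact (h1.integrableOn_compact (isCompact_uIcc.prod isCompact_uIcc)).mono_set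
    (prod_mono uIoc_subset_uIcc uIoc_subset_uIcc)

section
variable {c : ℝ} (hc : 0 < c) (hc1 : c < 1)

lemma W_cont2 {X : Type*} [TopologicalSpace X] (c : ℝ) {f g : X → ℝ} (hf : Continuous f)
    (hg : Continuous g) : Continuous fun x => W c (f x) (g x) := by
  have h : Continuous ((fun p : ℝ × ℝ => W c p.1 p.2) ∘ fun x => (f x, g x)) :=
    Continuous.comp (W_continuous c) (hf.prodMk hg)
  exact h

/-- the discs of radius `r` about the points `t+iy`, `0 ≤ t ≤ θ`, avoid the periodic set -/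
def Free (c θ y r : ℝ) : Prop :=
  ∀ t ∈ Icc 0 θ, closedBall ((t : ℂ) + y * Complex.I) r ⊆ (Complex.ofReal '' Et c)ᶜ

include hc hc1 in
lemma W_mvp {θ y r : ℝ} (hθ : 0 ≤ θ) (hr : 0 ≤ r) (hfree : Free c θ y r) :
    Av (fun ψ => W c (θ + r * Real.cos ψ) (y + r * Real.sin ψ)) = W c θ y := by
  have hU := Ut_isU hc hc1
  set F : ℝ → ℝ → ℝ := fun ψ t => Ut c ((t : ℂ) + y * Complex.I + (r * Real.cos ψ : ℝ) +
        (r * Real.sin ψ : ℝ) * Complex.I) with hF
  have e1 : ∀ ψ, W c (θ + r * Real.cos ψ) (y + r * Real.sin ψ) =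
      2 * (∫ t in (0 : ℝ)..θ, F ψ t) + W c (r * Real.cos ψ) (y + r * Real.sin ψ) := by
    intro ψ
    simp only [hF]
    set s := r * Real.cos ψ with hs
    set y' := y + r * Real.sin ψ with hy'
    have h1 := intervalIntegral.integral_add_adjacent_intervals (Ut_ii c y' 0 s) (Ut_ii c y' s (θ + s))
    rw [W, W, ← h1]
    have h2 := intervalIntegral.integral_comp_add_right (a := 0) (b := θ)
      (fun t : ℝ => Ut c (t + y' * Complex.I)) s
    rw [zero_add] at h2
    rw [← h2]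
    have h3 : ∀ t : ℝ, ((t + s : ℝ) : ℂ) + y' * Complex.I = (t : ℂ) + y * Complex.I + (s : ℝ) +
        (r * Real.sin ψ : ℝ) * Complex.I := by
      intro t; rw [hy']; push_cast; ring
    simp_rw [h3]
    ring
  simp_rw [e1]
  have hWc : Continuous fun ψ : ℝ => W c (r * Real.cos ψ) (y + r * Real.sin ψ) :=
    W_cont2 c (by fun_prop) (by fun_prop)
  have hjoint : Continuous (Function.uncurry F) := by
    simp only [hF, Function.uncurry_def]
    exact Ut_continuous.comp (by fun_prop)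
  have hIc : Continuous fun ψ : ℝ => 2 * ∫ t in (0 : ℝ)..θ, F ψ t :=
    continuous_const.mul
      (intervalIntegral.continuous_parametric_intervalIntegral_of_continuous' hjoint 0 θ)
  rw [Av_add hIc hWc, Av_const_mul, Av_swap (f := F) hjoint]
  have e2 : ∫ t in (0 : ℝ)..θ, Av (fun ψ => F ψ t) =
      ∫ t in (0 : ℝ)..θ, Ut c (t + y * Complex.I) := by
    refine intervalIntegral.integral_congr fun t ht => ?_
    rw [uIcc_of_le hθ] at ht
    simp only [hF]
    rw [← circle_Av]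
    refine InnerProductSpace.HarmonicOnNhd.circleAverage_eq fun ζ hζ => hU.harm ζ (hfree t ht ?_)
    rwa [abs_of_nonneg hr] at hζ
  have e3 : Av (fun ψ => W c (r * Real.cos ψ) (y + r * Real.sin ψ)) = 0 := by
    have h1 := Av_reflect fun a b => W c (r * a) (y + r * b)
    have h2 : (fun ψ => W c (r * -Real.cos ψ) (y + r * Real.sin ψ)) =
        fun ψ => (-1) * W c (r * Real.cos ψ) (y + r * Real.sin ψ) := by
      funext ψ
      rw [mul_neg, W_neg hc hc1]; ring
    rw [h2, Av_const_mul] at h1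
    linarith
  rw [e2, e3, add_zero]
  rfl

lemma free_mono {θ y r r' : ℝ} (h : Free c θ y r) (hr : r' ≤ r) : Free c θ y r' :=
  fun t ht => (closedBall_subset_closedBall hr).trans (h t ht)

lemma free_of {θ y : ℝ} (h0 : 0 ≤ θ) (h1 : θ < 1 / 2)
    (h : y ≠ 0 ∨ c < Real.cos (Real.pi * θ)) : ∃ r > 0, Free c θ y r := by
  have hpi := Real.pi_pos
  rcases eq_or_ne y 0 with hy | hy
  · subst hy
    have h2 : c < Real.cos (Real.pi * θ) := by simpa using h
    have hcont : Continuous fun s : ℝ => Real.cos (Real.pi * (θ + s)) := by fun_prop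
    have h3 : ∀ᶠ s in 𝓝[>] (0 : ℝ), c < Real.cos (Real.pi * (θ + s)) := by
      have h4 := hcont.tendsto 0
      simp only [add_zero] at h4
      exact (h4.eventually (lt_mem_nhds h2)).filter_mono nhdsWithin_le_nhds
    have h4 : ∀ᶠ s in 𝓝[>] (0 : ℝ), s < 1 / 2 - θ :=
      (Iio_mem_nhds (by linarith : (0 : ℝ) < 1 / 2 - θ)) |> fun h => nhdsWithin_le_nhds h
    obtain ⟨r, ⟨h5, h6⟩, h7⟩ := ((h3.and h4).and self_mem_nhdsWithin).exists
    have h7' : 0 < r := h7
    refine ⟨r, h7', fun t ht ζ hζ => ?_⟩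
    rintro ⟨s, hs, rfl⟩
    have h8 : |s - t| ≤ r := by
      rw [mem_closedBall, dist_eq_norm] at hζ
      have e : (s : ℂ) - ((t : ℂ) + (0 : ℝ) * Complex.I) = ((s - t : ℝ) : ℂ) := by push_cast; ring
      rwa [e, Complex.norm_real, Real.norm_eq_abs] at hζ
    have h9 := abs_le.1 h8
    have h10 : |s| ≤ θ + r := abs_le.2 ⟨by linarith [ht.1], by linarith [ht.2]⟩
    have h11 : |Real.cos (Real.pi * s)| ≤ c := hs
    have h12 : Real.cos (Real.pi * (θ + r)) ≤ Real.cos (Real.pi * |s|) := by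
      refine Real.cos_le_cos_of_nonneg_of_le_pi (by positivity) (by nlinarith) (by gcongr)
    have h13 : Real.cos (Real.pi * |s|) = Real.cos (Real.pi * s) := by
      rcases abs_cases s with ⟨h, _⟩ | ⟨h, _⟩
      · rw [h]
      · rw [h, mul_neg, Real.cos_neg]
    linarith [le_abs_self (Real.cos (Real.pi * s))]
  · refine ⟨|y| / 2, by positivity, fun t ht ζ hζ => ?_⟩
    rintro ⟨s, hs, rfl⟩
    rw [mem_closedBall, dist_eq_norm] at hζ
    have h2 := Complex.abs_im_le_norm ((s : ℂ) - ((t : ℂ) + y * Complex.I))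
    have e : ((s : ℂ) - ((t : ℂ) + y * Complex.I)).im = -y := by simp
    rw [e, abs_neg] at h2
    have : 0 < |y| := abs_pos.2 hy
    linarith

include hc hc1 in
lemma Ut_lip {θ y r : ℝ} (hθ : 0 ≤ θ) (hr : 0 < r) (hfree : Free c θ y r) :
    ∃ L ≥ 0, ∃ r₁ > 0, ∀ a b τ : ℝ, |a| ≤ r₁ → |b| ≤ r₁ → |τ| ≤ r₁ →
      Ut c ((θ + a : ℝ) + (y + τ : ℝ) * Complex.I) - Ut c ((θ + b : ℝ) + (y + τ : ℝ) * Complex.I) ≤
        L * |a - b| := by
  have hz : ((θ : ℂ) + y * Complex.I) ∈ (Complex.ofReal '' Et c)ᶜ :=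
    hfree θ ⟨hθ, le_rfl⟩ (mem_closedBall_self hr.le)
  have h1 := ((Ut_isU hc hc1).harm _ hz).1
  obtain ⟨K, t, ht, hK⟩ := (h1.of_le (by norm_num : (1 : WithTop ℕ∞) ≤ 2)).exists_lipschitzOnWith
  obtain ⟨ρ, hρ, hsub⟩ := Metric.mem_nhds_iff.1 ht
  refine ⟨K, K.2, ρ / 3, by positivity, fun a b τ ha hb hτ => ?_⟩
  have hmem : ∀ a : ℝ, |a| ≤ ρ / 3 → ((θ + a : ℝ) : ℂ) + (y + τ : ℝ) * Complex.I ∈ t := by
    intro a ha
    apply hsub
    rw [mem_ball, dist_eq_norm]
    have e : ((θ + a : ℝ) : ℂ) + (y + τ : ℝ) * Complex.I - ((θ : ℂ) + y * Complex.I) =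
      (a : ℂ) + τ * Complex.I := by push_cast; ring
    rw [e]
    calc ‖(a : ℂ) + τ * Complex.I‖ ≤ ‖(a : ℂ)‖ + ‖(τ : ℂ) * Complex.I‖ := norm_add_le _ _
      _ = |a| + |τ| := by simp
      _ < ρ := by linarith
  have h2 := hK.dist_le_mul _ (hmem a ha) _ (hmem b hb)
  rw [Real.dist_eq, dist_eq_norm] at h2
  have e : ((θ + a : ℝ) : ℂ) + (y + τ : ℝ) * Complex.I - (((θ + b : ℝ) : ℂ) + (y + τ : ℝ) * Complex.I) =
      ((a - b : ℝ) : ℂ) := by push_cast; ring
  rw [e, Complex.norm_real, Real.norm_eq_abs] at h2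
  exact (le_abs_self _).trans h2

end

end Pool.Agent.W773.RD
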