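import Pool.Agent.W773.RD.StepC

set_option autoImplicit false

open Filter Metric Set Topology MeasureTheory InnerProductSpace
open scoped ComplexConjugate ENNReal

namespace Pool.Agent.W773.RD

/-- the parameter of the comparison function -/
noncomputable def cd (δ : ℝ) : ℝ := Real.sin (Real.pi * δ / 2)

section
variable {δ : ℝ} (hδ : 0 < δ) (hδ1 : δ < 1)

include hδ hδ1 in
lemma cd_pos : 0 < cd δ := by
  have := Real.pi_pos
  exact Real.sin_pos_of_pos_of_lt_pi (by positivity) (by nlinarith)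

include hδ hδ1 in
lemma cd_lt_one : cd δ < 1 := by
  have := Real.pi_pos
  have h : Real.sin (Real.pi * δ / 2) < Real.sin (Real.pi / 2) :=
    Real.sin_lt_sin_of_lt_of_le_pi_div_two (by nlinarith [mul_pos this hδ]) le_rfl (by nlinarith)
  rwa [Real.sin_pi_div_two] at h

lemma cos_eq_cd : Real.cos (Real.pi * ((1 - δ) / 2)) = cd δ := by
  rw [cd, ← Real.cos_pi_div_two_sub]
  congr 1; ring

include hδ hδ1 in
/-- the window average of `U` is at most that of the periodic model -/
theorem window_bound {E : Set ℝ} {U : ℂ → ℝ} (h : IsU E U) (hE : Dense 1 δ E) (x : ℝ) :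
    ∫ t in x..(x + 1), U t ≤ 1 / Real.pi * Real.log (1 / cd δ) := by
  have hpi := Real.pi_pos
  have hc0 := cd_pos hδ hδ1
  have hc1 := cd_lt_one hδ hδ1
  obtain ⟨C, hC0, hC⟩ := h.bdd hE hδ hδ1.le
  have hUc : Continuous fun t : ℝ => U (t : ℂ) := h.cont.comp Complex.continuous_ofReal
  have hbdd : BddAbove (range fun x : ℝ => ∫ t in x..(x + 1), U t) := by
    refine ⟨C, ?_⟩
    rintro _ ⟨x, rfl⟩
    have h1 : ∫ t in x..(x + 1), U t ≤ ∫ t in x..(x + 1), C :=
      intervalIntegral.integral_mono_on (by linarith) (hUc.intervalIntegrable _ _)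
        intervalIntegrable_const fun t _ => hC t
    rw [intervalIntegral.integral_const] at h1
    simpa using h1
  set Φ := ⨆ x : ℝ, ∫ t in x..(x + 1), U t with hΦd
  have hΦ : ∀ x : ℝ, ∫ t in x..(x + 1), U t ≤ Φ := fun x => le_ciSup hbdd x
  refine (hΦ x).trans ?_
  by_contra hcon
  rw [not_le] at hcon
  have hpos : 0 < 1 / Real.pi * Real.log (1 / cd δ) := by
    refine mul_pos (by positivity) (Real.log_pos ?_)
    rw [lt_div_iff₀ hc0]; linarith
  set c' := Real.exp (-(Real.pi * Φ)) with hc'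
  have hc'0 : 0 < c' := Real.exp_pos _
  have hc'1 : c' < 1 := by
    rw [hc', Real.exp_lt_one_iff]
    have : 0 < Real.pi * Φ := mul_pos hpi (hpos.trans hcon)
    linarith
  have hΦc : 1 / Real.pi * Real.log (1 / c') = Φ := by
    rw [one_div c', Real.log_inv, hc', Real.log_exp]
    field_simp
  have hlt : c' < cd δ := by
    rw [hc', ← Real.lt_log_iff_exp_lt hc0]
    rw [one_div (cd δ), Real.log_inv] at hcon
    have h1 : Real.pi * (1 / Real.pi * -Real.log (cd δ)) < Real.pi * Φ :=
      mul_lt_mul_of_pos_left hcon hpi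
    have h2 : Real.pi * (1 / Real.pi * -Real.log (cd δ)) = -Real.log (cd δ) := by field_simp
    rw [h2] at h1
    linarith
  have hstrict : W c' ((1 - δ) / 2) 0 < 1 / Real.pi * Real.log (1 / c') :=
    W_strict hc'0 hc'1 (by linarith) (by rw [cos_eq_cd]; exact hlt)
  have hall : ∀ x : ℝ, ∫ t in x..(x + 1), U t ≤ W c' ((1 - δ) / 2) 0 := by
    intro x
    set F : Set ℝ := Icc x (x + 1) ∩ {t | 0 < U (t : ℂ)} with hF
    have hFm : MeasurableSet F :=
      measurableSet_Icc.inter (isOpen_lt continuous_const hUc).measurableSet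
    have hFs : F ⊆ Icc x (x + 1) := inter_subset_left
    have h1 := stepC h hE hδ hδ1.le hc'0 hc'1 hΦ hΦc.ge x 0 hFm hFs
    have h2 : ∫ t in x..(x + 1), U t = ∫ t in F, U ((t : ℝ) + (0 : ℝ) * Complex.I) := by
      rw [intervalIntegral.integral_of_le (by linarith), ← integral_Icc_eq_integral_Ioc, hF,
        ← setIntegral_indicator (isOpen_lt continuous_const hUc).measurableSet]
      refine setIntegral_congr_fun measurableSet_Icc fun t _ => ?_
      by_cases h3 : 0 < U (t : ℂ)
      · rw [indicator_of_mem (show t ∈ {t : ℝ | 0 < U (t : ℂ)} from h3)]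
        simp
      · rw [indicator_of_notMem (show t ∉ {t : ℝ | 0 < U (t : ℂ)} from h3)]
        exact le_antisymm (not_lt.1 h3) (h.nonneg _)
    have hEm : MeasurableSet (E ∩ Icc x (x + 1)) := hE.closed.measurableSet.inter measurableSet_Icc
    have h3 : volume.real F ≤ 1 - δ := by
      have h4 : Disjoint F (E ∩ Icc x (x + 1)) := by
        rw [Set.disjoint_left]
        rintro t ⟨_, h5⟩ ⟨h6, _⟩
        have h5' : 0 < U (t : ℂ) := h5
        rw [h.zero t h6] at h5'
        exact lt_irrefl _ h5'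
      have h5 : volume.real (F ∪ (E ∩ Icc x (x + 1))) ≤ volume.real (Icc x (x + 1)) :=
        measureReal_mono (union_subset hFs inter_subset_right) (fin_of_sub Subset.rfl)
      rw [measureReal_union h4 hEm (fin_of_sub hFs)
        (fin_of_sub (inter_subset_right : E ∩ Icc x (x + 1) ⊆ Icc x (x + 1))),
        Real.volume_real_Icc_of_le (by linarith)] at h5
      have h6 : δ ≤ volume.real (E ∩ Icc x (x + 1)) :=
        (ENNReal.ofReal_le_iff_le_toReal
          (fin_of_sub (inter_subset_right : E ∩ Icc x (x + 1) ⊆ Icc x (x + 1)))).1 (hE.dens x)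
      linarith
    rw [h2]
    exact h1.trans (W_mono hc'0 hc'1 (by linarith) 0)
  have : Φ ≤ W c' ((1 - δ) / 2) 0 := ciSup_le hall
  linarith

include hδ hδ1 in
theorem upper {E : Set ℝ} {U : ℂ → ℝ} (h : IsU E U) (hE : Dense 1 δ E) (x₀ : ℝ) :
    U x₀ ≤ Ut (cd δ) 0 := by
  have hc0 := cd_pos hδ hδ1
  have hc1 := cd_lt_one hδ hδ1
  have hUc : Continuous fun t : ℝ => U (t : ℂ) := h.cont.comp Complex.continuous_ofReal
  have hVc : Continuous fun t : ℝ => Ut (cd δ) (t : ℂ) :=
    Ut_continuous.comp Complex.continuous_ofReal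
  by_contra hcon
  rw [not_le] at hcon
  obtain ⟨a, ha1, ha2⟩ := exists_between hcon
  obtain ⟨b, hb1, hb2⟩ := exists_between ha2
  have h1 : ∀ᶠ t : ℝ in 𝓝 0, Ut (cd δ) (t : ℂ) < a := by
    have := hVc.tendsto 0
    rw [Complex.ofReal_zero] at this
    exact this.eventually (gt_mem_nhds ha1)
  have h2 : ∀ᶠ t : ℝ in 𝓝 x₀, b < U (t : ℂ) := (hUc.tendsto x₀).eventually (lt_mem_nhds hb2)
  obtain ⟨r₁, hr₁, h1'⟩ := Metric.eventually_nhds_iff.1 h1
  obtain ⟨r₂, hr₂, h2'⟩ := Metric.eventually_nhds_iff.1 h2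
  set θ := min (1 / 2) (min (r₁ / 2) (r₂ / 2)) with hθ
  have hθ0 : 0 < θ := lt_min (by norm_num) (lt_min (by positivity) (by positivity))
  have hθ1 : θ ≤ 1 / 2 := min_le_left _ _
  have hθr₁ : θ ≤ r₁ / 2 := (min_le_right _ _).trans (min_le_left _ _)
  have hθr₂ : θ ≤ r₂ / 2 := (min_le_right _ _).trans (min_le_right _ _)
  have hFs : Icc (x₀ - θ) (x₀ + θ) ⊆ Icc (x₀ - θ) (x₀ - θ + 1) :=
    Icc_subset_Icc le_rfl (by linarith)
  have h3 := stepC h hE hδ hδ1.le hc0 hc1 (window_bound hδ hδ1 h hE) le_rfl (x₀ - θ) 0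
    measurableSet_Icc hFs
  have h4 : volume.real (Icc (x₀ - θ) (x₀ + θ)) / 2 = θ := by
    rw [Real.volume_real_Icc_of_le (by linarith)]; ring
  rw [h4] at h3
  have h5 : 2 * θ * b ≤ ∫ t in Icc (x₀ - θ) (x₀ + θ), U ((t : ℝ) + (0 : ℝ) * Complex.I) := by
    have h6 : ∫ t in Icc (x₀ - θ) (x₀ + θ), b ≤
        ∫ t in Icc (x₀ - θ) (x₀ + θ), U ((t : ℝ) + (0 : ℝ) * Complex.I) := by
      refine setIntegral_mono_on (integrableOn_const (fin_of_sub hFs)) ?_ measurableSet_Icc fun t ht => ?_
      · have : Continuous fun t : ℝ => U ((t : ℝ) + (0 : ℝ) * Complex.I) := h.cont.comp (by fun_prop)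
        exact this.continuousOn.integrableOn_compact isCompact_Icc
      · have : b < U (t : ℂ) := h2' (by
          rw [Real.dist_eq, abs_lt]; constructor <;> linarith [ht.1, ht.2])
        simpa using this.le
    rw [setIntegral_const, smul_eq_mul, Real.volume_real_Icc_of_le (by linarith)] at h6
    have e : x₀ + θ - (x₀ - θ) = 2 * θ := by ring
    rwa [e] at h6
  have h6 : W (cd δ) θ 0 ≤ 2 * θ * a := by
    have h7 : ∫ t in (0 : ℝ)..θ, Ut (cd δ) (t + (0 : ℝ) * Complex.I) ≤ ∫ t in (0 : ℝ)..θ, a := by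
      refine intervalIntegral.integral_mono_on hθ0.le (Ut_ii _ _ _ _) intervalIntegrable_const
        fun t ht => ?_
      have : Ut (cd δ) (t : ℂ) < a := h1' (by
        rw [Real.dist_eq, sub_zero, abs_lt]; constructor <;> linarith [ht.1, ht.2])
      simpa using this.le
    rw [intervalIntegral.integral_const, smul_eq_mul, sub_zero] at h7
    rw [W]; linarith
  have h7 : 2 * θ * b ≤ 2 * θ * a := h5.trans (h3.trans h6)
  have h8 : 2 * θ * a < 2 * θ * b := mul_lt_mul_of_pos_left hb1 (by positivity)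
  linarith

include hδ hδ1 in
lemma value : Ut (cd δ) 0 = 1 / Real.pi * Real.log (Real.cot (Real.pi * δ / 4)) := by
  have hpi := Real.pi_pos
  have hc0 := cd_pos hδ hδ1
  rw [Ut_at_zero hc0 (cd_lt_one hδ hδ1)]
  congr 2
  set a := Real.pi * δ / 4 with ha
  have hcd : cd δ = Real.sin (2 * a) := by rw [cd, ha]; congr 1; ring
  have ha0 : 0 < a := by positivity
  have ha1 : a < Real.pi / 4 := by rw [ha]; nlinarith
  have hsin : 0 < Real.sin a := Real.sin_pos_of_pos_of_lt_pi ha0 (by linarith)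
  have hcos : 0 < Real.cos a := Real.cos_pos_of_mem_Ioo ⟨by linarith, by linarith⟩
  have hcos2 : 0 < Real.cos (2 * a) := Real.cos_pos_of_mem_Ioo ⟨by linarith, by linarith⟩
  have h1 : √(1 - cd δ ^ 2) = Real.cos (2 * a) := by
    rw [hcd]
    have : 1 - Real.sin (2 * a) ^ 2 = Real.cos (2 * a) ^ 2 := by
      linarith [Real.sin_sq_add_cos_sq (2 * a)]
    rw [this, Real.sqrt_sq hcos2.le]
  rw [h1, hcd, Real.sin_two_mul, Real.cos_two_mul, Real.cot_eq_cos_div_sin]
  field_simp
  ring

/-- the periodic set `⋃ [n-δ/2, n+δ/2]` -/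
def Eper (δ : ℝ) : Set ℝ := ⋃ n : ℤ, Icc ((n : ℝ) - δ / 2) (n + δ / 2)

include hδ hδ1 in
lemma mem_Eper_iff (t : ℝ) : t ∈ Eper δ ↔ t - 1 / 2 ∈ Et (cd δ) := by
  have hpi := Real.pi_pos
  have e1 : t - 1 / 2 ∈ Et (cd δ) ↔ |Real.sin (Real.pi * t)| ≤ cd δ := by
    show |Real.cos (Real.pi * (t - 1 / 2))| ≤ cd δ ↔ _
    have : Real.pi * (t - 1 / 2) = Real.pi * t - Real.pi / 2 := by ring
    rw [this, Real.cos_sub_pi_div_two]
  have hshift : ∀ n : ℤ, |Real.sin (Real.pi * t)| = |Real.sin (Real.pi * |t - n|)| := by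
    intro n
    have h1 : Real.pi * t = Real.pi * (t - n) + n * Real.pi := by ring
    rw [h1, Real.sin_add_int_mul_pi, abs_mul, abs_zpow, abs_neg, abs_one, one_zpow, one_mul]
    rcases abs_cases (t - (n : ℝ)) with ⟨h, _⟩ | ⟨h, _⟩
    · rw [h]
    · rw [h, mul_neg, Real.sin_neg, abs_neg]
  rw [e1, Eper, mem_iUnion]
  constructor
  · rintro ⟨n, h1, h2⟩
    have h3 : |t - n| ≤ δ / 2 := abs_le.2 ⟨by linarith, by linarith⟩
    rw [hshift n, abs_of_nonneg]
    · exact Real.sin_le_sin_of_le_of_le_pi_div_two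
        (by have := abs_nonneg (t - (n : ℝ)); nlinarith [mul_nonneg hpi.le this])
        (by nlinarith) (by nlinarith)
    · exact Real.sin_nonneg_of_nonneg_of_le_pi (by positivity) (by nlinarith)
  · intro h
    refine ⟨round t, ?_⟩
    have h1 : |t - round t| ≤ 1 / 2 := abs_sub_round t
    rw [hshift (round t), abs_of_nonneg (Real.sin_nonneg_of_nonneg_of_le_pi (by positivity)
      (by nlinarith))] at h
    have h2 : |t - round t| ≤ δ / 2 := by
      by_contra hcon
      rw [not_le] at hcon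
      have h3 : Real.sin (Real.pi * δ / 2) < Real.sin (Real.pi * |t - round t|) :=
        Real.sin_lt_sin_of_lt_of_le_pi_div_two (by nlinarith [mul_pos hpi hδ]) (by nlinarith)
          (by nlinarith)
      have h4 : Real.sin (Real.pi * |t - round t|) ≤ cd δ := h
      unfold cd at h4
      linarith
    have h3 := abs_le.1 h2
    exact ⟨by linarith [h3.1], by linarith [h3.2]⟩

lemma Eper_add_one (t : ℝ) : t + 1 ∈ Eper δ ↔ t ∈ Eper δ := by
  simp only [Eper, mem_iUnion, mem_Icc]
  constructor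
  · rintro ⟨n, h1, h2⟩
    exact ⟨n - 1, by push_cast; linarith, by push_cast; linarith⟩
  · rintro ⟨n, h1, h2⟩
    exact ⟨n + 1, by push_cast; linarith, by push_cast; linarith⟩

include hδ hδ1 in
lemma Eper_closed : IsClosed (Eper δ) := by
  have : Eper δ = (fun t : ℝ => |Real.cos (Real.pi * (t - 1 / 2))|) ⁻¹' Iic (cd δ) := by
    ext t
    rw [mem_Eper_iff hδ hδ1]; rfl
  rw [this]
  exact isClosed_Iic.preimage (by fun_prop)

include hδ hδ1 in
lemma Eper_dense : Dense 1 δ (Eper δ) := by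
  refine ⟨Eper_closed hδ hδ1, fun x => ?_⟩
  have hm : MeasurableSet (Eper δ) := (Eper_closed hδ hδ1).measurableSet
  set f : ℝ → ℝ := (Eper δ).indicator fun _ => 1 with hf
  have hper : Function.Periodic f 1 := by
    intro t
    by_cases h : t ∈ Eper δ
    · rw [hf, indicator_of_mem h, indicator_of_mem ((Eper_add_one t).2 h)]
    · rw [hf, indicator_of_notMem h, indicator_of_notMem (fun h' => h ((Eper_add_one t).1 h'))]
  have hfi : ∀ a b, IntervalIntegrable f volume a b := by
    intro a b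
    have h1 : LocallyIntegrable f volume := (locallyIntegrable_const 1).indicator hm
    exact intervalIntegrable_iff.mpr
      ((h1.integrableOn_isCompact isCompact_uIcc).mono_set uIoc_subset_uIcc)
  have h1 : ∫ t in x..(x + 1), f t = volume.real (Eper δ ∩ Ioc x (x + 1)) := by
    rw [intervalIntegral.integral_of_le (by linarith), hf, setIntegral_indicator hm,
      setIntegral_const, inter_comm]
    simp
  have h2 := hper.intervalIntegral_add_eq x (-(1 / 2))
  have h3 : δ ≤ ∫ t in (-(1 / 2 : ℝ))..(-(1 / 2) + 1), f t := by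
    have h4 : (∫ t in (-(δ / 2))..(δ / 2), f t) ≤ ∫ t in (-(1 / 2 : ℝ))..(-(1 / 2) + 1), f t := by
      rw [intervalIntegral.integral_of_le (by linarith), intervalIntegral.integral_of_le (by norm_num)]
      refine setIntegral_mono_set
        ((intervalIntegrable_iff_integrableOn_Ioc_of_le (by norm_num)).1 (hfi _ _))
        (Eventually.of_forall fun t => indicator_nonneg (fun _ _ => zero_le_one) _)
        (Eventually.of_forall (Ioc_subset_Ioc (by linarith) (by linarith)))
    refine le_trans (le_of_eq ?_) h4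
    rw [intervalIntegral.integral_congr (g := fun _ => (1 : ℝ))]
    · rw [intervalIntegral.integral_const]; simp
    · intro t ht
      rw [uIcc_of_le (by linarith)] at ht
      have : t ∈ Eper δ := by
        rw [Eper, mem_iUnion]
        exact ⟨0, by simpa using ht.1, by simpa using ht.2⟩
      simp only [hf, indicator_of_mem this]
  rw [← h2, h1] at h3
  have h4 : volume (Eper δ ∩ Ioc x (x + 1)) ≤ volume (Eper δ ∩ Icc x (x + 1)) :=
    measure_mono (inter_subset_inter_right _ Ioc_subset_Icc_self)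
  refine le_trans ?_ h4
  exact (ENNReal.ofReal_le_iff_le_toReal
    (fin_of_sub (inter_subset_right.trans Ioc_subset_Icc_self : Eper δ ∩ Ioc x (x + 1) ⊆ Icc x (x + 1)))).2 h3

/-- translating the pair `(E, U)` -/
lemma IsU.translate {E : Set ℝ} {U : ℂ → ℝ} (h : IsU E U) (s : ℝ)
    (hn : Tendsto (fun y : ℝ => U (y * Complex.I - s) / y) atTop (𝓝 1)) :
    IsU {t | t - s ∈ E} (fun z => U (z - s)) := by
  have hmem : ∀ z : ℂ, z ∈ (Complex.ofReal '' {t | t - s ∈ E})ᶜ → z - s ∈ (Complex.ofReal '' E)ᶜ := by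
    rintro z hz ⟨t, ht, he⟩
    refine hz ⟨t + s, ?_, ?_⟩
    · simpa using ht
    · push_cast; rw [he]; ring
  refine ⟨h.cont.comp (by fun_prop), fun z hz => ?_, fun z hz => h.pos _ (hmem z hz),
    fun t ht => ?_, fun z => ?_, hn⟩
  · exact harmonicAt_comp (φ := fun z => z - s) (by fun_prop) (h.harm _ (hmem z hz))
  · have := h.zero (t - s) ht
    push_cast at this
    exact this
  · have := h.symm (z - s)
    rw [map_sub, Complex.conj_ofReal] at this
    exact this

include hδ hδ1 in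
lemma Eper_isU : IsU (Eper δ) (fun z => Ut (cd δ) (z - (1 / 2 : ℝ))) := by
  have hc0 := cd_pos hδ hδ1
  have hc1 := cd_lt_one hδ hδ1
  have hU := Ut_isU hc0 hc1
  have hset : Eper δ = {t | t - (1 / 2 : ℝ) ∈ Et (cd δ)} := by
    ext t; exact mem_Eper_iff hδ hδ1 t
  rw [hset]
  refine hU.translate (1 / 2) ?_
  -- growth along the shifted line
  have hE : Dense 1 δ (Et (cd δ)) := by
    have h1 := Eper_dense hδ hδ1
    have h2 : Et (cd δ) = {t | t + 1 / 2 ∈ Eper δ} := by
      ext t
      rw [mem_ofPred_eq, mem_Eper_iff hδ hδ1]; simp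
    refine ⟨?_, fun x => ?_⟩
    · rw [h2]; exact h1.closed.preimage (by fun_prop : Continuous fun t : ℝ => t + 1 / 2)
    · have h3 := h1.dens (x + 1 / 2)
      have h4 : Et (cd δ) ∩ Icc x (x + 1) =
          (fun t : ℝ => t + 1 / 2) ⁻¹' (Eper δ ∩ Icc (x + 1 / 2) (x + 1 / 2 + 1)) := by
        ext t
        rw [h2]
        simp only [mem_inter_iff, mem_ofPred_eq, mem_Icc, mem_preimage]
        constructor
        · rintro ⟨a, b, c⟩; exact ⟨a, by linarith, by linarith⟩
        · rintro ⟨a, b, c⟩; exact ⟨a, by linarith, by linarith⟩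
      rw [h4, measure_preimage_add_right]
      exact h3
  obtain ⟨C, hC0, hC⟩ := hU.bdd hE hδ hδ1.le
  have h1 : ∀ y : ℝ, (y : ℂ) * Complex.I - ((1 / 2 : ℝ) : ℂ) = ((-(1 / 2) : ℝ) : ℂ) + y * Complex.I := by
    intro y; push_cast; ring
  simp_rw [h1]
  have h2 : Tendsto (fun y : ℝ => 1 + C / y) atTop (𝓝 (1 + 0)) :=
    tendsto_const_nhds.add (tendsto_id.const_div_atTop C)
  rw [add_zero] at h2
  refine tendsto_of_tendsto_of_tendsto_of_le_of_le' tendsto_const_nhds h2 ?_ ?_
  · filter_upwards [eventually_gt_atTop 0] with y hy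
    rw [le_div_iff₀ hy, one_mul]
    have := hU.ge_abs (-(1 / 2)) y
    rwa [abs_of_pos hy] at this
  · filter_upwards [eventually_gt_atTop 0] with y hy
    rw [div_le_iff₀ hy]
    have := hU.le_abs hC (-(1 / 2)) y
    rw [abs_of_pos hy] at this
    have e : (1 + C / y) * y = y + C := by field_simp
    rw [e]; exact this

end

end Pool.Agent.W773.RD
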