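import Pool.Agent.W773.RD.Scale

set_option autoImplicit false

open Filter Metric Set Topology MeasureTheory InnerProductSpace
open scoped ComplexConjugate ENNReal

namespace Pool.Agent.W773.RD

lemma maxP {u : ℂ → ℝ} (hu : Continuous u) (hloc : ∀ a ∈ ball (0 : ℂ) 1, LocSub u a)
    {P : Polynomial ℂ} (hP : ∀ ζ : ℂ, ‖ζ‖ = 1 → u ζ ≤ (P.eval ζ).re) {z : ℂ}
    (hz : z ∈ ball (0 : ℂ) 1) : u z ≤ (P.eval z).re := by
  by_contra hlt
  rw [not_le] at hlt
  set ε := (u z - (P.eval z).re) / 2 with hε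
  have hε0 : 0 < ε := by rw [hε]; linarith
  have hPd : Differentiable ℂ (fun ζ => P.eval ζ) := P.differentiable
  set k : ℂ → ℝ := fun ζ => -(P.eval ζ).re + ε * ‖ζ‖ ^ 2 with hk
  have hkc : Continuous k := by
    have := hPd.continuous
    simp only [hk]; fun_prop
  obtain ⟨a, ha, hmax⟩ := (isCompact_closedBall (0 : ℂ) 1).exists_isMaxOn ⟨0, by simp⟩
    (hu.add hkc).continuousOn
  have hmax' : ∀ ζ ∈ closedBall (0 : ℂ) 1, u ζ + k ζ ≤ u a + k a := fun ζ hζ => hmax hζ
  have h0 : 2 * ε ≤ u a + k a := by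
    refine le_trans ?_ (hmax' z (ball_subset_closedBall hz))
    simp only [hk]
    have : u z = (P.eval z).re + 2 * ε := by rw [hε]; ring
    have h2 : 0 ≤ ε * ‖z‖ ^ 2 := by positivity
    linarith
  have hain : a ∈ ball (0 : ℂ) 1 := by
    rw [mem_ball_zero_iff]
    have ha' : ‖a‖ ≤ 1 := by simpa using ha
    refine lt_of_le_of_ne ha' fun hn => ?_
    have h2 := hP a hn
    simp only [hk, hn] at h0
    nlinarith
  have hr : ∀ᶠ r in 𝓝[>] (0 : ℝ), closedBall a r ⊆ ball (0 : ℂ) 1 := by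
    obtain ⟨δ, hδ, hsub⟩ := Metric.isOpen_iff.1 isOpen_ball a hain
    filter_upwards [Ioo_mem_nhdsGT hδ] with r hr
    exact (closedBall_subset_ball hr.2).trans hsub
  obtain ⟨r, ⟨hsub, hsm⟩, hr0⟩ := ((hr.and (hloc a hain)).and self_mem_nhdsWithin).exists
  have hr0' : 0 < r := hr0
  set M := u a + k a with hM
  let G : ℂ → ℝ := fun ζ =>
    ((P.eval ζ - 2 * ε * (conj a * (ζ - a)) + ((M - ε * (‖a‖ ^ 2 + r ^ 2) : ℝ) : ℂ))).re
  have hGd : Differentiable ℂ (fun ζ => P.eval ζ - 2 * ε * (conj a * (ζ - a)) +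
      ((M - ε * (‖a‖ ^ 2 + r ^ 2) : ℝ) : ℂ)) := by fun_prop
  have hGc : Continuous G := Complex.continuous_re.comp hGd.continuous
  have hGavg : Real.circleAverage G a r = (P.eval a).re + (M - ε * (‖a‖ ^ 2 + r ^ 2)) := by
    rw [circleAverage_re hGd]
    rw [sub_self, mul_zero, mul_zero, sub_zero, Complex.add_re, Complex.ofReal_re]
  have h1 : u a ≤ Real.circleAverage G a r := by
    refine hsm.trans (Real.circleAverage_mono hu.continuousOn.circleIntegrable'
      hGc.continuousOn.circleIntegrable' fun ζ hζ => ?_)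
    have hζ : ‖ζ - a‖ = r := by
      have := hζ
      rw [mem_sphere, dist_eq_norm, abs_of_pos hr0'] at this
      exact this
    have hζ1 : ζ ∈ closedBall (0 : ℂ) 1 :=
      ball_subset_closedBall (hsub (by rw [mem_closedBall, dist_eq_norm, hζ]))
    have h2 := hmax' ζ hζ1
    have h3 : ‖ζ‖ ^ 2 = ‖a‖ ^ 2 + r ^ 2 + 2 * (conj a * (ζ - a)).re := by
      have e1 : ζ = a + (ζ - a) := by ring
      have e2 : ‖a + (ζ - a)‖ ^ 2 = ‖a‖ ^ 2 + ‖ζ - a‖ ^ 2 + 2 * (conj a * (ζ - a)).re := by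
        rw [← Complex.normSq_eq_norm_sq, ← Complex.normSq_eq_norm_sq, ← Complex.normSq_eq_norm_sq,
          Complex.normSq_add]
        congr 2
        rw [← Complex.conj_re]
        simp [mul_comm]
      rw [← e1, hζ] at e2
      exact e2
    simp only [hk] at h2 hM
    have h4 : G ζ = (P.eval ζ).re - 2 * ε * (conj a * (ζ - a)).re +
        (M - ε * (‖a‖ ^ 2 + r ^ 2)) := by
      simp only [G, Complex.add_re, Complex.sub_re, Complex.ofReal_re]
      congr 2
      have : (2 * (ε : ℂ) * (conj a * (ζ - a))) = ((2 * ε : ℝ) : ℂ) * (conj a * (ζ - a)) := by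
        push_cast; ring
      rw [this, Complex.re_ofReal_mul]
    rw [h4, h3] at *
    nlinarith
  rw [hGavg] at h1
  simp only [hk] at hM
  nlinarith [mul_pos hε0 (pow_pos hr0' 2)]

/-- Harnack type lower bound for functions with the local super-mean value property -/
lemma harnack_super {v : ℂ → ℝ} (hv : Continuous v)
    (hloc : ∀ a ∈ ball (0 : ℂ) 1, LocSub (fun z => -v z) a) (h0 : ∀ ζ : ℂ, ‖ζ‖ = 1 → 0 ≤ v ζ)
    {z : ℂ} (hz : z ∈ ball (0 : ℂ) 1) :
    (1 - ‖z‖) / (1 + ‖z‖) * Real.circleAverage v 0 1 ≤ v z := by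
  have hz1 : ‖z‖ < 1 := by simpa using hz
  refine le_of_forall_pos_le_add fun ε' hε' => ?_
  set ε := ε' / 2 with hε
  have hε0 : 0 < ε := by positivity
  obtain ⟨P, hP⟩ := exists_poly_approx hv hε0
  have h1 := maxP (u := fun z => -v z) hv.neg hloc (P := -P + Polynomial.C (ε : ℂ)) (fun ζ hζ => by
    simp only [Polynomial.eval_add, Polynomial.eval_neg, Polynomial.eval_C, Complex.add_re,
      Complex.neg_re, Complex.ofReal_re]
    have := abs_lt.1 (hP ζ hζ)
    linarith [this.1]) hz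
  simp only [Polynomial.eval_add, Polynomial.eval_neg, Polynomial.eval_C, Complex.add_re,
      Complex.neg_re, Complex.ofReal_re] at h1
  set R : ℂ → ℝ := fun ζ => ((P + Polynomial.C (ε : ℂ)).eval ζ).re with hR
  have hRc : Continuous R := Complex.continuous_re.comp (Polynomial.continuous _)
  have hRh : HarmonicOnNhd R (closedBall 0 1) := fun ζ _ =>
    (AnalyticAt.harmonicAt_re ((P + Polynomial.C (ε : ℂ)).differentiable.analyticAt ζ))
  have h2 := hRh.circleAverage_poissonKernel_smul hz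
  have hRv : ∀ ζ : ℂ, ‖ζ‖ = 1 → v ζ ≤ R ζ := by
    intro ζ hζ
    simp only [hR, Polynomial.eval_add, Polynomial.eval_C, Complex.add_re, Complex.ofReal_re]
    have := abs_lt.1 (hP ζ hζ)
    linarith [this.2]
  have h3 : Real.circleAverage (fun ζ => (1 - ‖z‖) / (1 + ‖z‖) * v ζ) 0 1 ≤
      Real.circleAverage (poissonKernel 0 z • R) 0 1 := by
    refine Real.circleAverage_mono ?_ ?_ fun ζ hζ => ?_
    · exact (continuous_const.mul hv).continuousOn.circleIntegrable'
    · refine ContinuousOn.circleIntegrable' ?_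
      have h5 : ContinuousOn (poissonKernel 0 z) (sphere 0 |1|) := by
        rw [poissonKernel_eq_re_herglotzRieszKernel]
        exact Complex.continuous_re.comp_continuousOn (continuousOn_herglotzRieszKernel_sphere hz)
      exact h5.smul hRc.continuousOn
    · have hζ1 : ‖ζ‖ = 1 := by simpa using hζ
      have h5 : (1 - ‖z‖) / (1 + ‖z‖) ≤ poissonKernel 0 z ζ := by
        rw [poissonKernel_eq_re_herglotzRieszKernel]
        have := le_re_herglotzRieszKernel (c := 0) (R := 1) (z := ζ) (w := z) (by simpa using hζ1) hz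
        simpa [herglotzRieszKernel_def] using this
      have h6 : 0 ≤ (1 - ‖z‖) / (1 + ‖z‖) := div_nonneg (by linarith) (by positivity)
      show (1 - ‖z‖) / (1 + ‖z‖) * v ζ ≤ poissonKernel 0 z ζ * R ζ
      exact mul_le_mul h5 (hRv ζ hζ1) (h0 ζ hζ1) (h6.trans h5)
  rw [h2] at h3
  have h4 : Real.circleAverage (fun ζ => (1 - ‖z‖) / (1 + ‖z‖) * v ζ) 0 1 =
      (1 - ‖z‖) / (1 + ‖z‖) * Real.circleAverage v 0 1 :=
    Real.circleAverage_fun_smul (a := (1 - ‖z‖) / (1 + ‖z‖))
  rw [h4] at h3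
  simp only [hR, Polynomial.eval_add, Polynomial.eval_C, Complex.add_re, Complex.ofReal_re] at h3
  rw [hε] at h1 h3
  linarith

end Pool.Agent.W773.RD
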