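import Pool.Agent.W773.RD.AB

set_option autoImplicit false

open Filter Metric Set Topology MeasureTheory InnerProductSpace
open scoped ComplexConjugate ENNReal

namespace Pool.Agent.W773.RD

lemma exists_max {w : ℂ → ℝ} (hw : Continuous w) (h0 : ∀ z, 0 ≤ w z) {G : ℝ → ℝ → ℝ}
    (hG : Continuous fun p : ℝ × ℝ => G p.1 p.2) {X Y Λ : ℝ} (hΛ0 : 0 ≤ Λ)
    (hΛ : ∀ x y : ℝ, |y| ≤ Y → w ((x : ℝ) + y * Complex.I) ≤ Λ)
    (hout : ∀ (x y : ℝ) (F : Set ℝ), MeasurableSet F → F ⊆ Icc x (x + 1) → (X < |x| ∨ Y < |y|) →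
      ∫ t in F, w ((t : ℝ) + y * Complex.I) ≤ G (volume.real F / 2) y)
    (hpos : ∃ (x y : ℝ) (F : Set ℝ), MeasurableSet F ∧ F ⊆ Icc x (x + 1) ∧
      G (volume.real F / 2) y < ∫ t in F, w ((t : ℝ) + y * Complex.I)) :
    ∃ (x₀ y₀ : ℝ) (F₀ : Set ℝ), MeasurableSet F₀ ∧ F₀ ⊆ Icc x₀ (x₀ + 1) ∧
      G (volume.real F₀ / 2) y₀ < (∫ t in F₀, w ((t : ℝ) + y₀ * Complex.I)) ∧
      ∀ (x y : ℝ) (F : Set ℝ), MeasurableSet F → F ⊆ Icc x (x + 1) →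
        (∫ t in F, w ((t : ℝ) + y * Complex.I)) - G (volume.real F / 2) y ≤
        (∫ t in F₀, w ((t : ℝ) + y₀ * Complex.I)) - G (volume.real F₀ / 2) y₀ := by
  set Q : (ℝ × ℝ × ℝ) → ℝ → ℝ := fun p l => 2 * p.1 * l +
    ∫ t in (0 : ℝ)..1, max (w ((p.2.1 + t : ℝ) + p.2.2 * Complex.I) - l) 0 with hQ
  have hQc : Continuous (Function.uncurry Q) := by
    have h1 : Continuous fun q : (ℝ × ℝ × ℝ) × ℝ =>
        ∫ t in (0 : ℝ)..1, max (w ((q.1.2.1 + t : ℝ) + q.1.2.2 * Complex.I) - q.2) 0 := by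
      refine intervalIntegral.continuous_parametric_intervalIntegral_of_continuous' ?_ 0 1
      have h2 : Continuous fun r : ((ℝ × ℝ × ℝ) × ℝ) × ℝ =>
          w ((r.1.1.2.1 + r.2 : ℝ) + r.1.1.2.2 * Complex.I) := hw.comp (by fun_prop)
      exact (h2.sub (by fun_prop)).max continuous_const
    have h3 : Continuous fun q : (ℝ × ℝ × ℝ) × ℝ => 2 * q.1.1 * q.2 := by fun_prop
    exact h3.add h1
  set M : (ℝ × ℝ × ℝ) → ℝ := fun p => sInf (Q p '' Icc 0 Λ) with hM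
  have hMc : Continuous M := IsCompact.continuous_sInf isCompact_Icc hQc
  have hwl : ∀ y : ℝ, Continuous fun t : ℝ => w ((t : ℝ) + y * Complex.I) := fun y =>
    hw.comp (by fun_prop)
  have hQeq : ∀ (θ x y l : ℝ), Q (θ, x, y) l = 2 * θ * l +
      ∫ t in Icc x (x + 1), max (w ((t : ℝ) + y * Complex.I) - l) 0 := by
    intro θ x y l
    simp only [hQ]
    congr 1
    rw [integral_Icc_eq_integral_Ioc, ← intervalIntegral.integral_of_le (by linarith)]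
    have h2 := intervalIntegral.integral_comp_add_left (a := 0) (b := 1)
      (fun t : ℝ => max (w ((t : ℝ) + y * Complex.I) - l) 0) x
    rw [add_zero] at h2
    exact h2
  have fact1 : ∀ (x y : ℝ) (F : Set ℝ), F ⊆ Icc x (x + 1) →
      ∫ t in F, w ((t : ℝ) + y * Complex.I) ≤ M (volume.real F / 2, x, y) := by
    intro x y F hF
    refine le_csInf ⟨_, 0, ⟨le_rfl, hΛ0⟩, rfl⟩ ?_
    rintro _ ⟨l, _, rfl⟩
    rw [hQeq]
    have := bath_le (hwl y) (l := l) hF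
    have e : 2 * (volume.real F / 2) * l = volume.real F * l := by ring
    rw [e]; exact this
  have fact2 : ∀ θ x y : ℝ, 0 ≤ θ → θ ≤ 1 / 2 → |y| ≤ Y → ∃ F, MeasurableSet F ∧
      F ⊆ Icc x (x + 1) ∧ volume.real F = 2 * θ ∧
      M (θ, x, y) ≤ ∫ t in F, w ((t : ℝ) + y * Complex.I) := by
    intro θ x y h1 h2 h3
    obtain ⟨F, hFm, hFs, hFv, l, hl, hint⟩ := bath_eq (hwl y) (x := x) h1 h2 (fun t _ => h0 _)
      (fun t _ => hΛ t y h3)
    refine ⟨F, hFm, hFs, hFv, ?_⟩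
    rw [hint]
    refine csInf_le ⟨0, ?_⟩ ⟨l, hl, hQeq θ x y l⟩
    rintro _ ⟨l', hl', rfl⟩
    rw [hQeq]
    have h4 : 0 ≤ ∫ t in Icc x (x + 1), max (w ((t : ℝ) + y * Complex.I) - l') 0 :=
      integral_nonneg fun t => le_max_right _ _
    have h5 := hl'.1
    positivity
  have hvF : ∀ (x : ℝ) (F : Set ℝ), F ⊆ Icc x (x + 1) → volume.real F / 2 ∈ Icc (0 : ℝ) (1 / 2) := by
    intro x F hF
    have h1 : volume.real F ≤ volume.real (Icc x (x + 1)) :=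
      measureReal_mono hF (fin_of_sub Subset.rfl)
    rw [Real.volume_real_Icc_of_le (by linarith)] at h1
    have h2 : 0 ≤ volume.real F := measureReal_nonneg
    constructor <;> linarith
  set K : Set (ℝ × ℝ × ℝ) := Icc 0 (1 / 2) ×ˢ Icc (-X) X ×ˢ Icc (-Y) Y with hK
  have hKc : IsCompact K := isCompact_Icc.prod (isCompact_Icc.prod isCompact_Icc)
  obtain ⟨x, y, F, hFm, hFs, hlt⟩ := hpos
  have hxy : |x| ≤ X ∧ |y| ≤ Y := by
    by_contra hcon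
    rw [not_and_or, not_le, not_le] at hcon
    exact absurd (hout x y F hFm hFs hcon) (not_le.2 hlt)
  have hpK : ((volume.real F / 2, x, y) : ℝ × ℝ × ℝ) ∈ K := ⟨hvF x F hFs, abs_le.1 hxy.1, abs_le.1 hxy.2⟩
  have hHc : Continuous fun p : ℝ × ℝ × ℝ => M p - G p.1 p.2.2 :=
    hMc.sub (hG.comp (by fun_prop : Continuous fun p : ℝ × ℝ × ℝ => (p.1, p.2.2)))
  obtain ⟨p₀, hp₀, hmax⟩ := hKc.exists_isMaxOn ⟨_, hpK⟩ hHc.continuousOn
  obtain ⟨θ₀, x₀, y₀⟩ := p₀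
  obtain ⟨⟨hθ1, hθ2⟩, hx₀, hy₀⟩ := hp₀
  obtain ⟨F₀, hF₀m, hF₀s, hF₀v, hF₀i⟩ := fact2 θ₀ x₀ y₀ hθ1 hθ2 (abs_le.2 hy₀)
  have hF₀v' : volume.real F₀ / 2 = θ₀ := by rw [hF₀v]; ring
  have hmax' : ∀ p ∈ K, M p - G p.1 p.2.2 ≤ M (θ₀, x₀, y₀) - G θ₀ y₀ := fun p hp => hmax hp
  have hpos₀ : 0 < M (θ₀, x₀, y₀) - G θ₀ y₀ := by
    have h1 := hmax' _ hpK
    have h2 := fact1 x y F hFs
    simp only at h1
    linarith
  refine ⟨x₀, y₀, F₀, hF₀m, hF₀s, ?_, fun x y F hFm hFs => ?_⟩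
  · rw [hF₀v']; linarith
  · rw [hF₀v']
    by_cases hxy : |x| ≤ X ∧ |y| ≤ Y
    · have h1 := hmax' (volume.real F / 2, x, y) ⟨hvF x F hFs, abs_le.1 hxy.1, abs_le.1 hxy.2⟩
      have h2 := fact1 x y F hFs
      simp only at h1
      linarith
    · rw [not_and_or, not_le, not_le] at hxy
      have := hout x y F hFm hFs hxy
      linarith

end Pool.Agent.W773.RD
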