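import Pool.Agent.W773.RD.Submean

set_option autoImplicit false

open Filter Metric Set Topology MeasureTheory InnerProductSpace
open scoped ComplexConjugate

namespace Pool.Agent.W773.RD

/-- Poisson kernel of the upper half plane -/
noncomputable def P (y t : ℝ) : ℝ := y / (Real.pi * (t ^ 2 + y ^ 2))

/-- arclength parametrisation of the circle with centre `iR` and radius `R` -/
noncomputable def zt (R t : ℝ) : ℂ := ⟨R * Real.sin (t / R), R * (1 - Real.cos (t / R))⟩

/-- kernel -/
noncomputable def kk (R : ℝ) (w ζ : ℂ) : ℝ := (w.im - ‖w‖ ^ 2 / (2 * R)) / (Real.pi * ‖ζ - w‖ ^ 2)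

lemma circleMap_zt (R t : ℝ) : circleMap (R * Complex.I) R (t / R + -(Real.pi / 2)) = zt R t := by
  have e : ((t / R + -(Real.pi / 2) : ℝ) : ℂ) * Complex.I =
    ((t / R - Real.pi / 2 : ℝ) : ℂ) * Complex.I := by rw [sub_eq_add_neg]
  rw [circleMap, e]
  apply Complex.ext
  · simp only [Complex.add_re, Complex.mul_re, Complex.ofReal_re, Complex.ofReal_im, Complex.I_re,
      Complex.I_im, Complex.exp_ofReal_mul_I_re, Complex.exp_ofReal_mul_I_im, zt]
    rw [Real.cos_sub_pi_div_two]; ring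
  · simp only [Complex.add_im, Complex.mul_im, Complex.ofReal_re, Complex.ofReal_im, Complex.I_re,
      Complex.I_im, Complex.exp_ofReal_mul_I_re, Complex.exp_ofReal_mul_I_im, zt]
    rw [Real.sin_sub_pi_div_two]; ring

lemma mem_ball_iff' {R : ℝ} (hR : 0 < R) {w : ℂ} :
    w ∈ ball ((R : ℂ) * Complex.I) R ↔ ‖w‖ ^ 2 < 2 * R * w.im := by
  rw [mem_ball, dist_eq_norm, ← abs_of_pos hR, ← abs_norm (w - _), ← sq_lt_sq,
    ← Complex.normSq_eq_norm_sq, ← Complex.normSq_eq_norm_sq, Complex.normSq_apply,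
    Complex.normSq_apply]
  simp only [Complex.sub_re, Complex.sub_im, Complex.mul_re, Complex.mul_im, Complex.ofReal_re,
    Complex.ofReal_im, Complex.I_re, Complex.I_im, abs_of_pos hR]
  constructor <;> intro h <;> nlinarith

lemma disc_formula {g : ℂ → ℝ} (hg : Continuous g) (hh : ∀ z : ℂ, 0 < z.im → HarmonicAt g z)
    {R : ℝ} (hR : 0 < R) {w : ℂ} (hw : ‖w‖ ^ 2 < 2 * R * w.im) :
    g w = ∫ t in (-(Real.pi * R))..(Real.pi * R), kk R w (zt R t) * g (zt R t) := by
  set c : ℂ := (R : ℂ) * Complex.I with hc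
  have hw' : w ∈ ball c R := (mem_ball_iff' hR).2 hw
  have hcont : HarmonicContOnCl g (ball c R) := by
    refine ⟨fun z hz => hh z ?_, hg.continuousOn⟩
    have := (mem_ball_iff' hR).1 hz
    by_contra hcon
    have h1 : R * z.im ≤ 0 := mul_nonpos_of_nonneg_of_nonpos hR.le (not_lt.1 hcon)
    nlinarith [sq_nonneg ‖z‖]
  have h1 := hcont.circleAverage_poissonKernel_smul hw'
  rw [← h1, Real.circleAverage_eq_integral_add (-(Real.pi / 2))]
  set φ : ℝ → ℝ := fun θ => (poissonKernel c w • g) (circleMap c R (θ + -(Real.pi / 2))) with hφ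
  have hper : Function.Periodic φ (2 * Real.pi) := by
    intro θ
    simp only [hφ]
    congr 1
    have := periodic_circleMap c R (θ + -(Real.pi / 2))
    rw [← this]; ring_nf
  have h2 : ∫ θ in (0 : ℝ)..2 * Real.pi, φ θ = ∫ θ in (-Real.pi)..Real.pi, φ θ := by
    have := hper.intervalIntegral_add_eq 0 (-Real.pi)
    rw [zero_add] at this
    rw [this]; ring_nf
  rw [h2]
  have h3 := intervalIntegral.integral_comp_div (a := -(Real.pi * R)) (b := Real.pi * R) φ hR.ne'
  have e1 : -(Real.pi * R) / R = -Real.pi := by field_simp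
  have e2 : Real.pi * R / R = Real.pi := by field_simp
  rw [e1, e2] at h3
  have h4 : ∫ θ in (-Real.pi)..Real.pi, φ θ = R⁻¹ * ∫ t in (-(Real.pi * R))..(Real.pi * R), φ (t / R) := by
    rw [h3, smul_eq_mul, ← mul_assoc, inv_mul_cancel₀ hR.ne', one_mul]
  rw [h4, smul_eq_mul, ← mul_assoc, ← intervalIntegral.integral_const_mul]
  refine intervalIntegral.integral_congr fun t _ => ?_
  simp only [hφ]
  have e3 := circleMap_zt R t
  rw [← hc] at e3
  rw [e3]
  show _ * (poissonKernel c w (zt R t) * g (zt R t)) = _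
  rw [← mul_assoc]
  congr 1
  rw [poissonKernel_def, kk]
  have e4 : ‖zt R t - c‖ = R := by
    rw [← e3, ← dist_eq_norm]
    have := circleMap_mem_sphere' c R (t / R + -(Real.pi / 2))
    rw [mem_sphere, abs_of_pos hR] at this
    exact this
  have e5 : ‖w - c‖ ^ 2 = ‖w‖ ^ 2 - 2 * R * w.im + R ^ 2 := by
    rw [← Complex.normSq_eq_norm_sq, ← Complex.normSq_eq_norm_sq, Complex.normSq_apply,
      Complex.normSq_apply, hc]
    simp only [Complex.sub_re, Complex.sub_im, Complex.mul_re, Complex.mul_im, Complex.ofReal_re,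
      Complex.ofReal_im, Complex.I_re, Complex.I_im]
    ring
  have e6 : zt R t - c - (w - c) = zt R t - w := by ring
  rw [e4, e5, e6]
  have hpi := Real.pi_pos
  by_cases h0 : ‖zt R t - w‖ = 0
  · simp [h0]
  · field_simp
    ring

lemma continuous_zt (R : ℝ) : Continuous (zt R) := by
  unfold zt
  have h1 : Continuous fun t : ℝ => R * Real.sin (t / R) := by fun_prop
  have h2 : Continuous fun t : ℝ => R * (1 - Real.cos (t / R)) := by fun_prop
  exact Complex.equivRealProdCLM.symm.continuous.comp (h1.prodMk h2)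

lemma norm_zt (R t : ℝ) : ‖zt R t‖ = 2 * |R * Real.sin (t / R / 2)| := by
  have h1 : ‖zt R t‖ ^ 2 = (2 * |R * Real.sin (t / R / 2)|) ^ 2 := by
    rw [← Complex.normSq_eq_norm_sq, Complex.normSq_apply, mul_pow, sq_abs, mul_pow,
      Real.sin_sq_eq_half_sub]
    simp only [zt]
    have e : 2 * (t / R / 2) = t / R := by ring
    rw [e]
    have := Real.sin_sq_add_cos_sq (t / R)
    nlinarith
  have h2 := abs_eq_abs.1 ((sq_eq_sq_iff_abs_eq_abs _ _).1 h1)
  rcases h2 with h | h
  · exact h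
  · have : 0 ≤ ‖zt R t‖ := norm_nonneg _
    have h4 : 0 ≤ 2 * |R * Real.sin (t / R / 2)| := by positivity
    linarith

lemma norm_zt_le {R : ℝ} (hR : 0 < R) (t : ℝ) : ‖zt R t‖ ≤ |t| := by
  rw [norm_zt, abs_mul, abs_of_pos hR]
  have h1 : |Real.sin (t / R / 2)| ≤ |t / R / 2| := Real.abs_sin_le_abs
  have h2 : |t / R / 2| = |t| / R / 2 := by
    rw [abs_div, abs_div, abs_of_pos hR, abs_of_pos (by norm_num : (0 : ℝ) < 2)]
  rw [h2] at h1
  calc 2 * (R * |Real.sin (t / R / 2)|) ≤ 2 * (R * (|t| / R / 2)) := by gcongr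
    _ = |t| := by field_simp

lemma le_norm_zt {R : ℝ} (hR : 0 < R) {t : ℝ} (ht : |t| ≤ Real.pi * R) : |t| / 2 ≤ ‖zt R t‖ := by
  rw [norm_zt, abs_mul, abs_of_pos hR]
  have h2 : |t / R / 2| = |t| / R / 2 := by
    rw [abs_div, abs_div, abs_of_pos hR, abs_of_pos (by norm_num : (0 : ℝ) < 2)]
  have h1 : 2 / Real.pi * |t / R / 2| ≤ |Real.sin (t / R / 2)| := by
    refine Real.mul_abs_le_abs_sin ?_
    rw [h2]
    have : |t| / R ≤ Real.pi := by rwa [div_le_iff₀ hR]
    linarith
  rw [h2] at h1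
  have hpi := Real.pi_pos
  have hpi4 := Real.pi_le_four
  calc |t| / 2 ≤ 2 * (R * (2 / Real.pi * (|t| / R / 2))) := by
        have : 2 * (R * (2 / Real.pi * (|t| / R / 2))) = |t| * (2 / Real.pi) := by field_simp
        rw [this]
        have : (1 : ℝ) / 2 ≤ 2 / Real.pi := by
          rw [div_le_div_iff₀ (by norm_num) hpi]; linarith
        calc |t| / 2 = |t| * (1 / 2) := by ring
          _ ≤ _ := by gcongr
    _ ≤ _ := by gcongr

lemma zt_im_nonneg {R : ℝ} (hR : 0 < R) (t : ℝ) : 0 ≤ (zt R t).im := by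
  simp only [zt]
  exact mul_nonneg hR.le (by linarith [Real.cos_le_one (t / R)])

lemma zt_im_le {R : ℝ} (hR : 0 < R) (t : ℝ) : (zt R t).im ≤ t ^ 2 / (2 * R) := by
  simp only [zt]
  have := Real.one_sub_sq_div_two_le_cos (x := t / R)
  calc R * (1 - Real.cos (t / R)) ≤ R * ((t / R) ^ 2 / 2) := by gcongr; linarith
    _ = _ := by field_simp

lemma tendsto_zt (t : ℝ) : Tendsto (fun n : ℕ => zt n t) atTop (𝓝 (t : ℂ)) := by
  have him : Tendsto (fun n : ℕ => (zt n t).im) atTop (𝓝 0) := by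
    have h1 : Tendsto (fun n : ℕ => t ^ 2 / (2 * (n : ℝ))) atTop (𝓝 0) :=
      (tendsto_natCast_atTop_atTop.const_mul_atTop (by norm_num : (0 : ℝ) < 2)).const_div_atTop _
    refine squeeze_zero' ?_ ?_ h1
    · filter_upwards [eventually_gt_atTop 0] with n hn
      exact zt_im_nonneg (by exact_mod_cast hn) t
    · filter_upwards [eventually_gt_atTop 0] with n hn
      exact zt_im_le (by exact_mod_cast hn) t
  have hre : Tendsto (fun n : ℕ => (zt n t).re) atTop (𝓝 t) := by
    simp only [zt]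
    rcases eq_or_ne t 0 with rfl | ht
    · simp
    have h1 : Tendsto (fun n : ℕ => t / (n : ℝ)) atTop (𝓝[≠] 0) := by
      refine tendsto_nhdsWithin_of_tendsto_nhds_of_eventually_within _
        (tendsto_natCast_atTop_atTop.const_div_atTop _) ?_
      filter_upwards [eventually_gt_atTop 0] with n hn
      have : (n : ℝ) ≠ 0 := by exact_mod_cast hn.ne'
      exact div_ne_zero ht this
    have h2 : Tendsto (fun x : ℝ => x⁻¹ * Real.sin x) (𝓝[≠] 0) (𝓝 1) := by
      have := (Real.hasDerivAt_sin 0).tendsto_slope_zero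
      simpa using this
    have h3 := (h2.comp h1).const_mul t
    rw [mul_one] at h3
    refine h3.congr' ?_
    filter_upwards [eventually_gt_atTop 0] with n hn
    have : (n : ℝ) ≠ 0 := by exact_mod_cast hn.ne'
    simp only [Function.comp]
    field_simp
  have h : Tendsto (fun n : ℕ => ((zt n t).re, (zt n t).im)) atTop (𝓝 (t, 0)) := hre.prodMk_nhds him
  have h' := (Complex.equivRealProdCLM.symm.continuous.tendsto (t, (0 : ℝ))).comp h
  have e : Complex.equivRealProdCLM.symm (t, (0 : ℝ)) = (t : ℂ) := by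
    rw [Complex.equivRealProdCLM_symm_apply]; simp
  rw [e] at h'
  exact h'.congr fun n => by
    simp only [Function.comp, Complex.equivRealProdCLM_symm_apply]
    exact Complex.re_add_im _

end Pool.Agent.W773.RD
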