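import Pool.Agent.W773.RD.Repr1

set_option autoImplicit false

open Filter Metric Set Topology MeasureTheory InnerProductSpace
open scoped ComplexConjugate

namespace Pool.Agent.W773.RD

lemma fatou' {F : ℕ → ℝ → ℝ} {h : ℝ → ℝ} {C : ℝ} (hint : ∀ᶠ n in atTop, Integrable (F n))
    (hnn : ∀ᶠ n in atTop, ∀ t, 0 ≤ F n t) (hlim : ∀ t, Tendsto (fun n => F n t) atTop (𝓝 (h t)))
    (hC : ∀ᶠ n in atTop, ∫ t, F n t ≤ C) : Integrable h ∧ ∫ t, h t ≤ C := by
  obtain ⟨N, hN⟩ := eventually_atTop.1 (hint.and (hnn.and hC))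
  set G : ℕ → ℝ → ℝ := fun n => F (n + N) with hG
  have hGi : ∀ n, Integrable (G n) := fun n => (hN (n + N) (by omega)).1
  have hGn : ∀ n t, 0 ≤ G n t := fun n => (hN (n + N) (by omega)).2.1
  have hGC : ∀ n, ∫ t, G n t ≤ C := fun n => (hN (n + N) (by omega)).2.2
  have hGl : ∀ t, Tendsto (fun n => G n t) atTop (𝓝 (h t)) := fun t =>
    (hlim t).comp (tendsto_add_atTop_nat N)
  have hh0 : ∀ t, 0 ≤ h t := fun t => ge_of_tendsto' (hGl t) fun n => hGn n t
  have hmeas : AEStronglyMeasurable h volume :=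
    aestronglyMeasurable_of_tendsto_ae atTop (fun n => (hGi n).1) (Eventually.of_forall hGl)
  have hC0 : 0 ≤ C := (integral_nonneg (hGn 0)).trans (hGC 0)
  have key : ∫⁻ t, ENNReal.ofReal (h t) ≤ ENNReal.ofReal C := by
    have h1 : ∀ t, ENNReal.ofReal (h t) = liminf (fun n => ENNReal.ofReal (G n t)) atTop := fun t =>
      ((ENNReal.continuous_ofReal.tendsto _).comp (hGl t)).liminf_eq.symm
    simp_rw [h1]
    refine (lintegral_liminf_le' fun n => (hGi n).1.aemeasurable.ennreal_ofReal).trans ?_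
    refine liminf_le_of_frequently_le' (Frequently.of_forall fun n => ?_)
    rw [← ofReal_integral_eq_lintegral_ofReal (hGi n) (Eventually.of_forall (hGn n))]
    exact ENNReal.ofReal_le_ofReal (hGC n)
  have hi : Integrable h := by
    refine ⟨hmeas, ?_⟩
    rw [hasFiniteIntegral_iff_ofReal (Eventually.of_forall hh0)]
    exact key.trans_lt ENNReal.ofReal_lt_top
  refine ⟨hi, ?_⟩
  rw [← ofReal_integral_eq_lintegral_ofReal hi (Eventually.of_forall hh0)] at key
  exact (ENNReal.ofReal_le_ofReal_iff hC0).1 key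

/-- truncated integrand -/
noncomputable def FF (g : ℂ → ℝ) (n : ℕ) (w : ℂ) : ℝ → ℝ :=
  indicator (Ioc (-(Real.pi * n)) (Real.pi * n)) fun t => kk n w (zt n t) * g (zt n t)

lemma norm_sq_zt (R t : ℝ) : ‖zt R t‖ ^ 2 = 2 * R * (zt R t).im := by
  rw [← Complex.normSq_eq_norm_sq, Complex.normSq_apply]
  simp only [zt]
  have := Real.sin_sq_add_cos_sq (t / R)
  linear_combination R ^ 2 * this

lemma ev_large {w : ℂ} (hw : 0 < w.im) (c : ℝ) : ∀ᶠ n : ℕ in atTop, c < 2 * n * w.im := by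
  have : Tendsto (fun n : ℕ => 2 * (n : ℝ) * w.im) atTop atTop :=
    (tendsto_natCast_atTop_atTop.const_mul_atTop (by norm_num : (0 : ℝ) < 2)).atTop_mul_const hw
  exact this.eventually_gt_atTop c

section
variable {g : ℂ → ℝ} (hg : Continuous g) (hh : ∀ z : ℂ, 0 < z.im → HarmonicAt g z)
  (h0 : ∀ z, 0 ≤ g z)

lemma kk_nonneg {n : ℕ} (hn : 0 < n) {w ζ : ℂ} (hw : ‖w‖ ^ 2 < 2 * n * w.im) : 0 ≤ kk n w ζ := by
  unfold kk
  have hn' : (0 : ℝ) < n := by exact_mod_cast hn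
  have : ‖w‖ ^ 2 / (2 * n) ≤ w.im := by
    rw [div_le_iff₀ (by positivity)]; linarith
  have := Real.pi_pos
  exact div_nonneg (by linarith) (by positivity)

include hg hh in
lemma FF_int {w : ℂ} (hw : 0 < w.im) :
    ∀ᶠ n : ℕ in atTop, Integrable (FF g n w) ∧ ∫ t, FF g n w t = g w := by
  filter_upwards [ev_large hw (‖w‖ ^ 2), eventually_gt_atTop 0] with n hn h0
  have hn' : (0 : ℝ) < n := by exact_mod_cast h0
  have hcont : Continuous fun t => kk n w (zt n t) * g (zt n t) := by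
    refine Continuous.mul ?_ (hg.comp (continuous_zt n))
    unfold kk
    refine continuous_const.div ?_ fun t => ?_
    · exact continuous_const.mul (((continuous_zt n).sub continuous_const).norm.pow 2)
    · have : zt n t ≠ w := by
        rintro rfl
        rw [norm_sq_zt] at hn
        exact lt_irrefl _ hn
      have h2 : 0 < ‖zt n t - w‖ := norm_pos_iff.2 (sub_ne_zero.2 this)
      have := Real.pi_pos
      positivity
  have hle : -(Real.pi * (n : ℝ)) ≤ Real.pi * n := by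
    have := Real.pi_pos
    have : 0 ≤ Real.pi * (n : ℝ) := by positivity
    linarith
  refine ⟨?_, ?_⟩
  · rw [FF, integrable_indicator_iff measurableSet_Ioc]
    exact (intervalIntegrable_iff_integrableOn_Ioc_of_le hle).1 (hcont.intervalIntegrable _ _)
  · rw [FF, integral_indicator measurableSet_Ioc, ← intervalIntegral.integral_of_le hle]
    exact (disc_formula hg hh hn' hn).symm

include h0 in
lemma FF_nonneg {w : ℂ} (hw : 0 < w.im) : ∀ᶠ n : ℕ in atTop, ∀ t, 0 ≤ FF g n w t := by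
  filter_upwards [ev_large hw (‖w‖ ^ 2), eventually_gt_atTop 0] with n hn hn0 t
  exact indicator_nonneg (fun t _ => mul_nonneg (kk_nonneg hn0 hn) (h0 _)) t

lemma tendsto_kk (w : ℂ) (hw : 0 < w.im) (t : ℝ) :
    Tendsto (fun n : ℕ => kk n w (zt n t)) atTop (𝓝 (P w.im (w.re - t))) := by
  unfold kk P
  have h1 : Tendsto (fun n : ℕ => w.im - ‖w‖ ^ 2 / (2 * (n : ℝ))) atTop (𝓝 (w.im - 0)) :=
    tendsto_const_nhds.sub
      ((tendsto_natCast_atTop_atTop.const_mul_atTop (by norm_num : (0 : ℝ) < 2)).const_div_atTop _)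
  rw [sub_zero] at h1
  have h2 : Tendsto (fun n : ℕ => Real.pi * ‖zt n t - w‖ ^ 2) atTop
      (𝓝 (Real.pi * ‖(t : ℂ) - w‖ ^ 2)) :=
    (((tendsto_zt t).sub_const w).norm.pow 2).const_mul _
  have h3 : ‖(t : ℂ) - w‖ ^ 2 = (w.re - t) ^ 2 + w.im ^ 2 := by
    rw [← Complex.normSq_eq_norm_sq, Complex.normSq_apply]
    simp; ring
  rw [h3] at h2
  have := Real.pi_pos
  exact h1.div h2 (by positivity)

include hg in
lemma tendsto_FF (w : ℂ) (hw : 0 < w.im) (t : ℝ) :
    Tendsto (fun n : ℕ => FF g n w t) atTop (𝓝 (P w.im (w.re - t) * g t)) := by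
  have h1 : Tendsto (fun n : ℕ => kk n w (zt n t) * g (zt n t)) atTop
      (𝓝 (P w.im (w.re - t) * g t)) :=
    (tendsto_kk w hw t).mul ((hg.tendsto _).comp (tendsto_zt t))
  refine h1.congr' ?_
  have h2 : Tendsto (fun n : ℕ => Real.pi * (n : ℝ)) atTop atTop :=
    tendsto_natCast_atTop_atTop.const_mul_atTop Real.pi_pos
  filter_upwards [h2.eventually_gt_atTop |t|] with n hn
  rw [FF, indicator_of_mem]
  have := abs_lt.1 hn
  exact ⟨this.1, this.2.le⟩

include hg hh h0 in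
lemma poisson_le {w : ℂ} (hw : 0 < w.im) :
    Integrable (fun t : ℝ => P w.im (w.re - t) * g t) ∧
      ∫ t : ℝ, P w.im (w.re - t) * g t ≤ g w :=
  fatou' ((FF_int hg hh hw).mono fun _ h => h.1) (FF_nonneg h0 hw) (tendsto_FF hg w hw)
    ((FF_int hg hh hw).mono fun _ h => h.2.le)

include hg in
lemma tendsto_FF_compact {w : ℂ} (hw : 0 < w.im) (T : ℝ) :
    Tendsto (fun n : ℕ => ∫ t in Icc (-T) T, FF g n w t) atTop
      (𝓝 (∫ t : ℝ in Icc (-T) T, P w.im (w.re - t) * g t)) := by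
  obtain ⟨M, hM⟩ := (isCompact_closedBall (0 : ℂ) T).exists_bound_of_continuousOn hg.continuousOn
  have hpi := Real.pi_pos
  have hmeas : ∀ n : ℕ, Measurable (FF g n w) := by
    intro n
    refine Measurable.indicator ?_ measurableSet_Ioc
    have h1 : Measurable (zt n) := (continuous_zt n).measurable
    have h2 : Measurable (kk n w) := by unfold kk; fun_prop
    exact (h2.comp h1).mul (hg.measurable.comp h1)
  refine tendsto_integral_filter_of_dominated_convergence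
    (fun _ => 4 / (Real.pi * w.im) * |M|) ?_ ?_ ?_ ?_
  · exact Eventually.of_forall fun n => (hmeas n).aestronglyMeasurable
  · filter_upwards [ev_large hw (‖w‖ ^ 2), eventually_gt_atTop 0, ev_large hw (2 * T ^ 2)]
      with n hn hn0 hn1
    have hn' : (0 : ℝ) < n := by exact_mod_cast hn0
    refine (ae_restrict_iff' measurableSet_Icc).2 (Eventually.of_forall fun t ht => ?_)
    have hT : |t| ≤ T := abs_le.2 ht
    have h1 : ‖g (zt n t)‖ ≤ |M| := (hM _ (by
      rw [mem_closedBall_zero_iff]; exact (norm_zt_le hn' t).trans hT)).trans (le_abs_self M)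
    have h2 : ‖kk n w (zt n t)‖ ≤ 4 / (Real.pi * w.im) := by
      rw [Real.norm_eq_abs, abs_of_nonneg (kk_nonneg hn0 hn)]
      have h3 : (zt n t).im ≤ w.im / 2 := by
        refine (zt_im_le hn' t).trans ?_
        rw [div_le_div_iff₀ (by positivity) (by norm_num)]
        have : t ^ 2 ≤ T ^ 2 := by
          rw [← sq_abs t]; gcongr
        nlinarith
      have h4 : w.im / 2 ≤ ‖zt n t - w‖ := by
        refine le_trans ?_ (Complex.abs_im_le_norm _)
        rw [Complex.sub_im, abs_sub_comm]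
        exact le_trans (by linarith) (le_abs_self _)
      unfold kk
      calc (w.im - ‖w‖ ^ 2 / (2 * n)) / (Real.pi * ‖zt n t - w‖ ^ 2)
          ≤ w.im / (Real.pi * (w.im / 2) ^ 2) := by
            have h5 : 0 ≤ ‖w‖ ^ 2 / (2 * (n : ℝ)) := by positivity
            have h6 : 0 < Real.pi * (w.im / 2) ^ 2 := by positivity
            gcongr
            linarith
        _ = 4 / (Real.pi * w.im) := by field_simp; norm_num
    rw [FF]
    refine (norm_indicator_le_norm_self _ _).trans ?_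
    rw [norm_mul]
    exact mul_le_mul h2 h1 (norm_nonneg _) (by positivity)
  · exact integrable_const _
  · exact Eventually.of_forall fun t => tendsto_FF hg w hw t

lemma tendsto_ratio (w : ℂ) :
    Tendsto (fun ζ : ℂ => ‖ζ - Complex.I‖ ^ 2 / ‖ζ - w‖ ^ 2) (Bornology.cobounded ℂ) (𝓝 1) := by
  have h1 : Tendsto (fun ζ : ℂ => ‖ζ - w‖) (Bornology.cobounded ℂ) atTop := by
    have h2 : Tendsto (fun ζ : ℂ => ‖ζ‖ - ‖w‖) (Bornology.cobounded ℂ) atTop :=
      tendsto_atTop_add_const_right _ _ tendsto_norm_cobounded_atTop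
    exact tendsto_atTop_mono (fun ζ => norm_sub_norm_le ζ w) h2
  have h3 : Tendsto (fun ζ : ℂ => ‖ζ - Complex.I‖ / ‖ζ - w‖) (Bornology.cobounded ℂ) (𝓝 1) := by
    have h4 : Tendsto (fun ζ : ℂ => ‖w - Complex.I‖ / ‖ζ - w‖) (Bornology.cobounded ℂ) (𝓝 0) :=
      h1.const_div_atTop _
    rw [tendsto_iff_dist_tendsto_zero]
    refine squeeze_zero' (Eventually.of_forall fun _ => dist_nonneg) ?_ h4
    filter_upwards [h1.eventually_gt_atTop 0] with ζ hζ
    rw [Real.dist_eq, div_sub_one hζ.ne', abs_div, abs_of_pos hζ]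
    gcongr
    have e : w - Complex.I = (ζ - Complex.I) - (ζ - w) := by ring
    rw [e]
    exact abs_norm_sub_norm_le _ _
  have h5 := h3.pow 2
  simp only [one_pow, div_pow] at h5
  exact h5

lemma ratio_bound {w : ℂ} {η : ℝ} (hη : 0 < η) :
    ∃ T : ℝ, ∀ᶠ n : ℕ in atTop, ∀ ζ : ℂ, T ≤ ‖ζ‖ →
      |kk n w ζ - w.im * kk n Complex.I ζ| ≤ η * kk n Complex.I ζ := by
  have h1 : Tendsto (fun n : ℕ => w.im - ‖w‖ ^ 2 / (2 * (n : ℝ))) atTop (𝓝 (w.im - 0)) :=
    tendsto_const_nhds.sub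
      ((tendsto_natCast_atTop_atTop.const_mul_atTop (by norm_num : (0 : ℝ) < 2)).const_div_atTop _)
  have h2 : Tendsto (fun n : ℕ => 1 - 1 / (2 * (n : ℝ))) atTop (𝓝 (1 - 0)) :=
    tendsto_const_nhds.sub
      ((tendsto_natCast_atTop_atTop.const_mul_atTop (by norm_num : (0 : ℝ) < 2)).const_div_atTop _)
  have h3 := h1.div h2 (by norm_num)
  have h4 : Tendsto (fun p : ℕ × ℂ => (w.im - ‖w‖ ^ 2 / (2 * (p.1 : ℝ))) / (1 - 1 / (2 * (p.1 : ℝ)))
      * (‖p.2 - Complex.I‖ ^ 2 / ‖p.2 - w‖ ^ 2)) (atTop ×ˢ Bornology.cobounded ℂ)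
      (𝓝 ((w.im - 0) / (1 - 0) * 1)) :=
    (h3.comp tendsto_fst).mul ((tendsto_ratio w).comp tendsto_snd)
  simp only [sub_zero, div_one, mul_one] at h4
  have h5 := (Metric.tendsto_nhds.1 h4) η hη
  have h6 : ∀ᶠ p : ℕ × ℂ in (atTop ×ˢ Bornology.cobounded ℂ), ‖p.2 - Complex.I‖ ≠ 0 := by
    have : ∀ᶠ ζ : ℂ in Bornology.cobounded ℂ, ζ ≠ Complex.I := Bornology.eventually_ne_cobounded _
    filter_upwards [tendsto_snd.eventually this] with p hp
    exact norm_ne_zero_iff.2 (sub_ne_zero.2 hp)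
  obtain ⟨pa, ha, pb, hb, hab⟩ := eventually_prod_iff.1 (h5.and h6)
  obtain ⟨T, hT⟩ : ∃ T : ℝ, ∀ ζ : ℂ, T ≤ ‖ζ‖ → pb ζ := by
    rw [← comap_norm_atTop, eventually_comap, eventually_atTop] at hb
    obtain ⟨T, hT⟩ := hb
    exact ⟨T, fun ζ hζ => hT ‖ζ‖ hζ ζ rfl⟩
  refine ⟨T, ?_⟩
  filter_upwards [ha, h2.eventually (lt_mem_nhds (by norm_num : (0 : ℝ) < 1 - 0))] with n hn hn1 ζ hζ
  obtain ⟨h7, h8⟩ := hab hn (hT ζ hζ)
  simp only [Real.dist_eq] at h7 h8
  have hpi := Real.pi_pos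
  set A := w.im - ‖w‖ ^ 2 / (2 * (n : ℝ)) with hA
  set B := 1 - 1 / (2 * (n : ℝ)) with hB
  have e1 : kk n Complex.I ζ = B / (Real.pi * ‖ζ - Complex.I‖ ^ 2) := by
    simp [kk, hB]
  have e2 : kk n w ζ = A / B * (‖ζ - Complex.I‖ ^ 2 / ‖ζ - w‖ ^ 2) * kk n Complex.I ζ := by
    rw [e1, kk]
    by_cases h9 : ‖ζ - w‖ = 0
    · simp [h9]
    · rw [← hA]
      field_simp
  have e3 : 0 ≤ kk n Complex.I ζ := by rw [e1]; positivity
  rw [e2, ← sub_mul, abs_mul, abs_of_nonneg e3]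
  gcongr

end

end Pool.Agent.W773.RD
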