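import Pool.Agent.W773.RD.Repr2

set_option autoImplicit false

open Filter Metric Set Topology MeasureTheory InnerProductSpace
open scoped ComplexConjugate

namespace Pool.Agent.W773.RD

section
variable {g : ℂ → ℝ} (hg : Continuous g) (hh : ∀ z : ℂ, 0 < z.im → HarmonicAt g z)
  (h0 : ∀ z, 0 ≤ g z)

include hg hh h0 in
lemma repr_aux {w : ℂ} (hw : 0 < w.im) :
    g w - w.im * g Complex.I =
      (∫ t : ℝ, P w.im (w.re - t) * g t) - w.im * ∫ t : ℝ, P 1 (0 - t) * g t := by
  have hI : 0 < Complex.I.im := by simp
  set pw : ℝ → ℝ := fun t : ℝ => P w.im (w.re - t) * g t with hpw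
  set pI : ℝ → ℝ := fun t : ℝ => P 1 (0 - t) * g t with hpI
  have hpI' : pI = fun t : ℝ => P Complex.I.im (Complex.I.re - t) * g t := by simp [hpI]
  obtain ⟨iw, lw⟩ := poisson_le hg hh h0 hw
  obtain ⟨iI, lI⟩ := poisson_le hg hh h0 hI
  rw [← hpw] at iw lw
  rw [← hpI'] at iI lI
  have key : ∀ η : ℝ, 0 < η → |(g w - w.im * g Complex.I) - ((∫ t, pw t) - w.im * ∫ t, pI t)| ≤
      2 * η * g Complex.I := by
    intro η hη
    obtain ⟨T, hT⟩ := ratio_bound (w := w) hη
    set S : Set ℝ := Icc (-(2 * T)) (2 * T) with hS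
    have hSm : MeasurableSet S := measurableSet_Icc
    have hout : ∀ᶠ n : ℕ in atTop, ∀ t ∉ S,
        |FF g n w t - w.im * FF g n Complex.I t| ≤ η * FF g n Complex.I t := by
      filter_upwards [hT, eventually_gt_atTop 0] with n hn hn0 t ht
      have hn' : (0 : ℝ) < n := by exact_mod_cast hn0
      by_cases h1 : t ∈ Ioc (-(Real.pi * (n : ℝ))) (Real.pi * n)
      · simp only [FF, indicator_of_mem h1]
        have h2 : |t| ≤ Real.pi * n := abs_le.2 ⟨h1.1.le, h1.2⟩
        have h3 := le_norm_zt hn' h2
        have h4 : 2 * T ≤ |t| := by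
          by_contra hcon
          exact ht (abs_le.1 (not_le.1 hcon).le)
        have h5 := hn (zt n t) (by linarith)
        have e : kk n w (zt n t) * g (zt n t) - w.im * (kk n Complex.I (zt n t) * g (zt n t)) =
          (kk n w (zt n t) - w.im * kk n Complex.I (zt n t)) * g (zt n t) := by ring
        rw [e, abs_mul, abs_of_nonneg (h0 _), ← mul_assoc]
        exact mul_le_mul_of_nonneg_right h5 (h0 _)
      · simp [FF, indicator_of_notMem h1]
    have hlim : ∀ t ∉ S, |pw t - w.im * pI t| ≤ η * pI t := by
      intro t ht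
      have h1 : Tendsto (fun n : ℕ => |FF g n w t - w.im * FF g n Complex.I t|) atTop
          (𝓝 |pw t - w.im * pI t|) := by
        rw [hpI']
        exact ((tendsto_FF hg w hw t).sub ((tendsto_FF hg Complex.I hI t).const_mul _)).abs
      have h2 : Tendsto (fun n : ℕ => η * FF g n Complex.I t) atTop (𝓝 (η * pI t)) := by
        rw [hpI']
        exact (tendsto_FF hg Complex.I hI t).const_mul _
      exact le_of_tendsto_of_tendsto h1 h2 (hout.mono fun n hn => hn t ht)
    -- inner limit
    have hin : Tendsto (fun n : ℕ => |(g w - w.im * g Complex.I) -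
        ((∫ t in S, FF g n w t) - w.im * ∫ t in S, FF g n Complex.I t)|) atTop
        (𝓝 |(g w - w.im * g Complex.I) - ((∫ t in S, pw t) - w.im * ∫ t in S, pI t)|) := by
      rw [hpI']
      exact (tendsto_const_nhds.sub ((tendsto_FF_compact hg hw (2 * T)).sub
        ((tendsto_FF_compact hg hI (2 * T)).const_mul _))).abs
    have hinb : |(g w - w.im * g Complex.I) - ((∫ t in S, pw t) - w.im * ∫ t in S, pI t)| ≤
        η * g Complex.I := by
      refine le_of_tendsto hin ?_
      filter_upwards [FF_int hg hh hw, FF_int hg hh hI, FF_nonneg h0 hI, hout]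
        with n ⟨h1, h2⟩ ⟨h3, h4⟩ h5 h6
      have e1 := integral_add_compl hSm h1
      have e2 := integral_add_compl hSm h3
      have e3 : (g w - w.im * g Complex.I) -
        ((∫ t in S, FF g n w t) - w.im * ∫ t in S, FF g n Complex.I t) =
        ∫ t in Sᶜ, (FF g n w t - w.im * FF g n Complex.I t) := by
        rw [integral_sub h1.integrableOn (h3.const_mul _).integrableOn,
          integral_const_mul, ← h2, ← h4, ← e1, ← e2]
        ring
      rw [e3]
      calc |∫ t in Sᶜ, (FF g n w t - w.im * FF g n Complex.I t)|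
          ≤ ∫ t in Sᶜ, |FF g n w t - w.im * FF g n Complex.I t| := abs_integral_le_integral_abs
        _ ≤ ∫ t in Sᶜ, η * FF g n Complex.I t :=
            setIntegral_mono_on (h1.sub (h3.const_mul _)).abs.integrableOn
              (h3.const_mul _).integrableOn hSm.compl fun t ht => h6 t ht
        _ = η * ∫ t in Sᶜ, FF g n Complex.I t := integral_const_mul _ _
        _ ≤ η * g Complex.I := by
            rw [← h4]
            exact mul_le_mul_of_nonneg_left
              (setIntegral_le_integral h3 (Eventually.of_forall h5)) hη.le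
    have e1 := integral_add_compl hSm iw
    have e2 := integral_add_compl hSm iI
    have houtb : |∫ t in Sᶜ, (pw t - w.im * pI t)| ≤ η * g Complex.I := by
      have hpIn : ∀ t, 0 ≤ pI t := by
        intro t
        have := Real.pi_pos
        simp only [hpI, P]
        exact mul_nonneg (by positivity) (h0 _)
      calc |∫ t in Sᶜ, (pw t - w.im * pI t)|
          ≤ ∫ t in Sᶜ, |pw t - w.im * pI t| := abs_integral_le_integral_abs
        _ ≤ ∫ t in Sᶜ, η * pI t :=
            setIntegral_mono_on (iw.sub (iI.const_mul _)).abs.integrableOn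
              (iI.const_mul _).integrableOn hSm.compl fun t ht => hlim t ht
        _ = η * ∫ t in Sᶜ, pI t := integral_const_mul _ _
        _ ≤ η * g Complex.I :=
            mul_le_mul_of_nonneg_left
              ((setIntegral_le_integral iI (Eventually.of_forall hpIn)).trans lI) hη.le
    rw [integral_sub iw.integrableOn (iI.const_mul _).integrableOn, integral_const_mul] at houtb
    have e3 : (g w - w.im * g Complex.I) - ((∫ t, pw t) - w.im * ∫ t, pI t) =
      ((g w - w.im * g Complex.I) - ((∫ t in S, pw t) - w.im * ∫ t in S, pI t)) -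
      ((∫ t in Sᶜ, pw t) - w.im * ∫ t in Sᶜ, pI t) := by
      rw [← e1, ← e2]; ring
    rw [e3]
    refine (abs_sub _ _).trans ?_
    linarith
  have hfin : |(g w - w.im * g Complex.I) - ((∫ t, pw t) - w.im * ∫ t, pI t)| ≤ 0 := by
    have h1 : Tendsto (fun η : ℝ => 2 * η * g Complex.I) (𝓝[>] 0) (𝓝 (2 * 0 * g Complex.I)) :=
      ((continuous_const.mul continuous_id).mul continuous_const).continuousWithinAt
    rw [mul_zero, zero_mul] at h1
    exact ge_of_tendsto h1 (by filter_upwards [self_mem_nhdsWithin] with η hη using key η hη)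
  have := abs_nonpos_iff.1 hfin
  linarith

include hg hh h0 in
/-- **Poisson representation** -/
theorem poisson_repr (hn : Tendsto (fun y : ℝ => g (y * Complex.I) / y) atTop (𝓝 1))
    {w : ℂ} (hw : 0 < w.im) :
    Integrable (fun t : ℝ => P w.im (w.re - t) * g t) ∧
    g w = w.im + ∫ t : ℝ, P w.im (w.re - t) * g t := by
  refine ⟨(poisson_le hg hh h0 hw).1, ?_⟩
  set α : ℝ := g Complex.I - ∫ t : ℝ, P 1 (0 - t) * g t with hα
  have h1 : ∀ w : ℂ, 0 < w.im → g w = α * w.im + ∫ t : ℝ, P w.im (w.re - t) * g t := by
    intro w hw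
    have := repr_aux hg hh h0 hw
    rw [hα]; linarith
  have hI : 0 < Complex.I.im := by simp
  have iI := (poisson_le hg hh h0 hI).1
  simp only [Complex.I_im, Complex.I_re] at iI
  have h2 : Tendsto (fun y : ℝ => ∫ t : ℝ, (1 / (Real.pi * ((0 - t) ^ 2 + y ^ 2))) * g t) atTop
      (𝓝 (∫ t : ℝ, (0 : ℝ))) := by
    have hpi := Real.pi_pos
    refine tendsto_integral_filter_of_dominated_convergence (fun t => P 1 (0 - t) * g t) ?_ ?_ iI ?_
    · refine Eventually.of_forall fun y => ?_
      have : Measurable fun t : ℝ => g (t : ℂ) :=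
        (hg.comp Complex.continuous_ofReal).measurable
      exact (Measurable.mul (by fun_prop) this).aestronglyMeasurable
    · filter_upwards [eventually_ge_atTop 1] with y hy
      refine Eventually.of_forall fun t => ?_
      rw [Real.norm_eq_abs, abs_of_nonneg (mul_nonneg (by positivity) (h0 _)), P]
      refine mul_le_mul_of_nonneg_right ?_ (h0 _)
      have : (1 : ℝ) ^ 2 ≤ y ^ 2 := by gcongr
      gcongr
    · refine Eventually.of_forall fun t => ?_
      have h3 : Tendsto (fun y : ℝ => Real.pi * ((0 - t) ^ 2 + y ^ 2)) atTop atTop :=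
        (tendsto_atTop_add_const_left _ _ (tendsto_pow_atTop (by norm_num))).const_mul_atTop hpi
      have h4 := (h3.const_div_atTop 1).mul_const (g (t : ℂ))
      rwa [zero_mul] at h4
  rw [integral_zero] at h2
  have h3 : Tendsto (fun y : ℝ => g (y * Complex.I) / y) atTop (𝓝 (α + 0)) := by
    refine (h2.const_add α).congr' ?_
    filter_upwards [eventually_gt_atTop 0] with y hy
    have h4 := h1 (y * Complex.I) (by simpa using hy)
    simp only [Complex.mul_im, Complex.mul_re, Complex.ofReal_re, Complex.ofReal_im, Complex.I_im,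
      Complex.I_re, mul_one, mul_zero, zero_mul, add_zero, sub_zero] at h4
    rw [h4, add_div, mul_div_assoc, div_self hy.ne', mul_one, ← integral_div]
    congr 1
    refine integral_congr_ae (Eventually.of_forall fun t => ?_)
    simp only [P]
    field_simp
  have h4 : α = 1 := by
    have := tendsto_nhds_unique h3 hn
    linarith
  rw [h1 w hw, h4, one_mul]

end

end Pool.Agent.W773.RD
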