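import Pool.Agent.W773.RD.Final

set_option autoImplicit false

open Filter Metric Set Topology MeasureTheory InnerProductSpace
open scoped ComplexConjugate ENNReal

namespace Pool.Agent.W773.RD

lemma IsU.scale {E : Set ℝ} {U : ℂ → ℝ} (h : IsU E U) {k : ℝ} (hk : 0 < k) :
    IsU {t | k * t ∈ E} (fun z => U (k * z) / k) := by
  have hkc : (k : ℂ) ≠ 0 := by exact_mod_cast hk.ne'
  have hmem : ∀ z : ℂ, z ∈ (Complex.ofReal '' {t | k * t ∈ E})ᶜ → k * z ∈ (Complex.ofReal '' E)ᶜ := by
    rintro z hz ⟨t, ht, he⟩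
    refine hz ⟨t / k, ?_, ?_⟩
    · rw [mem_ofPred_eq, mul_div_cancel₀ _ hk.ne']; exact ht
    · push_cast; rw [he]; field_simp
  refine ⟨(h.cont.comp (by fun_prop)).div_const _, fun z hz => ?_, fun z hz => ?_,
    fun t ht => ?_, fun z => ?_, ?_⟩
  · have h1 : HarmonicAt (fun z : ℂ => U (k * z)) z :=
      harmonicAt_comp (φ := fun z => k * z) (by fun_prop) (h.harm _ (hmem z hz))
    have h2 : HarmonicAt (fun z : ℂ => k⁻¹ * U (k * z)) z := h1.const_smul
    convert h2 using 2
    rw [div_eq_inv_mul]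
  · exact div_pos (h.pos _ (hmem z hz)) hk
  · have := h.zero (k * t) ht
    push_cast at this
    rw [this, zero_div]
  · have := h.symm (k * z)
    rw [map_mul, Complex.conj_ofReal] at this
    rw [this]
  · have h1 := h.norm.comp (tendsto_id.const_mul_atTop hk)
    refine h1.congr fun y => ?_
    simp only [Function.comp, id]
    rw [div_div]
    congr 2
    push_cast; ring

lemma Dense.scale {N δ : ℝ} {E : Set ℝ} (h : Dense N δ E) {k : ℝ} (hk : 0 < k) :
    Dense (N / k) (δ / k) {t | k * t ∈ E} := by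
  refine ⟨h.closed.preimage (by fun_prop : Continuous fun t : ℝ => k * t), fun x => ?_⟩
  have h1 := h.dens (k * x)
  have h2 : {t | k * t ∈ E} ∩ Icc x (x + N / k) = (fun t => k * t) ⁻¹' (E ∩ Icc (k * x) (k * x + N)) := by
    ext t
    simp only [mem_inter_iff, mem_ofPred_eq, mem_Icc, mem_preimage]
    have e : x + N / k = (k * x + N) / k := by field_simp
    rw [e, le_div_iff₀ hk, mul_comm t k]
    constructor
    · rintro ⟨a, b, c⟩; exact ⟨a, by gcongr, c⟩
    · rintro ⟨a, b, c⟩; exact ⟨a, le_of_mul_le_mul_left b hk, c⟩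
  rw [h2, Real.volume_preimage_mul_left hk.ne', abs_of_pos (by positivity)]
  calc ENNReal.ofReal (δ / k) = ENNReal.ofReal k⁻¹ * ENNReal.ofReal δ := by
        rw [← ENNReal.ofReal_mul (by positivity)]; congr 1; rw [div_eq_inv_mul]
    _ ≤ _ := by gcongr

/-- the values of normalised functions on the real line over the class with parameters `N, δ` -/
def Vals (N δ : ℝ) : Set ℝ := {v | ∃ E U, Dense N δ E ∧ IsU E U ∧ ∃ x : ℝ, v = U x}

theorem vals_one {δ : ℝ} (hδ : 0 < δ) (hδ1 : δ < 1) :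
    IsGreatest (Vals 1 δ) (1 / Real.pi * Real.log (Real.cot (Real.pi * δ / 4))) := by
  rw [← value hδ hδ1]
  constructor
  · refine ⟨Eper δ, _, Eper_dense hδ hδ1, Eper_isU hδ hδ1, 1 / 2, ?_⟩
    simp
  · rintro v ⟨E, U, hE, hU, x, rfl⟩
    exact upper hδ hδ1 hU hE x

theorem vals_scale {N δ : ℝ} (hN : 0 < N) (hδ : 0 < δ) (hδN : δ < N) :
    IsGreatest (Vals N δ) (N / Real.pi * Real.log (Real.cot (Real.pi * δ / (4 * N)))) := by
  have h1 := vals_one (div_pos hδ hN) ((div_lt_one hN).2 hδN)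
  have e : Real.pi * (δ / N) / 4 = Real.pi * δ / (4 * N) := by field_simp
  rw [e] at h1
  constructor
  · obtain ⟨E, U, hE, hU, x, hx⟩ := h1.1
    have hN' : 0 < N⁻¹ := by positivity
    refine ⟨_, _, ?_, hU.scale hN', N * x, ?_⟩
    · have := hE.scale hN'
      simpa [hN.ne'] using this
    · push_cast
      rw [← mul_assoc, inv_mul_cancel₀ (by exact_mod_cast hN.ne'), one_mul, ← hx]
      field_simp
  · rintro v ⟨E, U, hE, hU, x, rfl⟩
    have h2 : U x / N ∈ Vals 1 (δ / N) := by
      refine ⟨_, _, ?_, hU.scale hN, x / N, ?_⟩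
      · have := hE.scale hN
        rwa [div_self hN.ne'] at this
      · push_cast
        rw [mul_div_cancel₀ _ (by exact_mod_cast hN.ne')]
    have h3 := h1.2 h2
    rw [div_le_iff₀ hN] at h3
    refine h3.trans (le_of_eq ?_)
    ring

end Pool.Agent.W773.RD
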