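import Pool.Agent.W773.RD.MaxE

set_option autoImplicit false

open Filter Metric Set Topology MeasureTheory InnerProductSpace
open scoped ComplexConjugate ENNReal

namespace Pool.Agent.W773.RD

section
variable {c : ℝ} (hc : 0 < c) (hc1 : c < 1)

lemma W_diff {θ y s s' L : ℝ} (h1 : s' ≤ s) (hL0 : 0 ≤ L)
    (hL : ∀ u ∈ Icc s' s, Ut c ((θ - u : ℝ) + y * Complex.I) - Ut c ((θ + u : ℝ) + y * Complex.I)
      ≤ L * (2 * u)) :
    W c (θ - s') y + W c (θ + s') y - W c (θ - s) y - W c (θ + s) y ≤ 4 * L * s * (s - s') := by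
  have e1 : W c (θ - s') y - W c (θ - s) y = 2 * ∫ u in s'..s, Ut c ((θ - u : ℝ) + y * Complex.I) := by
    rw [intervalIntegral.integral_comp_sub_left (fun t : ℝ => Ut c (t + y * Complex.I)) θ, W, W,
      ← mul_sub, intervalIntegral.integral_interval_sub_left (Ut_ii c y _ _) (Ut_ii c y _ _)]
  have e2 : W c (θ + s) y - W c (θ + s') y = 2 * ∫ u in s'..s, Ut c ((θ + u : ℝ) + y * Complex.I) := by
    rw [intervalIntegral.integral_comp_add_left (fun t : ℝ => Ut c (t + y * Complex.I)) θ, W, W,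
      ← mul_sub, intervalIntegral.integral_interval_sub_left (Ut_ii c y _ _) (Ut_ii c y _ _)]
  have c1 : Continuous fun u : ℝ => Ut c ((θ - u : ℝ) + y * Complex.I) :=
    Ut_continuous.comp (by fun_prop)
  have c2 : Continuous fun u : ℝ => Ut c ((θ + u : ℝ) + y * Complex.I) :=
    Ut_continuous.comp (by fun_prop)
  have e3 : (∫ u in s'..s, Ut c ((θ - u : ℝ) + y * Complex.I)) -
      ∫ u in s'..s, Ut c ((θ + u : ℝ) + y * Complex.I) ≤ ∫ u in s'..s, (2 * L * s) := by
    rw [← intervalIntegral.integral_sub (c1.intervalIntegrable _ _) (c2.intervalIntegrable _ _)]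
    refine intervalIntegral.integral_mono_on h1 ((c1.sub c2).intervalIntegrable _ _)
      intervalIntegrable_const fun u hu => (hL u hu).trans ?_
    have := hu.2
    nlinarith
  rw [intervalIntegral.integral_const, smul_eq_mul] at e3
  nlinarith

lemma cont2 {X : Type*} [TopologicalSpace X] {H : ℝ → ℝ → ℝ}
    (hH : Continuous fun p : ℝ × ℝ => H p.1 p.2) {f g : X → ℝ} (hf : Continuous f)
    (hg : Continuous g) : Continuous fun x => H (f x) (g x) := by
  have h : Continuous ((fun p : ℝ × ℝ => H p.1 p.2) ∘ fun x => (f x, g x)) :=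
    Continuous.comp hH (hf.prodMk hg)
  exact h

/-- continuity of window integrals over a set -/
lemma K_cont {w : ℂ → ℝ} (hw : Continuous w) {F : Set ℝ} {a b : ℝ}
    (hFs : F ⊆ Icc a b) (y : ℝ) :
    Continuous fun p : ℝ × ℝ => ∫ t in F, w ((t + p.1 : ℝ) + (y + p.2 : ℝ) * Complex.I) := by
  have h1 : Continuous fun p : ℝ × ℝ => ∫ t in Icc a b, w ((t + p.1 : ℝ) + (y + p.2 : ℝ) * Complex.I)
      ∂(volume.restrict F) := by
    refine continuous_parametric_integral_of_continuous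
      (f := fun (p : ℝ × ℝ) (t : ℝ) => w ((t + p.1 : ℝ) + (y + p.2 : ℝ) * Complex.I)) ?_ isCompact_Icc
    exact hw.comp (by fun_prop)
  have h2 : (volume.restrict F).restrict (Icc a b) = volume.restrict F := by
    rw [Measure.restrict_restrict measurableSet_Icc, inter_eq_right.2 hFs]
  rw [h2] at h1
  exact h1

lemma sub_avg {w : ℂ → ℝ} (hw : Continuous w) (hs : ∀ z R, w z ≤ Real.circleAverage w z R)
    {F : Set ℝ} {a b : ℝ} (hFs : F ⊆ Icc a b) (y r : ℝ) :
    ∫ t in F, w ((t : ℝ) + y * Complex.I) ≤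
      Av fun ψ => ∫ t in F, w ((t + r * Real.cos ψ : ℝ) + (y + r * Real.sin ψ : ℝ) * Complex.I) := by
  set f : ℝ → ℝ → ℝ := fun ψ t => w ((t + r * Real.cos ψ : ℝ) + (y + r * Real.sin ψ : ℝ) * Complex.I)
    with hf
  have hfc : Continuous (Function.uncurry f) := by
    simp only [hf, Function.uncurry_def]
    exact hw.comp (by fun_prop)
  have hAvc : Continuous fun t : ℝ => Av fun ψ => f ψ t := by
    unfold Av
    refine continuous_const.mul ?_
    refine intervalIntegral.continuous_parametric_intervalIntegral_of_continuous'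
      (f := fun t ψ => f ψ t) ?_ _ _
    exact hfc.comp (by fun_prop : Continuous fun p : ℝ × ℝ => (p.2, p.1))
  have hswap : Av (fun ψ => ∫ t in F, f ψ t) = ∫ t in F, Av fun ψ => f ψ t := by
    unfold Av
    rw [intervalIntegral_integral_swap, integral_const_mul]
    have h1 : IntegrableOn (Function.uncurry f) (uIcc 0 (2 * Real.pi) ×ˢ Icc a b) :=
      hfc.continuousOn.integrableOn_compact (isCompact_uIcc.prod isCompact_Icc)
    rw [Measure.prod_restrict, ← Measure.volume_eq_prod]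
    exact h1.mono_set (prod_mono uIoc_subset_uIcc hFs)
  rw [hswap]
  have hwl : Continuous fun t : ℝ => w ((t : ℝ) + y * Complex.I) := hw.comp (by fun_prop)
  refine setIntegral_mono ((hwl.continuousOn.integrableOn_compact isCompact_Icc).mono_set hFs)
    ((hAvc.continuousOn.integrableOn_compact isCompact_Icc).mono_set hFs) fun t => ?_
  refine (hs ((t : ℝ) + y * Complex.I) r).trans (le_of_eq ?_)
  rw [circle_Av]
  congr 1
  funext ψ
  simp only [hf]
  congr 1
  push_cast; ring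

attribute [local irreducible] W kap Ut

include hc hc1 in
lemma no_max {w : ℂ → ℝ} (hw : Continuous w) (hs : ∀ z R, w z ≤ Real.circleAverage w z R)
    {ε : ℝ} (hε : 0 < ε) {x₀ y₀ : ℝ} {F₀ : Set ℝ} (hFm : MeasurableSet F₀)
    (hFs : F₀ ⊆ Icc x₀ (x₀ + 1)) (hv0 : 0 < volume.real F₀) (hv1 : volume.real F₀ < 1)
    (hcrack : y₀ ≠ 0 ∨ c < Real.cos (Real.pi * (volume.real F₀ / 2)))
    {m : ℝ} (hm : m = (∫ t in F₀, w ((t : ℝ) + y₀ * Complex.I)) -
      (W c (volume.real F₀ / 2) y₀ + ε * kap (volume.real F₀ / 2) y₀))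
    (hmax : ∀ (x y : ℝ) (F : Set ℝ), MeasurableSet F → F ⊆ Icc x (x + 1) →
        (∫ t in F, w ((t : ℝ) + y * Complex.I)) -
          (W c (volume.real F / 2) y + ε * kap (volume.real F / 2) y) ≤ m) : False := by
  set θ := volume.real F₀ / 2 with hθ
  have hθ0 : 0 < θ := by positivity
  have hθ1 : θ < 1 / 2 := by rw [hθ]; linarith
  obtain ⟨r₁, hr₁, hfree⟩ := free_of hθ0.le hθ1 hcrack
  obtain ⟨L, hL0, r₂, hr₂, hL⟩ := Ut_lip hc hc1 hθ0.le hr₁ hfree
  set η := ε / (4 * L + 16 * ε) with hη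
  have hη0 : 0 < η := by positivity
  have hη1 : η < 1 := by
    rw [hη, div_lt_one (by positivity)]; linarith
  obtain ⟨s₀, hs₀, hAB⟩ := AB hFm hFs hv0 hv1 hη0 hη1
  set r := min (s₀ / 2) (min r₁ r₂) with hr
  have hr0 : 0 < r := lt_min (by positivity) (lt_min hr₁ hr₂)
  have hrs : r < s₀ := (min_le_left _ _).trans_lt (by linarith)
  have hrr₁ : r ≤ r₁ := (min_le_right _ _).trans (min_le_left _ _)
  have hrr₂ : r ≤ r₂ := (min_le_right _ _).trans (min_le_right _ _)
  set K : ℝ → ℝ → ℝ := fun s σ => ∫ t in F₀, w ((t + s : ℝ) + (y₀ + σ : ℝ) * Complex.I) with hK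
  have hKc : Continuous fun p : ℝ × ℝ => K p.1 p.2 := K_cont hw hFs y₀
  set G : ℝ → ℝ → ℝ := fun θ y => W c θ y + ε * kap θ y with hG
  have hGc : ∀ {f g : ℝ → ℝ}, Continuous f → Continuous g → Continuous fun ψ => G (f ψ) (g ψ) := by
    intro f g hf hg
    simp only [hG]
    refine (W_cont2 c hf hg).add ?_
    unfold kap; fun_prop
  set e := (4 * L + 8 * ε) * η with he
  have key0 : ∀ s σ : ℝ, 0 ≤ s → s ≤ r → |σ| ≤ r →
      K s σ + K (-s) σ ≤ 2 * m + G (θ - s) (y₀ + σ) + G (θ + s) (y₀ + σ) + e * s ^ 2 := by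
    intro s σ h0 h1 h2
    rcases eq_or_lt_of_le h0 with h3 | h3
    · rw [← h3]
      simp only [neg_zero, sub_zero, add_zero]
      have h4 := hmax x₀ (y₀ + σ) F₀ hFm hFs
      rw [← hθ] at h4
      have h5 : K 0 σ = ∫ t in F₀, w ((t : ℝ) + (y₀ + σ : ℝ) * Complex.I) := by
        simp only [hK, add_zero]
      rw [h5]
      simp only [hG]
      linarith
    · obtain ⟨xA, xB, A, B, hAm, hBm, hAs, hBs, hAv, hBv, hint⟩ := hAB s h3 (h1.trans_lt hrs)
      set s' := (1 - η) * s with hs'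
      have hs'0 : 0 ≤ s' := mul_nonneg (by linarith) h0
      have hs's : s' ≤ s := by rw [hs']; nlinarith
      have h4 := hmax xA (y₀ + σ) A hAm hAs
      have h5 := hmax xB (y₀ + σ) B hBm hBs
      have h6 := hint (fun t => w ((t : ℝ) + (y₀ + σ : ℝ) * Complex.I)) (hw.comp (by fun_prop))
      have hA2 : volume.real A / 2 = θ - s' := by rw [hAv, hθ]; ring
      have hB2 : volume.real B / 2 = θ + s' := by rw [hBv, hθ]; ring
      rw [hA2] at h4
      rw [hB2] at h5
      have h7 : K s σ + K (-s) σ ≤ 2 * m + G (θ - s') (y₀ + σ) + G (θ + s') (y₀ + σ) := by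
        have h8 : K s σ + K (-s) σ = (∫ t in A, w ((t : ℝ) + (y₀ + σ : ℝ) * Complex.I)) +
            ∫ t in B, w ((t : ℝ) + (y₀ + σ : ℝ) * Complex.I) := by
          rw [← h6]
          simp only [hK]
          congr 1
        rw [h8]
        simp only [hG]
        linarith
      refine h7.trans ?_
      have h8 : W c (θ - s') (y₀ + σ) + W c (θ + s') (y₀ + σ) - W c (θ - s) (y₀ + σ) -
          W c (θ + s) (y₀ + σ) ≤ 4 * L * s * (s - s') := by
        refine W_diff hs's hL0 fun u hu => ?_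
        have hu0 : 0 ≤ u := hs'0.trans hu.1
        have hur : u ≤ r₂ := hu.2.trans (h1.trans hrr₂)
        have := hL (-u) u σ (by rwa [abs_neg, abs_of_nonneg hu0]) (by rwa [abs_of_nonneg hu0])
          (h2.trans hrr₂)
        rw [← sub_eq_add_neg] at this
        refine this.trans (le_of_eq ?_)
        congr 1
        rw [abs_of_nonpos (by linarith)]; ring
      have h9 : s - s' = η * s := by rw [hs']; ring
      have h10 : kap (θ - s') (y₀ + σ) + kap (θ + s') (y₀ + σ) - kap (θ - s) (y₀ + σ) -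
          kap (θ + s) (y₀ + σ) ≤ 8 * η * s ^ 2 := by
        have e1 : kap (θ - s') (y₀ + σ) + kap (θ + s') (y₀ + σ) - kap (θ - s) (y₀ + σ) -
          kap (θ + s) (y₀ + σ) = 4 * (s ^ 2 - s' ^ 2) := by unfold kap; ring
        rw [e1]
        have e2 : s ^ 2 - s' ^ 2 = (s - s') * (s + s') := by ring
        rw [e2, h9]
        have : s + s' ≤ 2 * s := by linarith
        have h11 : η * s * (s + s') ≤ η * s * (2 * s) := by
          exact mul_le_mul_of_nonneg_left this (by positivity)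
        nlinarith
      rw [h9] at h8
      have h11 : ε * (kap (θ - s') (y₀ + σ) + kap (θ + s') (y₀ + σ) - kap (θ - s) (y₀ + σ) -
          kap (θ + s) (y₀ + σ)) ≤ ε * (8 * η * s ^ 2) := mul_le_mul_of_nonneg_left h10 hε.le
      simp only [hG, he]
      linarith
  have key : ∀ s σ : ℝ, |s| ≤ r → |σ| ≤ r →
      K s σ + K (-s) σ ≤ 2 * m + G (θ - s) (y₀ + σ) + G (θ + s) (y₀ + σ) + e * s ^ 2 := by
    intro s σ h1 h2
    rcases le_total 0 s with h3 | h3
    · rw [abs_of_nonneg h3] at h1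
      exact key0 s σ h3 h1 h2
    · rw [abs_of_nonpos h3] at h1
      have := key0 (-s) σ (by linarith) h1 h2
      rw [neg_neg, neg_sq] at this
      have e1 : θ - -s = θ + s := by ring
      have e2 : θ + -s = θ - s := by ring
      rw [e1, e2] at this
      linarith
  -- averaging
  have h1 : ∫ t in F₀, w ((t : ℝ) + y₀ * Complex.I) ≤ Av fun ψ => K (r * Real.cos ψ) (r * Real.sin ψ) :=
    sub_avg hw hs hFs y₀ r
  have h2 : Av (fun ψ => K (-(r * Real.cos ψ)) (r * Real.sin ψ)) =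
      Av fun ψ => K (r * Real.cos ψ) (r * Real.sin ψ) := by
    have := Av_reflect fun a b => K (r * a) (r * b)
    rw [← this]
    congr 1
    funext ψ
    rw [mul_neg]
  have hKc1 : Continuous fun ψ => K (r * Real.cos ψ) (r * Real.sin ψ) :=
    cont2 hKc (by fun_prop) (by fun_prop)
  have hKc2 : Continuous fun ψ => K (-(r * Real.cos ψ)) (r * Real.sin ψ) :=
    cont2 hKc (by fun_prop) (by fun_prop)
  have hG1 : Continuous fun ψ => G (θ - r * Real.cos ψ) (y₀ + r * Real.sin ψ) :=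
    hGc (by fun_prop) (by fun_prop)
  have hG2 : Continuous fun ψ => G (θ + r * Real.cos ψ) (y₀ + r * Real.sin ψ) :=
    hGc (by fun_prop) (by fun_prop)
  have hRc : Continuous fun ψ => ((2 * m + G (θ - r * Real.cos ψ) (y₀ + r * Real.sin ψ)) +
        G (θ + r * Real.cos ψ) (y₀ + r * Real.sin ψ)) + (e * r ^ 2) * Real.cos ψ ^ 2 :=
    ((continuous_const.add hG1).add hG2).add (by fun_prop)
  have h3 : Av (fun ψ => K (r * Real.cos ψ) (r * Real.sin ψ) + K (-(r * Real.cos ψ)) (r * Real.sin ψ)) ≤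
      Av fun ψ => ((2 * m + G (θ - r * Real.cos ψ) (y₀ + r * Real.sin ψ)) +
        G (θ + r * Real.cos ψ) (y₀ + r * Real.sin ψ)) + (e * r ^ 2) * Real.cos ψ ^ 2 := by
    refine Av_mono (hKc1.add hKc2) hRc fun ψ => ?_
    have ha : |r * Real.cos ψ| ≤ r := by
      rw [abs_mul, abs_of_pos hr0]
      exact mul_le_of_le_one_right hr0.le (Real.abs_cos_le_one ψ)
    have hb : |r * Real.sin ψ| ≤ r := by
      rw [abs_mul, abs_of_pos hr0]
      exact mul_le_of_le_one_right hr0.le (Real.abs_sin_le_one ψ)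
    have := key (r * Real.cos ψ) (r * Real.sin ψ) ha hb
    rw [mul_pow, ← mul_assoc] at this
    exact this
  have h4 : Av (fun ψ => G (θ - r * Real.cos ψ) (y₀ + r * Real.sin ψ)) =
      Av fun ψ => G (θ + r * Real.cos ψ) (y₀ + r * Real.sin ψ) := by
    have := Av_reflect fun a b => G (θ + r * a) (y₀ + r * b)
    rw [← this]
    congr 1
    funext ψ
    rw [mul_neg, sub_eq_add_neg]
  have h5 : Av (fun ψ => G (θ + r * Real.cos ψ) (y₀ + r * Real.sin ψ)) =
      W c θ y₀ + ε * (kap θ y₀ - r ^ 2 / 2) := by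
    have e1 : Av (fun ψ => G (θ + r * Real.cos ψ) (y₀ + r * Real.sin ψ)) =
        Av (fun ψ => W c (θ + r * Real.cos ψ) (y₀ + r * Real.sin ψ)) +
        Av (fun ψ => ε * kap (θ + r * Real.cos ψ) (y₀ + r * Real.sin ψ)) := by
      refine Av_add (W_cont2 c (by fun_prop) (by fun_prop)) ?_
      unfold kap; fun_prop
    rw [e1, Av_const_mul, Av_kap, W_mvp hc hc1 hθ0.le hr0.le (free_mono hfree hrr₁)]
  have hA1 : Av (fun ψ => ((2 * m + G (θ - r * Real.cos ψ) (y₀ + r * Real.sin ψ)) +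
        G (θ + r * Real.cos ψ) (y₀ + r * Real.sin ψ)) + (e * r ^ 2) * Real.cos ψ ^ 2) =
      Av (fun ψ => (2 * m + G (θ - r * Real.cos ψ) (y₀ + r * Real.sin ψ)) +
        G (θ + r * Real.cos ψ) (y₀ + r * Real.sin ψ)) + Av fun ψ => (e * r ^ 2) * Real.cos ψ ^ 2 :=
    Av_add ((continuous_const.add hG1).add hG2) (by fun_prop)
  have hA2 : Av (fun ψ => (2 * m + G (θ - r * Real.cos ψ) (y₀ + r * Real.sin ψ)) +
        G (θ + r * Real.cos ψ) (y₀ + r * Real.sin ψ)) =
      Av (fun ψ => 2 * m + G (θ - r * Real.cos ψ) (y₀ + r * Real.sin ψ)) +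
        Av fun ψ => G (θ + r * Real.cos ψ) (y₀ + r * Real.sin ψ) :=
    Av_add (continuous_const.add hG1) hG2
  have hA3 : Av (fun ψ => 2 * m + G (θ - r * Real.cos ψ) (y₀ + r * Real.sin ψ)) =
      Av (fun _ => 2 * m) + Av fun ψ => G (θ - r * Real.cos ψ) (y₀ + r * Real.sin ψ) :=
    Av_add continuous_const hG1
  rw [Av_add hKc1 hKc2, h2, hA1, hA2, hA3, Av_const, h4, h5, Av_const_mul, Av_cos_sq] at h3
  have h6 : e = (4 * L + 8 * ε) * η := he
  have h7 : (4 * L + 16 * ε) * η = ε := by rw [hη]; field_simp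
  have h8 : e ≤ ε := by
    rw [h6, ← h7]
    refine mul_le_mul_of_nonneg_right ?_ hη0.le
    linarith
  have h9 : 0 < r ^ 2 := by positivity
  have h10 : e * r ^ 2 ≤ ε * r ^ 2 := mul_le_mul_of_nonneg_right h8 h9.le
  have h11 : 0 < ε * r ^ 2 := by positivity
  nlinarith

end

end Pool.Agent.W773.RD
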