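import Pool.Agent.W773.RD.StepB

set_option autoImplicit false

open Filter Metric Set Topology MeasureTheory InnerProductSpace
open scoped ComplexConjugate ENNReal

namespace Pool.Agent.W773.RD

section
variable {c : ℝ} (hc : 0 < c) (hc1 : c < 1)

attribute [local irreducible] W Ut

include hc hc1 in
theorem stepB {w : ℂ → ℝ} (hw : Continuous w) (h0 : ∀ z, 0 ≤ w z)
    (hs : ∀ z R, w z ≤ Real.circleAverage w z R) {Φ C : ℝ} (hC0 : 0 ≤ C)
    (hΦ : ∀ x y : ℝ, ∫ t in Icc x (x + 1), w ((t : ℝ) + y * Complex.I) ≤ |y| + Φ)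
    (hC : ∀ x y : ℝ, w ((x : ℝ) + y * Complex.I) ≤ |y| + C)
    (hvan : ∀ Y : ℝ, ∃ X : ℝ, ∀ x y : ℝ, X ≤ |x| → |y| ≤ Y → w ((x : ℝ) + y * Complex.I) = 0)
    (hcΦ : Φ ≤ 1 / Real.pi * Real.log (1 / c)) (x y : ℝ) {F : Set ℝ} (hFm : MeasurableSet F)
    (hFs : F ⊆ Icc x (x + 1)) :
    ∫ t in F, w ((t : ℝ) + y * Complex.I) ≤ W c (volume.real F / 2) y := by
  have hvF : ∀ (x : ℝ) (F : Set ℝ), F ⊆ Icc x (x + 1) → 0 ≤ volume.real F ∧ volume.real F ≤ 1 := by
    intro x F hF
    have h1 : volume.real F ≤ volume.real (Icc x (x + 1)) :=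
      measureReal_mono hF (fin_of_sub Subset.rfl)
    rw [Real.volume_real_Icc_of_le (by linarith)] at h1
    exact ⟨measureReal_nonneg, by linarith⟩
  have hkap : ∀ (θ y : ℝ), 0 ≤ θ → θ ≤ 1 / 2 → y ^ 2 + 1 / 2 ≤ kap θ y := by
    intro θ y h1 h2
    unfold kap
    nlinarith
  have hwl : ∀ y : ℝ, Continuous fun t : ℝ => w ((t : ℝ) + y * Complex.I) := fun y =>
    hw.comp (by fun_prop)
  have hwi : ∀ (y x : ℝ) (F : Set ℝ), F ⊆ Icc x (x + 1) →
      IntegrableOn (fun t : ℝ => w ((t : ℝ) + y * Complex.I)) F := fun y x F hF =>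
    ((hwl y).continuousOn.integrableOn_compact isCompact_Icc).mono_set hF
  have hW0 : ∀ θ y : ℝ, 0 ≤ θ → 0 ≤ W c θ y := fun θ y h =>
    le_trans (by positivity) (W_ge hc hc1 h y)
  have main : ∀ ε > 0, ∀ (x y : ℝ) (F : Set ℝ), MeasurableSet F → F ⊆ Icc x (x + 1) →
      ∫ t in F, w ((t : ℝ) + y * Complex.I) ≤
        W c (volume.real F / 2) y + ε * kap (volume.real F / 2) y := by
    intro ε hε
    by_contra hcon
    push Not at hcon
    set Y := 1 + C / ε with hY
    obtain ⟨X, hX⟩ := hvan Y
    have hY0 : 0 ≤ Y := by positivity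
    have hGc : Continuous fun p : ℝ × ℝ => W c p.1 p.2 + ε * kap p.1 p.2 := by
      refine (W_continuous c).add ?_
      unfold kap; fun_prop
    obtain ⟨x₀, y₀, F₀, hm, hs', hlt, hmax⟩ := exists_max hw h0
      (G := fun θ y => W c θ y + ε * kap θ y) hGc (X := X + 1) (Y := Y) (Λ := Y + C)
      (by positivity) (fun x y hy => (hC x y).trans (by linarith)) (fun x y F hFm hFs hxy => by
        obtain ⟨hv0, hv1⟩ := hvF x F hFs
        have hk := hkap (volume.real F / 2) y (by linarith) (by linarith)
        by_cases hy : |y| ≤ Y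
        · have hx : X + 1 < |x| := by
            rcases hxy with h | h
            · exact h
            · exact absurd hy (not_le.2 h)
          have h1 : ∫ t in F, w ((t : ℝ) + y * Complex.I) = 0 := by
            rw [setIntegral_congr_fun (g := fun _ => (0 : ℝ)) hFm fun t ht => ?_]
            · simp
            · have h2 := hFs ht
              refine hX t y ?_ hy
              have h3 : |x| ≤ |t| + |x - t| := by
                calc |x| = |t + (x - t)| := by ring_nf
                  _ ≤ _ := abs_add_le _ _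
              have h4 : |x - t| ≤ 1 := abs_le.2 ⟨by linarith [h2.2], by linarith [h2.1]⟩
              linarith
          rw [h1]
          have h5 := hW0 (volume.real F / 2) y (by linarith)
          have h6 : 0 ≤ ε * kap (volume.real F / 2) y := mul_nonneg hε.le (by nlinarith [sq_nonneg y])
          linarith
        · rw [not_le] at hy
          have h1 : ∫ t in F, w ((t : ℝ) + y * Complex.I) ≤ ∫ t in F, (|y| + C) :=
            setIntegral_mono (hwi y x F hFs) (integrableOn_const (fin_of_sub hFs)) fun t => hC t y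
          rw [setIntegral_const, smul_eq_mul] at h1
          have h2 := W_ge hc hc1 (by linarith : 0 ≤ volume.real F / 2) y
          have h3 : C ≤ ε * y ^ 2 := by
            have h4 : C / ε ≤ y ^ 2 := by
              have h5 : 1 ≤ |y| := by
                have : 0 ≤ C / ε := by positivity
                linarith
              have h6 : |y| ≤ y ^ 2 := by rw [← sq_abs]; nlinarith
              linarith
            rw [div_le_iff₀ hε] at h4
            linarith
          have h4 : ε * (y ^ 2 + 1 / 2) ≤ ε * kap (volume.real F / 2) y :=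
            mul_le_mul_of_nonneg_left hk hε.le
          have h5 : volume.real F * C ≤ C := mul_le_of_le_one_left hC0 hv1
          nlinarith) hcon
    obtain ⟨hv0, hv1⟩ := hvF x₀ F₀ hs'
    have hk := hkap (volume.real F₀ / 2) y₀ (by linarith) (by linarith)
    have hk0 : 0 < ε * kap (volume.real F₀ / 2) y₀ := mul_pos hε (by nlinarith [sq_nonneg y₀])
    have hle : ∫ t in F₀, w ((t : ℝ) + y₀ * Complex.I) ≤ |y₀| + Φ :=
      (setIntegral_mono_set (hwi y₀ x₀ _ Subset.rfl) (Eventually.of_forall fun t => h0 _)
        (Eventually.of_forall hs')).trans (hΦ x₀ y₀)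
    have hv0' : 0 < volume.real F₀ := by
      refine lt_of_le_of_ne hv0 fun h => ?_
      have h1 : volume F₀ = 0 := by
        have := h.symm
        rw [Measure.real, ENNReal.toReal_eq_zero_iff] at this
        exact this.resolve_right (fin_of_sub hs')
      have h2 : ∫ t in F₀, w ((t : ℝ) + y₀ * Complex.I) = 0 := by
        rw [Measure.restrict_zero_set h1, integral_zero_measure]
      have h3 := hW0 (volume.real F₀ / 2) y₀ (by linarith)
      linarith
    have hv1' : volume.real F₀ < 1 := by
      refine lt_of_le_of_ne hv1 fun h => ?_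
      rw [h, W_half hc hc1] at hlt
      rw [h] at hk0
      linarith
    have hcr : y₀ ≠ 0 ∨ c < Real.cos (Real.pi * (volume.real F₀ / 2)) := by
      by_contra hcon2
      rw [not_or, not_not, not_lt] at hcon2
      obtain ⟨h1, h2⟩ := hcon2
      have h3 := W_crack hc hc1 (by linarith : 0 ≤ volume.real F₀ / 2) (by linarith) h2
      rw [h1] at hlt hle hk0
      rw [h3] at hlt
      rw [abs_zero] at hle
      linarith
    exact no_max hc hc1 hw hs hε hm hs' hv0' hv1' hcr rfl hmax
  have hk := hkap (volume.real F / 2) y (by have := (hvF x F hFs).1; linarith)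
    (by have := (hvF x F hFs).2; linarith)
  have hkp : 0 < kap (volume.real F / 2) y := by nlinarith [sq_nonneg y]
  refine le_of_forall_pos_le_add fun δ hδ => ?_
  have := main (δ / kap (volume.real F / 2) y) (by positivity) x y F hFm hFs
  rwa [div_mul_cancel₀ _ hkp.ne'] at this

end

end Pool.Agent.W773.RD
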