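import Pool.Agent.W773.RD.StepB2

set_option autoImplicit false

open Filter Metric Set Topology MeasureTheory InnerProductSpace
open scoped ComplexConjugate ENNReal

namespace Pool.Agent.W773.RD

/-- `sin z / z` -/
noncomputable def Snc : ℂ → ℂ := dslope Complex.sin 0

lemma Snc_diff : Differentiable ℂ Snc := by
  intro z
  have h : DifferentiableOn ℂ Snc univ :=
    (Complex.differentiableOn_dslope univ_mem).2 Complex.differentiable_sin.differentiableOn
  exact (h z (mem_univ z)).differentiableAt univ_mem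

lemma Snc_zero : Snc 0 = 1 := by
  rw [Snc, dslope_same, Complex.deriv_sin, Complex.cos_zero]

lemma Snc_mul (z : ℂ) : z * Snc z = Complex.sin z := by
  have := sub_smul_dslope Complex.sin 0 z
  simpa [Snc] using this

lemma norm_cos_le (z : ℂ) : ‖Complex.cos z‖ ≤ Real.exp |z.im| := by
  rw [Complex.cos, norm_div, Complex.norm_ofNat]
  have h1 : ‖Complex.exp (z * Complex.I)‖ ≤ Real.exp |z.im| := by
    rw [Complex.norm_exp]
    refine Real.exp_le_exp.2 ?_
    simp only [Complex.mul_re, Complex.I_re, Complex.I_im, mul_zero, mul_one, zero_sub]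
    exact neg_le_abs _
  have h2 : ‖Complex.exp (-z * Complex.I)‖ ≤ Real.exp |z.im| := by
    rw [Complex.norm_exp]
    refine Real.exp_le_exp.2 ?_
    simp only [Complex.mul_re, Complex.I_re, Complex.I_im, mul_zero, mul_one, zero_sub,
      Complex.neg_im, neg_neg]
    exact le_abs_self _
  have h3 := norm_add_le (Complex.exp (z * Complex.I)) (Complex.exp (-z * Complex.I))
  linarith

lemma norm_sin_le (z : ℂ) : ‖Complex.sin z‖ ≤ Real.exp |z.im| := by
  have h := norm_cos_le (z - Real.pi / 2)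
  rw [Complex.cos_sub_pi_div_two] at h
  have e : (z - (Real.pi : ℂ) / 2).im = z.im := by
    rw [Complex.sub_im]
    have : ((Real.pi : ℂ) / 2).im = 0 := by
      rw [show (Real.pi : ℂ) / 2 = ((Real.pi / 2 : ℝ) : ℂ) by push_cast; ring, Complex.ofReal_im]
    rw [this, sub_zero]
  rwa [e] at h

lemma norm_Snc_le (z : ℂ) : ‖Snc z‖ ≤ Real.exp |z.im| := by
  rcases eq_or_ne z 0 with rfl | hz
  · rw [Snc_zero]; simp
  have hconv : Convex ℝ {ζ : ℂ | |ζ.im| ≤ |z.im|} := by
    have : {ζ : ℂ | |ζ.im| ≤ |z.im|} = Complex.imCLM ⁻¹' (Icc (-|z.im|) |z.im|) := by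
      ext ζ
      simp only [mem_ofPred_eq, mem_preimage, Complex.imCLM_apply, mem_Icc, abs_le]
    rw [this]
    exact (convex_Icc _ _).linear_preimage (Complex.imCLM : ℂ →ₗ[ℝ] ℝ)
  have h1 := hconv.norm_image_sub_le_of_norm_deriv_le (f := Complex.sin) (𝕜 := ℂ)
    (C := Real.exp |z.im|) (x := 0) (y := z) (fun ζ _ => Complex.differentiable_sin ζ)
    (fun ζ hζ => by
      rw [Complex.deriv_sin]
      exact (norm_cos_le ζ).trans (Real.exp_le_exp.2 hζ)) (by simp) (by simp)
  rw [Complex.sin_zero, sub_zero, sub_zero, ← Snc_mul z, norm_mul] at h1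
  have h2 : 0 < ‖z‖ := norm_pos_iff.2 hz
  rw [mul_comm] at h1
  exact le_of_mul_le_mul_right h1 h2

/-- the damped function -/
noncomputable def wd (U : ℂ → ℝ) (ε : ℝ) (z : ℂ) : ℝ :=
  (1 + ε)⁻¹ * Real.log (max 1 (Real.exp (U z) * ‖Snc (ε * z)‖))

section
variable {E : Set ℝ} {U : ℂ → ℝ} {ε : ℝ}

lemma wd_cont (h : IsU E U) : Continuous (wd U ε) := by
  unfold wd
  refine continuous_const.mul (Continuous.log ?_ fun z => ?_)
  · have h1 := h.cont
    have h2 := Snc_diff.continuous
    exact continuous_const.max ((Real.continuous_exp.comp h1).mul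
      (h2.comp (by fun_prop)).norm)
  · have := le_max_left 1 (Real.exp (U z) * ‖Snc (ε * z)‖)
    linarith

lemma wd_nonneg (hε : 0 < ε) (z : ℂ) : 0 ≤ wd U ε z :=
  mul_nonneg (by positivity) (Real.log_nonneg (le_max_left _ _))

lemma wd_le (h : IsU E U) (hε : 0 < ε) (z : ℂ) : wd U ε z ≤ (1 + ε)⁻¹ * (U z + ε * |z.im|) := by
  unfold wd
  refine mul_le_mul_of_nonneg_left ?_ (by positivity)
  have h1 : max 1 (Real.exp (U z) * ‖Snc (ε * z)‖) ≤ Real.exp (U z + ε * |z.im|) := by
    refine max_le (Real.one_le_exp (add_nonneg (h.nonneg z) (by positivity))) ?_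
    rw [Real.exp_add]
    refine mul_le_mul_of_nonneg_left ((norm_Snc_le _).trans (le_of_eq ?_)) (Real.exp_pos _).le
    congr 1
    rw [Complex.im_ofReal_mul, abs_mul, abs_of_pos hε]
  calc Real.log (max 1 (Real.exp (U z) * ‖Snc (ε * z)‖)) ≤ Real.log (Real.exp (U z + ε * |z.im|)) :=
        Real.log_le_log (by have := le_max_left 1 (Real.exp (U z) * ‖Snc (ε * z)‖); linarith) h1
    _ = _ := Real.log_exp _

lemma wd_locSub (h : IsU E U) (hε : 0 < ε) (z : ℂ) : LocSub (wd U ε) z := by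
  by_cases h1 : Real.exp (U z) * ‖Snc (ε * z)‖ ≤ 1
  · refine locSub_of_zero (fun z => wd_nonneg hε z) ?_
    rw [wd, max_eq_left h1, Real.log_one, mul_zero]
  · rw [not_le] at h1
    have hz : z ∈ (Complex.ofReal '' E)ᶜ := by
      rintro ⟨t, ht, rfl⟩
      rw [h.zero t ht, Real.exp_zero, one_mul] at h1
      have h2 := norm_Snc_le (ε * (t : ℂ))
      rw [Complex.im_ofReal_mul] at h2
      simp only [Complex.ofReal_im, mul_zero, abs_zero, Real.exp_zero] at h2
      linarith
    have hS : Snc (ε * z) ≠ 0 := by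
      intro h2; rw [h2, norm_zero, mul_zero] at h1; linarith
    have hSa : AnalyticAt ℂ (fun z => Snc (ε * z)) z := by
      have : Differentiable ℂ fun z : ℂ => Snc (ε * z) := Snc_diff.comp (by fun_prop)
      exact this.analyticAt z
    have hv : HarmonicAt (fun z => U z + Real.log ‖Snc (ε * z)‖) z :=
      (h.harm z hz).add (hSa.harmonicAt_log_norm hS)
    have hv' : HarmonicAt (fun z => (1 + ε)⁻¹ * (U z + Real.log ‖Snc (ε * z)‖)) z := hv.const_smul
    refine locSub_of_harmonicAt ((harmonicAt_congr_nhds ?_).1 hv')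
    have hc : Continuous fun z => Real.exp (U z) * ‖Snc (ε * z)‖ :=
      (Real.continuous_exp.comp h.cont).mul (Snc_diff.continuous.comp (by fun_prop)).norm
    filter_upwards [hc.continuousAt.eventually (lt_mem_nhds h1)] with ζ hζ
    have h3 : 0 < ‖Snc (ε * ζ)‖ := by
      by_contra hcon
      have : ‖Snc (ε * ζ)‖ = 0 := le_antisymm (not_lt.1 hcon) (norm_nonneg _)
      rw [this, mul_zero] at hζ
      linarith
    rw [wd, max_eq_right hζ.le, Real.log_mul (Real.exp_pos _).ne' h3.ne', Real.log_exp]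

lemma wd_van (h : IsU E U) (hε : 0 < ε) {C : ℝ} (hC : ∀ x : ℝ, U x ≤ C) (Y : ℝ) :
    ∃ X : ℝ, ∀ x y : ℝ, X ≤ |x| → |y| ≤ Y → wd U ε ((x : ℝ) + y * Complex.I) = 0 := by
  refine ⟨max 1 (Real.exp (Y + C + ε * Y) / ε), fun x y hx hy => ?_⟩
  have hx1 : 1 ≤ |x| := (le_max_left _ _).trans hx
  have hx2 : Real.exp (Y + C + ε * Y) / ε ≤ |x| := (le_max_right _ _).trans hx
  have hx0 : 0 < |x| := by linarith
  rw [wd, max_eq_left, Real.log_one, mul_zero]
  set z : ℂ := (x : ℝ) + y * Complex.I with hz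
  have hzre : |x| ≤ ‖z‖ := by
    have := Complex.abs_re_le_norm z
    rwa [show z.re = x by simp [hz]] at this
  have hzim : z.im = y := by simp [hz]
  have hzn : 0 < ‖(ε : ℂ) * z‖ := by
    rw [norm_mul, Complex.norm_real, Real.norm_eq_abs, abs_of_pos hε]
    exact mul_pos hε (hx0.trans_le hzre)
  have h1 : ‖Snc (ε * z)‖ * (ε * |x|) ≤ Real.exp (ε * Y) := by
    have h2 : ‖(ε : ℂ) * z‖ * ‖Snc (ε * z)‖ ≤ Real.exp (ε * Y) := by
      rw [← norm_mul, Snc_mul]
      refine (norm_sin_le _).trans (Real.exp_le_exp.2 ?_)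
      rw [Complex.im_ofReal_mul, hzim, abs_mul, abs_of_pos hε]
      gcongr
    have h3 : ε * |x| ≤ ‖(ε : ℂ) * z‖ := by
      rw [norm_mul, Complex.norm_real, Real.norm_eq_abs, abs_of_pos hε]
      gcongr
    calc ‖Snc (ε * z)‖ * (ε * |x|) ≤ ‖Snc (ε * z)‖ * ‖(ε : ℂ) * z‖ := by gcongr
      _ ≤ _ := by rw [mul_comm]; exact h2
  have h4 : Real.exp (U z) ≤ Real.exp (Y + C) :=
    Real.exp_le_exp.2 ((h.le_abs hC x y).trans (by linarith))
  rw [div_le_iff₀ hε] at hx2
  have hp : 0 < ε * |x| := by positivity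
  refine le_of_mul_le_mul_right ?_ hp
  calc Real.exp (U z) * ‖Snc (ε * z)‖ * (ε * |x|) = Real.exp (U z) * (‖Snc (ε * z)‖ * (ε * |x|)) := by ring
    _ ≤ Real.exp (Y + C) * Real.exp (ε * Y) := by gcongr
    _ = Real.exp (Y + C + ε * Y) := by rw [← Real.exp_add]
    _ ≤ 1 * (ε * |x|) := by linarith

lemma wd_lim (h : IsU E U) (z : ℂ) : Tendsto (fun ε => wd U ε z) (𝓝[>] 0) (𝓝 (U z)) := by
  have hc : ContinuousAt (fun ε : ℝ => wd U ε z) 0 := by
    unfold wd
    refine ContinuousAt.mul ?_ ?_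
    · refine ContinuousAt.inv₀ (by fun_prop) (by norm_num)
    · have h1 : Continuous fun ε : ℝ => max 1 (Real.exp (U z) * ‖Snc (ε * z)‖) :=
        continuous_const.max (continuous_const.mul (Snc_diff.continuous.comp (by fun_prop)).norm)
      refine (Continuous.log h1 fun ε => ?_).continuousAt
      have := le_max_left 1 (Real.exp (U z) * ‖Snc (ε * z)‖)
      linarith
  have h2 := hc.tendsto
  have h3 : wd U 0 z = U z := by
    rw [wd]
    simp only [Complex.ofReal_zero, zero_mul, Snc_zero, norm_one, mul_one, add_zero, inv_one, one_mul]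
    rw [max_eq_right (Real.one_le_exp (h.nonneg z)), Real.log_exp]
  rw [h3] at h2
  exact h2.mono_left nhdsWithin_le_nhds

end

/-- **Step C** -/
theorem stepC {E : Set ℝ} {U : ℂ → ℝ} (h : IsU E U) {δ : ℝ} (hE : Dense 1 δ E) (hδ : 0 < δ)
    (hδ1 : δ ≤ 1) {c : ℝ} (hc : 0 < c) (hc1 : c < 1) {Φ : ℝ}
    (hΦ : ∀ x : ℝ, ∫ t in x..(x + 1), U t ≤ Φ) (hcΦ : Φ ≤ 1 / Real.pi * Real.log (1 / c))
    (x y : ℝ) {F : Set ℝ} (hFm : MeasurableSet F) (hFs : F ⊆ Icc x (x + 1)) :
    ∫ t in F, U ((t : ℝ) + y * Complex.I) ≤ W c (volume.real F / 2) y := by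
  obtain ⟨C, hC0, hC⟩ := h.bdd hE hδ hδ1
  have hΦ0 : 0 ≤ Φ := le_trans (intervalIntegral.integral_nonneg (by linarith : (0 : ℝ) ≤ 0 + 1)
    fun t _ => h.nonneg _) (hΦ 0)
  have hUl : ∀ y : ℝ, Continuous fun t : ℝ => U ((t : ℝ) + y * Complex.I) := fun y =>
    h.cont.comp (by fun_prop)
  have hUi : ∀ (y x : ℝ) (F : Set ℝ), F ⊆ Icc x (x + 1) →
      IntegrableOn (fun t : ℝ => U ((t : ℝ) + y * Complex.I)) F := fun y x F hF =>
    ((hUl y).continuousOn.integrableOn_compact isCompact_Icc).mono_set hF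
  have key : ∀ ε > 0, ∫ t in F, wd U ε ((t : ℝ) + y * Complex.I) ≤ W c (volume.real F / 2) y := by
    intro ε hε
    have hwc : Continuous (wd U ε) := wd_cont h
    refine stepB hc hc1 hwc (fun z => wd_nonneg hε z)
      (fun z R => sub_of_loc hwc (fun a => wd_locSub h hε a) z R) hC0 (fun x y => ?_) (fun x y => ?_)
      (fun Y => wd_van h hε hC Y) hcΦ x y hFm hFs
    · have h1 := h.window hΦ x y
      rw [intervalIntegral.integral_of_le (by linarith), ← integral_Icc_eq_integral_Ioc] at h1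
      have hwl : Continuous fun t : ℝ => wd U ε ((t : ℝ) + y * Complex.I) := hwc.comp (by fun_prop)
      have h2 : ∫ t in Icc x (x + 1), wd U ε ((t : ℝ) + y * Complex.I) ≤
          ∫ t in Icc x (x + 1), ((1 + ε)⁻¹ * (U ((t : ℝ) + y * Complex.I) + ε * |y|)) := by
        refine setIntegral_mono (hwl.continuousOn.integrableOn_compact isCompact_Icc)
          (((hUi y x _ Subset.rfl).add (integrableOn_const (fin_of_sub Subset.rfl))).const_mul _)
          fun t => ?_
        have := wd_le h hε ((t : ℝ) + y * Complex.I)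
        simpa using this
      rw [integral_const_mul, integral_add (hUi y x _ Subset.rfl)
        (integrableOn_const (fin_of_sub Subset.rfl)), setIntegral_const,
        Real.volume_real_Icc_of_le (by linarith)] at h2
      refine h2.trans ?_
      rw [inv_mul_le_iff₀ (by positivity)]
      simp only [smul_eq_mul]
      have : 0 ≤ ε * Φ := by positivity
      nlinarith
    · have h1 := wd_le h hε ((x : ℝ) + y * Complex.I)
      have h2 := h.le_abs hC x y
      have h3 : ((x : ℂ) + y * Complex.I).im = y := by simp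
      rw [h3] at h1
      refine h1.trans ?_
      rw [inv_mul_le_iff₀ (by positivity)]
      have : 0 ≤ ε * C := by positivity
      nlinarith
  have hlim : Tendsto (fun ε => ∫ t in F, wd U ε ((t : ℝ) + y * Complex.I)) (𝓝[>] 0)
      (𝓝 (∫ t in F, U ((t : ℝ) + y * Complex.I))) := by
    refine tendsto_integral_filter_of_dominated_convergence
      (fun t : ℝ => U ((t : ℝ) + y * Complex.I) + |y|) ?_ ?_ ?_ ?_
    · exact Eventually.of_forall fun ε => ((wd_cont h).comp
        (by fun_prop : Continuous fun t : ℝ => (t : ℂ) + y * Complex.I)).aestronglyMeasurable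
    · filter_upwards [Ioo_mem_nhdsGT (zero_lt_one (α := ℝ))] with ε hε
      refine Eventually.of_forall fun t => ?_
      rw [Real.norm_eq_abs, abs_of_nonneg (wd_nonneg hε.1 _)]
      have h1 := wd_le h hε.1 ((t : ℝ) + y * Complex.I)
      have h3 : ((t : ℂ) + y * Complex.I).im = y := by simp
      rw [h3] at h1
      refine h1.trans ?_
      have h4 : (1 + ε)⁻¹ ≤ 1 := inv_le_one_of_one_le₀ (by linarith [hε.1])
      have h5 : 0 ≤ U ((t : ℝ) + y * Complex.I) + ε * |y| :=
        add_nonneg (h.nonneg _) (by have := hε.1; positivity)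
      have h6 : ε * |y| ≤ |y| := mul_le_of_le_one_left (abs_nonneg y) hε.2.le
      calc (1 + ε)⁻¹ * (U ((t : ℝ) + y * Complex.I) + ε * |y|) ≤ 1 * (U ((t : ℝ) + y * Complex.I) + ε * |y|) := by
            gcongr
        _ ≤ _ := by linarith
    · exact (hUi y x F hFs).add (integrableOn_const (fin_of_sub hFs))
    · exact Eventually.of_forall fun t => wd_lim h _
  exact le_of_tendsto hlim (by filter_upwards [self_mem_nhdsWithin] with ε hε using key ε hε)

end Pool.Agent.W773.RD
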