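import Mathlib

set_option autoImplicit false

open Filter Metric Set Topology MeasureTheory InnerProductSpace
open scoped ComplexConjugate

namespace Pool.Agent.W773.RD

lemma exists_poly_approx {g : ℂ → ℝ} (hg : Continuous g) {ε : ℝ} (hε : 0 < ε) :
    ∃ P : Polynomial ℂ, ∀ ζ : ℂ, ‖ζ‖ = 1 → |g ζ - (P.eval ζ).re| < ε := by
  set T : ℝ := 2 * Real.pi with hT
  have : Fact (0 < T) := ⟨by positivity⟩
  let h : C(AddCircle T, ℂ) :=
    ⟨fun x => (g ((AddCircle.toCircle x : Circle) : ℂ) : ℂ), by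
      exact Complex.continuous_ofReal.comp
        (hg.comp (continuous_subtype_val.comp AddCircle.continuous_toCircle))⟩
  have hmem : h ∈ (Submodule.span ℂ (Set.range <| @fourier T)).topologicalClosure := by
    rw [span_fourier_closure_eq_top]; trivial
  have hmem' : h ∈ closure ((Submodule.span ℂ (Set.range <| @fourier T) : Submodule ℂ _) : Set C(AddCircle T, ℂ)) := hmem
  obtain ⟨k, hk, hdist⟩ := Metric.mem_closure_iff.1 hmem' ε hε
  have key : ∃ P Q : Polynomial ℂ, ∀ x : AddCircle T,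
      k x = P.eval ((AddCircle.toCircle x : Circle) : ℂ) +
        conj (Q.eval ((AddCircle.toCircle x : Circle) : ℂ)) := by
    refine Submodule.span_induction (p := fun k _ => ∃ P Q : Polynomial ℂ, ∀ x : AddCircle T,
      k x = P.eval ((AddCircle.toCircle x : Circle) : ℂ) +
        conj (Q.eval ((AddCircle.toCircle x : Circle) : ℂ))) ?_ ?_ ?_ ?_ hk
    · rintro _ ⟨n, rfl⟩
      obtain ⟨m, rfl | rfl⟩ := n.eq_nat_or_neg
      · refine ⟨Polynomial.X ^ m, 0, fun x => ?_⟩
        simp [fourier_apply, AddCircle.toCircle_nsmul]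
      · refine ⟨0, Polynomial.X ^ m, fun x => ?_⟩
        rw [fourier_neg]
        simp [fourier_apply, AddCircle.toCircle_nsmul]
    · exact ⟨0, 0, fun x => by simp⟩
    · rintro a b _ _ ⟨P, Q, h1⟩ ⟨P', Q', h2⟩
      refine ⟨P + P', Q + Q', fun x => ?_⟩
      rw [ContinuousMap.add_apply, h1, h2]
      simp only [Polynomial.eval_add, map_add]
      ring
    · rintro a b _ ⟨P, Q, h1⟩
      refine ⟨Polynomial.C a * P, Polynomial.C (conj a) * Q, fun x => ?_⟩
      rw [ContinuousMap.smul_apply, h1]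
      simp only [Polynomial.eval_mul, Polynomial.eval_C, map_mul, Complex.conj_conj, smul_eq_mul]
      ring
  obtain ⟨P, Q, hPQ⟩ := key
  refine ⟨P + Q, fun ζ hζ => ?_⟩
  obtain ⟨x, hx⟩ : ∃ x : AddCircle T, AddCircle.toCircle x = (⟨ζ, by simp [Submonoid.unitSphere, hζ]⟩ : Circle) := by
    obtain ⟨x, hx⟩ := (AddCircle.homeomorphCircle (T := T) (by positivity)).surjective
      (⟨ζ, by simp [Submonoid.unitSphere, hζ]⟩ : Circle)
    exact ⟨x, by rw [← hx, AddCircle.homeomorphCircle_apply]⟩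
  have hx' : ((AddCircle.toCircle x : Circle) : ℂ) = ζ := by rw [hx]
  have h1 : ‖h x - k x‖ < ε := by
    have e := ContinuousMap.norm_coe_le_norm (h - k) x
    rw [ContinuousMap.sub_apply] at e
    rw [dist_eq_norm] at hdist
    exact lt_of_le_of_lt e hdist
  have h2 : (h x - k x).re = g ζ - ((P + Q).eval ζ).re := by
    rw [hPQ x, hx']
    show ((g ((AddCircle.toCircle x : Circle) : ℂ) : ℂ) - _).re = _
    rw [hx']
    simp only [Complex.sub_re, Complex.ofReal_re, Complex.add_re, Complex.conj_re,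
      Polynomial.eval_add]
  rw [← h2]
  exact lt_of_le_of_lt (Complex.abs_re_le_norm _) h1

lemma circleAverage_re {Q : ℂ → ℂ} (hQ : Differentiable ℂ Q) (a : ℂ) (r : ℝ) :
    Real.circleAverage (fun ζ => (Q ζ).re) a r = (Q a).re := by
  have h1 : Real.circleAverage Q a r = Q a := (hQ.diffContOnCl (s := ball a |r|)).circleAverage
  have h2 := Complex.reCLM.circleAverage_comp_comm (f := Q) (c := a) (R := r)
    (hQ.continuous.continuousOn.circleIntegrable')
  have h3 : (fun ζ => (Q ζ).re) = Complex.reCLM ∘ Q := rfl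
  rw [h3, h2, h1]
  rfl

/-- local sub-mean value property at `a`. -/
def LocSub (v : ℂ → ℝ) (a : ℂ) : Prop :=
  ∀ᶠ r in 𝓝[>] (0 : ℝ), v a ≤ Real.circleAverage v a r

lemma sub_unit {v : ℂ → ℝ} (hv : Continuous v)
    (hloc : ∀ a ∈ ball (0 : ℂ) 1, LocSub v a) : v 0 ≤ Real.circleAverage v 0 1 := by
  by_contra hlt
  rw [not_le] at hlt
  set A := Real.circleAverage v 0 1 with hA
  set ε := (v 0 - A) / 4 with hε
  have hε0 : 0 < ε := by rw [hε]; linarith
  obtain ⟨P, hP⟩ := exists_poly_approx hv hε0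
  have hPd : Differentiable ℂ (fun ζ => P.eval ζ) := P.differentiable
  have hP0 : (P.eval 0).re ≤ A + ε := by
    have h1 := circleAverage_re hPd 0 1
    rw [← h1]
    have h2 : Real.circleAverage (fun ζ => v ζ + ε) 0 1 = A + ε := by
      rw [Real.circleAverage_fun_add hv.continuousOn.circleIntegrable'
        continuous_const.continuousOn.circleIntegrable', Real.circleAverage_const]
    rw [← h2]
    refine Real.circleAverage_mono
      ((Complex.continuous_re.comp hPd.continuous).continuousOn.circleIntegrable')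
      ((hv.add continuous_const).continuousOn.circleIntegrable') fun ζ hζ => ?_
    have hζ' : ‖ζ‖ = 1 := by simpa using hζ
    have := abs_lt.1 (hP ζ hζ')
    linarith [this.1]
  set k : ℂ → ℝ := fun ζ => -(P.eval ζ).re + ε * ‖ζ‖ ^ 2 with hk
  have hkc : Continuous k := by
    have := hPd.continuous
    simp only [hk]; fun_prop
  obtain ⟨a, ha, hmax⟩ := (isCompact_closedBall (0 : ℂ) 1).exists_isMaxOn ⟨0, by simp⟩
    (hv.add hkc).continuousOn
  have hmax' : ∀ ζ ∈ closedBall (0 : ℂ) 1, v ζ + k ζ ≤ v a + k a := fun ζ hζ => hmax hζ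
  have h0 : 3 * ε ≤ v a + k a := by
    refine le_trans ?_ (hmax' 0 (by simp))
    simp only [hk, norm_zero]
    have : v 0 = A + 4 * ε := by rw [hε]; ring
    linarith
  have hain : a ∈ ball (0 : ℂ) 1 := by
    rw [mem_ball_zero_iff]
    have ha' : ‖a‖ ≤ 1 := by simpa using ha
    refine lt_of_le_of_ne ha' fun hn => ?_
    have h2 := abs_lt.1 (hP a hn)
    simp only [hk, hn] at h0
    nlinarith [h2.2]
  have hr : ∀ᶠ r in 𝓝[>] (0 : ℝ), closedBall a r ⊆ ball (0 : ℂ) 1 := by
    obtain ⟨δ, hδ, hsub⟩ := Metric.isOpen_iff.1 isOpen_ball a hain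
    filter_upwards [Ioo_mem_nhdsGT hδ] with r hr
    exact (closedBall_subset_ball hr.2).trans hsub
  obtain ⟨r, ⟨hsub, hsm⟩, hr0⟩ := ((hr.and (hloc a hain)).and self_mem_nhdsWithin).exists
  have hr0' : 0 < r := hr0
  set M := v a + k a with hM
  let G : ℂ → ℝ := fun ζ =>
    ((P.eval ζ - 2 * ε * (conj a * (ζ - a)) + ((M - ε * (‖a‖ ^ 2 + r ^ 2) : ℝ) : ℂ))).re
  have hGd : Differentiable ℂ (fun ζ => P.eval ζ - 2 * ε * (conj a * (ζ - a)) +
      ((M - ε * (‖a‖ ^ 2 + r ^ 2) : ℝ) : ℂ)) := by fun_prop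
  have hGc : Continuous G := Complex.continuous_re.comp hGd.continuous
  have hGavg : Real.circleAverage G a r = (P.eval a).re + (M - ε * (‖a‖ ^ 2 + r ^ 2)) := by
    rw [circleAverage_re hGd]
    rw [sub_self, mul_zero, mul_zero, sub_zero, Complex.add_re, Complex.ofReal_re]
  have h1 : v a ≤ Real.circleAverage G a r := by
    refine hsm.trans (Real.circleAverage_mono hv.continuousOn.circleIntegrable'
      hGc.continuousOn.circleIntegrable' fun ζ hζ => ?_)
    have hζ : ‖ζ - a‖ = r := by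
      have := hζ
      rw [mem_sphere, dist_eq_norm, abs_of_pos hr0'] at this
      exact this
    have hζ1 : ζ ∈ closedBall (0 : ℂ) 1 :=
      ball_subset_closedBall (hsub (by rw [mem_closedBall, dist_eq_norm, hζ]))
    have h2 := hmax' ζ hζ1
    have h3 : ‖ζ‖ ^ 2 = ‖a‖ ^ 2 + r ^ 2 + 2 * (conj a * (ζ - a)).re := by
      have e1 : ζ = a + (ζ - a) := by ring
      have e2 : ‖a + (ζ - a)‖ ^ 2 = ‖a‖ ^ 2 + ‖ζ - a‖ ^ 2 + 2 * (conj a * (ζ - a)).re := by
        rw [← Complex.normSq_eq_norm_sq, ← Complex.normSq_eq_norm_sq, ← Complex.normSq_eq_norm_sq,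
          Complex.normSq_add]
        congr 2
        rw [← Complex.conj_re]
        simp [mul_comm]
      rw [← e1, hζ] at e2
      exact e2
    simp only [hk] at h2 hM
    have h4 : G ζ = (P.eval ζ).re - 2 * ε * (conj a * (ζ - a)).re +
        (M - ε * (‖a‖ ^ 2 + r ^ 2)) := by
      simp only [G, Complex.add_re, Complex.sub_re, Complex.ofReal_re]
      congr 2
      have : (2 * (ε : ℂ) * (conj a * (ζ - a))) = ((2 * ε : ℝ) : ℂ) * (conj a * (ζ - a)) := by
        push_cast; ring
      rw [this, Complex.re_ofReal_mul]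
    rw [h4, h3] at *
    nlinarith
  rw [hGavg] at h1
  simp only [hk] at hM
  nlinarith [mul_pos hε0 (pow_pos hr0' 2)]

lemma circleAverage_scale (v : ℂ → ℝ) (z : ℂ) (R : ℝ) (a : ℂ) (r : ℝ) :
    Real.circleAverage (fun ζ => v (z + R * ζ)) a r = Real.circleAverage v (z + R * a) (R * r) := by
  unfold Real.circleAverage circleMap
  congr with θ
  push_cast
  ring_nf

/-- a continuous function with the local sub-mean value property has the global one. -/
theorem sub_of_loc {v : ℂ → ℝ} (hv : Continuous v) (hloc : ∀ a, LocSub v a) (z : ℂ) (R : ℝ) :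
    v z ≤ Real.circleAverage v z R := by
  wlog hR : 0 < R generalizing R
  · rcases eq_or_lt_of_le (not_lt.1 hR) with h | h
    · rw [h]; simp
    · have := this (-R) (by linarith)
      rwa [Real.circleAverage_neg_radius] at this
  have h := sub_unit (v := fun ζ => v (z + R * ζ)) (by fun_prop) (fun a _ => by
    unfold LocSub
    have h1 := hloc (z + R * a)
    unfold LocSub at h1
    have h2 : Tendsto (fun r : ℝ => R * r) (𝓝[>] 0) (𝓝[>] 0) := by
      refine tendsto_nhdsWithin_of_tendsto_nhds_of_eventually_within _ ?_ ?_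
      · have : Tendsto (fun r : ℝ => R * r) (𝓝 0) (𝓝 (R * 0)) :=
          (continuous_const.mul continuous_id).tendsto 0
        rw [mul_zero] at this
        exact this.mono_left nhdsWithin_le_nhds
      · filter_upwards [self_mem_nhdsWithin] with r hr
        exact mul_pos hR hr
    filter_upwards [h2.eventually h1] with r hr
    rwa [circleAverage_scale])
  rw [circleAverage_scale] at h
  simpa using h

/-- mean value property at points of harmonicity -/
lemma mvp_of_harmonicAt {v : ℂ → ℝ} {a : ℂ} (h : HarmonicAt v a) :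
    ∀ᶠ r in 𝓝[>] (0 : ℝ), Real.circleAverage v a r = v a := by
  obtain ⟨δ, hδ, hsub⟩ := Metric.isOpen_iff.1 (isOpen_setOfPred_harmonicAt v) a h
  filter_upwards [Ioo_mem_nhdsGT hδ] with r hr
  refine HarmonicOnNhd.circleAverage_eq fun x hx => hsub ?_
  rw [abs_of_pos hr.1] at hx
  exact closedBall_subset_ball hr.2 hx

lemma locSub_of_harmonicAt {v : ℂ → ℝ} {a : ℂ} (h : HarmonicAt v a) : LocSub v a :=
  (mvp_of_harmonicAt h).mono fun _ hr => hr.ge

lemma locSub_of_zero {v : ℂ → ℝ} {a : ℂ} (h : ∀ z, 0 ≤ v z) (ha : v a = 0) : LocSub v a :=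
  Eventually.of_forall fun r => by
    rw [ha]; exact Real.circleAverage_nonneg_of_nonneg fun x _ => h x

end Pool.Agent.W773.RD
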