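import Pool.Agent.W773.RD.Harnack

set_option autoImplicit false

open Filter Metric Set Topology MeasureTheory InnerProductSpace
open scoped ComplexConjugate ENNReal

namespace Pool.Agent.W773.RD

/-- twice the integral over `[0,θ]` at height `y` -/
noncomputable def QQ (V : ℂ → ℝ) (θ y : ℝ) : ℝ := 2 * ∫ t in (0 : ℝ)..θ, V (t + y * Complex.I)

section
variable {V : ℂ → ℝ} (hV : Continuous V)
  (hev : ∀ t y : ℝ, V ((-t : ℝ) + y * Complex.I) = V (t + y * Complex.I))

include hV in
lemma QQ_ii (y a b : ℝ) : IntervalIntegrable (fun t : ℝ => V (t + y * Complex.I)) volume a b :=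
  (hV.comp (by fun_prop) : Continuous fun t : ℝ => V (t + y * Complex.I)).intervalIntegrable _ _

include hV in
lemma QQ_continuous : Continuous fun p : ℝ × ℝ => QQ V p.1 p.2 := by
  unfold QQ
  refine continuous_const.mul ?_
  exact intervalIntegral.continuous_parametric_intervalIntegral_of_continuous
    (f := fun (p : ℝ × ℝ) (t : ℝ) => V (t + p.2 * Complex.I))
    (hV.comp (by fun_prop)) continuous_fst

include hev in
lemma QQ_neg (θ y : ℝ) : QQ V (-θ) y = -QQ V θ y := by
  rw [QQ, QQ]
  have h : ∫ t in (0 : ℝ)..(-θ), V (t + y * Complex.I) = -∫ t in (0 : ℝ)..θ, V (t + y * Complex.I) := by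
    have h1 := intervalIntegral.integral_comp_neg (a := 0) (b := θ)
      (fun t : ℝ => V (t + y * Complex.I))
    rw [neg_zero] at h1
    have h2 : ∫ t in (0 : ℝ)..θ, V ((-t : ℝ) + y * Complex.I) =
      ∫ t in (0 : ℝ)..θ, V (t + y * Complex.I) :=
      intervalIntegral.integral_congr fun t _ => hev t y
    rw [h2] at h1
    rw [intervalIntegral.integral_symm, ← h1]
  rw [h]; ring

include hV hev in
lemma QQ_avg (θ y r : ℝ) :
    Av (fun ψ => QQ V (θ + r * Real.cos ψ) (y + r * Real.sin ψ)) =
      2 * ∫ t in (0 : ℝ)..θ, Real.circleAverage V (t + y * Complex.I) r := by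
  set F : ℝ → ℝ → ℝ := fun ψ t => V ((t : ℂ) + y * Complex.I + (r * Real.cos ψ : ℝ) +
        (r * Real.sin ψ : ℝ) * Complex.I) with hF
  have e1 : ∀ ψ, QQ V (θ + r * Real.cos ψ) (y + r * Real.sin ψ) =
      2 * (∫ t in (0 : ℝ)..θ, F ψ t) + QQ V (r * Real.cos ψ) (y + r * Real.sin ψ) := by
    intro ψ
    simp only [hF]
    set s := r * Real.cos ψ with hs
    set y' := y + r * Real.sin ψ with hy'
    have h1 := intervalIntegral.integral_add_adjacent_intervals (QQ_ii hV y' 0 s) (QQ_ii hV y' s (θ + s))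
    rw [QQ, QQ, ← h1]
    have h2 := intervalIntegral.integral_comp_add_right (a := 0) (b := θ)
      (fun t : ℝ => V (t + y' * Complex.I)) s
    rw [zero_add] at h2
    rw [← h2]
    have h3 : ∀ t : ℝ, ((t + s : ℝ) : ℂ) + y' * Complex.I = (t : ℂ) + y * Complex.I + (s : ℝ) +
        (r * Real.sin ψ : ℝ) * Complex.I := by
      intro t; rw [hy']; push_cast; ring
    simp_rw [h3]
    ring
  simp_rw [e1]
  have hWc : Continuous fun ψ : ℝ => QQ V (r * Real.cos ψ) (y + r * Real.sin ψ) :=
    cont2 (QQ_continuous hV) (by fun_prop) (by fun_prop)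
  have hjoint : Continuous (Function.uncurry F) := by
    simp only [hF, Function.uncurry_def]
    exact hV.comp (by fun_prop)
  have hIc : Continuous fun ψ : ℝ => 2 * ∫ t in (0 : ℝ)..θ, F ψ t :=
    continuous_const.mul
      (intervalIntegral.continuous_parametric_intervalIntegral_of_continuous' hjoint 0 θ)
  rw [Av_add hIc hWc, Av_const_mul, Av_swap (f := F) hjoint]
  have e2 : ∫ t in (0 : ℝ)..θ, Av (fun ψ => F ψ t) =
      ∫ t in (0 : ℝ)..θ, Real.circleAverage V (t + y * Complex.I) r := by
    refine intervalIntegral.integral_congr fun t ht => ?_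
    simp only [hF]
    rw [← circle_Av]
  have e3 : Av (fun ψ => QQ V (r * Real.cos ψ) (y + r * Real.sin ψ)) = 0 := by
    have h1 := Av_reflect fun a b => QQ V (r * a) (y + r * b)
    have h2 : (fun ψ => QQ V (r * -Real.cos ψ) (y + r * Real.sin ψ)) =
        fun ψ => (-1) * QQ V (r * Real.cos ψ) (y + r * Real.sin ψ) := by
      funext ψ
      rw [mul_neg, QQ_neg hev]; ring
    rw [h2, Av_const_mul] at h1
    linarith
  rw [e2, e3, add_zero]

end

section
variable {E : Set ℝ} {U : ℂ → ℝ}

/-- symmetrisation -/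
noncomputable def U2 (U : ℂ → ℝ) (z : ℂ) : ℝ := (U z + U (-z)) / 2

lemma U2_cont (h : IsU E U) : Continuous (U2 U) := by
  have := h.cont
  unfold U2; fun_prop

lemma U2_even (h : IsU E U) (t y : ℝ) :
    U2 U ((-t : ℝ) + y * Complex.I) = U2 U (t + y * Complex.I) := by
  have e1 : U (((-t : ℝ) : ℂ) + y * Complex.I) = U (-((t : ℂ) + y * Complex.I)) := by
    rw [← h.symm]; congr 1; apply Complex.ext <;> simp
  have e2 : U (-(((-t : ℝ) : ℂ) + y * Complex.I)) = U ((t : ℂ) + y * Complex.I) := by
    rw [← h.symm]; congr 1; apply Complex.ext <;> simp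
  rw [U2, U2, e1, e2, add_comm]

lemma U2_sub (h : IsU E U) (z : ℂ) (r : ℝ) : U2 U z ≤ Real.circleAverage (U2 U) z r := by
  have hc := h.cont
  have hcn : Continuous fun z : ℂ => U (-z) := hc.comp continuous_neg
  have h1 := h.sub z r
  have h2 := h.sub (-z) r
  have h3 : Real.circleAverage (fun ζ => U (-ζ)) z r = Real.circleAverage U (-z) r := by
    have := circleAverage_scale U 0 (-1) z r
    simp only [zero_add, Complex.ofReal_neg, Complex.ofReal_one, neg_mul, one_mul] at this
    rw [Real.circleAverage_neg_radius] at this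
    exact this
  have h4 : Real.circleAverage (U2 U) z r =
      (1 / 2 : ℝ) * (Real.circleAverage U z r + Real.circleAverage (fun ζ => U (-ζ)) z r) := by
    rw [← Real.circleAverage_fun_add hc.continuousOn.circleIntegrable'
      hcn.continuousOn.circleIntegrable']
    rw [← smul_eq_mul, ← Real.circleAverage_fun_smul]
    congr 1
    funext ζ
    simp only [U2, smul_eq_mul]
    ring
  rw [h4, h3, U2]
  linarith

lemma QQ_U2 (h : IsU E U) {θ : ℝ} (hθ : 0 ≤ θ) (y : ℝ) :
    QQ (U2 U) θ y = ∫ t in Icc (-θ) θ, U ((t : ℝ) + y * Complex.I) := by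
  have hUl : Continuous fun t : ℝ => U ((t : ℝ) + y * Complex.I) := h.cont.comp (by fun_prop)
  have hii : ∀ a b, IntervalIntegrable (fun t : ℝ => U ((t : ℝ) + y * Complex.I)) volume a b :=
    fun a b => hUl.intervalIntegrable _ _
  rw [integral_Icc_eq_integral_Ioc, ← intervalIntegral.integral_of_le (by linarith),
    ← intervalIntegral.integral_add_adjacent_intervals (hii (-θ) 0) (hii 0 θ)]
  have h1 : ∫ t in (-θ)..0, U ((t : ℝ) + y * Complex.I) =
      ∫ t in (0 : ℝ)..θ, U (-((t : ℂ) + y * Complex.I)) := by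
    have h2 := intervalIntegral.integral_comp_neg (a := 0) (b := θ)
      (fun t : ℝ => U ((t : ℝ) + y * Complex.I))
    rw [neg_zero] at h2
    rw [← h2]
    refine intervalIntegral.integral_congr fun t _ => ?_
    show U (((-t : ℝ) : ℂ) + y * Complex.I) = U (-((t : ℂ) + y * Complex.I))
    rw [← h.symm]; congr 1; apply Complex.ext <;> simp
  have hUn : Continuous fun t : ℝ => U (-((t : ℂ) + y * Complex.I)) := h.cont.comp (by fun_prop)
  rw [h1, QQ, ← intervalIntegral.integral_add (hUn.intervalIntegrable _ _)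
    (hii 0 θ), ← intervalIntegral.integral_const_mul]
  refine intervalIntegral.integral_congr fun t _ => ?_
  simp only [U2]
  ring

/-- the difference function on the half plane `θ ≥ 0` -/
noncomputable def Hf (c : ℝ) (U : ℂ → ℝ) (z : ℂ) : ℝ := W c z.re z.im - QQ (U2 U) z.re z.im

lemma Hf_cont (h : IsU E U) (c : ℝ) : Continuous (Hf c U) := by
  unfold Hf
  exact (W_cont2 c Complex.continuous_re Complex.continuous_im).sub
    (cont2 (QQ_continuous (U2_cont h)) Complex.continuous_re Complex.continuous_im)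

lemma Hf_locSub (h : IsU E U) {c : ℝ} (hc : 0 < c) (hc1 : c < 1) {a : ℂ} (ha0 : 0 ≤ a.re)
    (ha1 : a.re < 1 / 2) (ha : c < Real.cos (Real.pi * a.re)) :
    LocSub (fun z => -Hf c U z) a := by
  obtain ⟨r₁, hr₁, hfree⟩ := free_of ha0 ha1 (y := a.im) (Or.inr ha)
  filter_upwards [Ioo_mem_nhdsGT hr₁] with r hr
  have hr0 : 0 ≤ r := hr.1.le
  have e0 : Real.circleAverage (fun z => -Hf c U z) a r =
      Av fun ψ => QQ (U2 U) (a.re + r * Real.cos ψ) (a.im + r * Real.sin ψ) +
        (-1) * W c (a.re + r * Real.cos ψ) (a.im + r * Real.sin ψ) := by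
    rw [circle_Av]
    congr 1
    funext ψ
    simp only [Hf]
    have e1 : (a + (r * Real.cos ψ : ℝ) + (r * Real.sin ψ : ℝ) * Complex.I).re =
      a.re + r * Real.cos ψ := by
      simp only [Complex.add_re, Complex.mul_re, Complex.ofReal_re, Complex.ofReal_im,
        Complex.I_re, Complex.I_im]; ring
    have e2 : (a + (r * Real.cos ψ : ℝ) + (r * Real.sin ψ : ℝ) * Complex.I).im =
      a.im + r * Real.sin ψ := by
      simp only [Complex.add_im, Complex.mul_im, Complex.ofReal_re, Complex.ofReal_im,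
        Complex.I_re, Complex.I_im]; ring
    rw [e1, e2]; ring
  have hQc : Continuous fun ψ : ℝ => QQ (U2 U) (a.re + r * Real.cos ψ) (a.im + r * Real.sin ψ) :=
    cont2 (QQ_continuous (U2_cont h)) (by fun_prop) (by fun_prop)
  have hWc : Continuous fun ψ : ℝ => (-1) * W c (a.re + r * Real.cos ψ) (a.im + r * Real.sin ψ) :=
    continuous_const.mul (W_cont2 c (by fun_prop) (by fun_prop))
  rw [e0, Av_add hQc hWc, Av_const_mul, W_mvp hc hc1 ha0 hr0 (free_mono hfree hr.2.le),
    QQ_avg (U2_cont h) (U2_even h)]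
  have h2 : ∫ t in (0 : ℝ)..a.re, U2 U (t + a.im * Complex.I) ≤
      ∫ t in (0 : ℝ)..a.re, Real.circleAverage (U2 U) (t + a.im * Complex.I) r := by
    refine intervalIntegral.integral_mono_on ha0 (QQ_ii (U2_cont h) _ _ _) ?_
      fun t _ => U2_sub h _ _
    refine Continuous.intervalIntegrable ?_ _ _
    have e3 : (fun t : ℝ => Real.circleAverage (U2 U) ((t : ℂ) + a.im * Complex.I) r) =
        fun t : ℝ => (2 * Real.pi)⁻¹ * ∫ θ in (0 : ℝ)..2 * Real.pi,
          U2 U (circleMap ((t : ℂ) + a.im * Complex.I) r θ) := by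
      funext t; rw [Real.circleAverage_def, smul_eq_mul]
    rw [e3]
    refine continuous_const.mul ?_
    refine intervalIntegral.continuous_parametric_intervalIntegral_of_continuous'
      (f := fun (t : ℝ) (θ : ℝ) => U2 U (circleMap ((t : ℂ) + a.im * Complex.I) r θ)) ?_ _ _
    simp only [Function.uncurry_def, circle_eq]
    exact (U2_cont h).comp (by fun_prop)
  simp only [Hf, QQ] at *
  linarith

end

end Pool.Agent.W773.RD
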