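import Pool.Agent.W773.RD.Uniq

set_option autoImplicit false

open Filter Metric Set Topology MeasureTheory InnerProductSpace
open scoped ComplexConjugate ENNReal

namespace Pool.Agent.W773.RD

lemma locSub_scale {v : ℂ → ℝ} {z : ℂ} {R : ℝ} {a : ℂ} (hR : 0 < R) (h : LocSub v (z + R * a)) :
    LocSub (fun ζ => v (z + R * ζ)) a := by
  unfold LocSub at h ⊢
  have h2 : Tendsto (fun r : ℝ => R * r) (𝓝[>] 0) (𝓝[>] 0) := by
    refine tendsto_nhdsWithin_of_tendsto_nhds_of_eventually_within _ ?_ ?_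
    · have : Tendsto (fun r : ℝ => R * r) (𝓝 0) (𝓝 (R * 0)) :=
        (continuous_const.mul continuous_id).tendsto 0
      rw [mul_zero] at this
      exact this.mono_left nhdsWithin_le_nhds
    · filter_upwards [self_mem_nhdsWithin] with r hr
      exact mul_pos hR hr
  filter_upwards [h2.eventually h] with r hr
  rwa [circleAverage_scale]

lemma zero_of_avg {v : ℂ → ℝ} (hv : Continuous v) (h0 : ∀ ζ : ℂ, ‖ζ‖ = 1 → 0 ≤ v ζ)
    (h : Real.circleAverage v 0 1 ≤ 0) {ζ : ℂ} (hζ : ‖ζ‖ = 1) : v ζ = 0 := by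
  have hpi := Real.pi_pos
  have hm : ζ ∈ circleMap 0 1 '' Ioc 0 (2 * Real.pi) := by
    rw [image_circleMap_Ioc]; simpa using hζ
  obtain ⟨θ, hθ, rfl⟩ := hm
  by_contra hne
  have hpos : 0 < v (circleMap 0 1 θ) := lt_of_le_of_ne (h0 _ hζ) (Ne.symm hne)
  have h1 : 0 < ∫ t in (0 : ℝ)..2 * Real.pi, v (circleMap 0 1 t) := by
    refine intervalIntegral.integral_pos (by positivity)
      (hv.comp (continuous_circleMap 0 1)).continuousOn (fun t _ => h0 _ (by simp))
      ⟨θ, ⟨hθ.1.le, hθ.2⟩, hpos⟩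
  rw [Real.circleAverage_def, smul_eq_mul] at h
  have : 0 < (2 * Real.pi)⁻¹ * ∫ t in (0 : ℝ)..2 * Real.pi, v (circleMap 0 1 t) := by positivity
  linarith

section
variable {E : Set ℝ} {U : ℂ → ℝ} {δ : ℝ}

lemma Hf_nonneg (h : IsU E U) (hE : Dense 1 δ E) (hδ : 0 < δ) (hδ1 : δ < 1) {z : ℂ}
    (h0 : 0 ≤ z.re) (h1 : z.re ≤ 1 / 2) : 0 ≤ Hf (cd δ) U z := by
  have hFs : Icc (-z.re) z.re ⊆ Icc (-z.re) (-z.re + 1) := Icc_subset_Icc le_rfl (by linarith)
  have h3 := stepC h hE hδ hδ1.le (cd_pos hδ hδ1) (cd_lt_one hδ hδ1) (window_bound hδ hδ1 h hE)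
    le_rfl (-z.re) z.im measurableSet_Icc hFs
  have h4 : volume.real (Icc (-z.re) z.re) / 2 = z.re := by
    rw [Real.volume_real_Icc_of_le (by linarith)]; ring
  rw [h4] at h3
  rw [Hf, QQ_U2 h h0]
  linarith

lemma Hf_eq (h : IsU E U) (c : ℝ) (θ y : ℝ) :
    Hf c U ((θ : ℂ) + y * Complex.I) =
      2 * ∫ t in (0 : ℝ)..θ, (Ut c (t + y * Complex.I) - U2 U (t + y * Complex.I)) := by
  have e1 : ((θ : ℂ) + y * Complex.I).re = θ := by simp
  have e2 : ((θ : ℂ) + y * Complex.I).im = y := by simp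
  rw [Hf, e1, e2, intervalIntegral.integral_sub (Ut_ii c y _ _) (QQ_ii (U2_cont h) y _ _), W, QQ]
  ring

lemma circ_zero (h : IsU E U) (hE : Dense 1 δ E) (hδ : 0 < δ) (hδ1 : δ < 1)
    (hU0 : U 0 = Ut (cd δ) 0) {ρ : ℝ} (hρ : 0 < ρ) (hρ1 : 2 * ρ < 1 / 2)
    (hρc : cd δ < Real.cos (Real.pi * (2 * ρ))) {ζ : ℂ} (hζ : ‖ζ‖ = 1) :
    Hf (cd δ) U (ρ + ρ * ζ) = 0 := by
  have hpi := Real.pi_pos
  set c := cd δ with hcd
  have hc0 : 0 < c := cd_pos hδ hδ1
  have hc1 : c < 1 := cd_lt_one hδ hδ1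
  set v : ℂ → ℝ := fun ζ => Hf c U ((ρ : ℂ) + ρ * ζ) with hv
  have hvc : Continuous v := (Hf_cont h c).comp (by fun_prop)
  have hre : ∀ ζ : ℂ, ((ρ : ℂ) + ρ * ζ).re = ρ * (1 + ζ.re) := by
    intro ζ; simp; ring
  have hloc : ∀ a ∈ ball (0 : ℂ) 1, LocSub (fun z => -v z) a := by
    intro a ha
    have ha1 : ‖a‖ < 1 := by simpa using ha
    have ha2 := abs_lt.1 ((Complex.abs_re_le_norm a).trans_lt ha1)
    have h1 := hre a
    have h2 : LocSub (fun z => -Hf c U z) ((ρ : ℂ) + ρ * a) := by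
      refine Hf_locSub h hc0 hc1 ?_ ?_ ?_
      · rw [h1]; nlinarith
      · rw [h1]; nlinarith
      · rw [h1]
        refine hρc.trans_le (Real.cos_le_cos_of_nonneg_of_le_pi ?_ ?_ ?_)
        · have : 0 < 1 + a.re := by linarith
          positivity
        · nlinarith
        · refine mul_le_mul_of_nonneg_left ?_ hpi.le
          nlinarith
    exact locSub_scale (v := fun z => -Hf c U z) hρ h2
  have hv0 : ∀ ζ : ℂ, ‖ζ‖ = 1 → 0 ≤ v ζ := by
    intro ζ hζ
    have h2 := abs_le.1 ((Complex.abs_re_le_norm ζ).trans hζ.le)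
    refine Hf_nonneg h hE hδ hδ1 ?_ ?_
    · rw [hre]; exact mul_nonneg hρ.le (by linarith)
    · rw [hre]; nlinarith
  have hA : Real.circleAverage v 0 1 ≤ 0 := by
    set A := Real.circleAverage v 0 1 with hAd
    refine le_of_forall_pos_le_add fun η' hη' => ?_
    rw [zero_add]
    set η := η' / (4 * ρ) with hη
    have hη0 : 0 < η := by positivity
    have hDc : Continuous fun t : ℝ => Ut c (t : ℂ) - U2 U (t : ℂ) :=
      (Ut_continuous.comp Complex.continuous_ofReal).sub ((U2_cont h).comp Complex.continuous_ofReal)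
    have hD0 : Ut c ((0 : ℝ) : ℂ) - U2 U ((0 : ℝ) : ℂ) = 0 := by
      simp only [Complex.ofReal_zero, U2, neg_zero, hU0]; ring
    obtain ⟨τ, hτ, hτ'⟩ := Metric.continuousAt_iff.1 hDc.continuousAt η hη0
    set s := min (1 / 2) (τ / (2 * ρ)) with hs
    have hs0 : 0 < s := lt_min (by norm_num) (by positivity)
    have hs1 : s ≤ 1 / 2 := min_le_left _ _
    have hsτ : ρ * s < τ := by
      have : s ≤ τ / (2 * ρ) := min_le_right _ _
      rw [le_div_iff₀ (by positivity)] at this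
      nlinarith
    have hz : (((-1 + s : ℝ) : ℂ)) ∈ ball (0 : ℂ) 1 := by
      rw [mem_ball_zero_iff, Complex.norm_real, Real.norm_eq_abs, abs_lt]
      constructor <;> linarith
    have h3 := harnack_super hvc hloc hv0 hz
    have hn : ‖((-1 + s : ℝ) : ℂ)‖ = 1 - s := by
      rw [Complex.norm_real, Real.norm_eq_abs, abs_of_neg (by linarith)]; ring
    rw [hn] at h3
    have h4 : v ((-1 + s : ℝ) : ℂ) ≤ 2 * (ρ * s) * η := by
      have e1 : v ((-1 + s : ℝ) : ℂ) = Hf c U (((ρ * s : ℝ) : ℂ) + (0 : ℝ) * Complex.I) := by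
        simp only [hv]
        congr 1
        push_cast; ring
      rw [e1, Hf_eq h]
      have h5 : ∫ t in (0 : ℝ)..(ρ * s), (Ut c (t + (0 : ℝ) * Complex.I) - U2 U (t + (0 : ℝ) * Complex.I)) ≤
          ∫ t in (0 : ℝ)..(ρ * s), η := by
        refine intervalIntegral.integral_mono_on (by positivity)
          ((Ut_ii c 0 _ _).sub (QQ_ii (U2_cont h) 0 _ _)) intervalIntegrable_const fun t ht => ?_
        have h6 := hτ' (x := t) (by
          rw [Real.dist_eq, sub_zero, abs_of_nonneg ht.1]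
          exact ht.2.trans_lt hsτ)
        rw [hD0, Real.dist_eq, sub_zero] at h6
        have h7 := (abs_lt.1 h6).2
        simpa using h7.le
      rw [intervalIntegral.integral_const, smul_eq_mul, sub_zero] at h5
      linarith
    have e2 : 1 - (1 - s) = s := by ring
    have e3 : 1 + (1 - s) = 2 - s := by ring
    rw [e2, e3] at h3
    have h5 : s / (2 - s) * A ≤ 2 * (ρ * s) * η := h3.trans h4
    have h6 : s * A ≤ 2 * (ρ * s) * η * (2 - s) := by
      rw [div_mul_eq_mul_div, div_le_iff₀ (by linarith)] at h5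
      exact h5
    have h7 : A ≤ 2 * ρ * η * (2 - s) := by
      refine le_of_mul_le_mul_left ?_ hs0
      linarith
    have h8 : 2 * ρ * η * (2 - s) ≤ 2 * ρ * η * 2 := by
      refine mul_le_mul_of_nonneg_left (by linarith) (by positivity)
    have h9 : 2 * ρ * η * 2 = η' := by rw [hη]; field_simp; norm_num
    linarith
  exact zero_of_avg hvc hv0 hA hζ

/-- equality at one point forces the symmetrisation to be the comparison function -/
theorem U2_eq (h : IsU E U) (hE : Dense 1 δ E) (hδ : 0 < δ) (hδ1 : δ < 1)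
    (hU0 : U 0 = Ut (cd δ) 0) (z : ℂ) : U2 U z = Ut (cd δ) z := by
  have hpi := Real.pi_pos
  set c := cd δ with hcd
  have hc0 : 0 < c := cd_pos hδ hδ1
  have hc1 : c < 1 := cd_lt_one hδ hδ1
  -- a small radius
  obtain ⟨ρ₀, hρ₀, hρ₁, hρc⟩ : ∃ ρ₀ : ℝ, 0 < ρ₀ ∧ 2 * ρ₀ < 1 / 2 ∧ c < Real.cos (Real.pi * (2 * ρ₀)) := by
    have hcont : Continuous fun s : ℝ => Real.cos (Real.pi * (2 * s)) := by fun_prop
    have h4 := hcont.tendsto 0
    simp only [mul_zero, Real.cos_zero] at h4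
    have h3 : ∀ᶠ s in 𝓝[>] (0 : ℝ), c < Real.cos (Real.pi * (2 * s)) :=
      (h4.eventually (lt_mem_nhds hc1)).filter_mono nhdsWithin_le_nhds
    have h5 : ∀ᶠ s in 𝓝[>] (0 : ℝ), s < 1 / 4 :=
      nhdsWithin_le_nhds (Iio_mem_nhds (by norm_num : (0 : ℝ) < 1 / 4))
    obtain ⟨s, ⟨h6, h7⟩, h8⟩ := ((h3.and h5).and self_mem_nhdsWithin).exists
    exact ⟨s, h8, by linarith, h6⟩
  set D : ℂ → ℝ := fun z => Ut c z - U2 U z with hD
  have hDc : Continuous D := Ut_continuous.sub (U2_cont h)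
  set B : Set ℂ := {z | ‖z‖ ^ 2 < 2 * ρ₀ * z.re} with hB
  have hBo : IsOpen B := isOpen_lt (by fun_prop) (by fun_prop)
  have hBre : ∀ z ∈ B, 0 < z.re := by
    intro z hz
    have hz' : ‖z‖ ^ 2 < 2 * ρ₀ * z.re := hz
    by_contra hcon
    have : 2 * ρ₀ * z.re ≤ 0 := mul_nonpos_of_nonneg_of_nonpos (by positivity) (not_lt.1 hcon)
    nlinarith [sq_nonneg ‖z‖]
  have hHB : ∀ z ∈ B, Hf c U z = 0 := by
    intro z hz
    have hz0 := hBre z hz
    have hz' : ‖z‖ ^ 2 < 2 * ρ₀ * z.re := hz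
    have hzn : 0 < ‖z‖ := lt_of_lt_of_le (abs_pos.2 hz0.ne') (Complex.abs_re_le_norm z)
    set ρ := ‖z‖ ^ 2 / (2 * z.re) with hρ
    have hρ0 : 0 < ρ := by positivity
    have hρlt : ρ < ρ₀ := by rw [hρ, div_lt_iff₀ (by positivity)]; linarith
    have hρz : ‖z‖ ^ 2 = 2 * ρ * z.re := by rw [hρ]; field_simp
    have hn : ‖z - ρ‖ = ρ := by
      have h1 : ‖z - ρ‖ ^ 2 = ρ ^ 2 := by
        rw [← Complex.normSq_eq_norm_sq, Complex.normSq_apply]
        rw [← Complex.normSq_eq_norm_sq, Complex.normSq_apply] at hρz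
        simp only [Complex.sub_re, Complex.sub_im, Complex.ofReal_re, Complex.ofReal_im]
        nlinarith
      exact (pow_left_inj₀ (norm_nonneg _) hρ0.le two_ne_zero).1 h1
    have hζ : ‖(z - ρ) / (ρ : ℂ)‖ = 1 := by
      rw [norm_div, hn, Complex.norm_real, Real.norm_eq_abs, abs_of_pos hρ0, div_self hρ0.ne']
    have hcos : c < Real.cos (Real.pi * (2 * ρ)) := by
      refine hρc.trans_le (Real.cos_le_cos_of_nonneg_of_le_pi (by positivity) (by nlinarith) ?_)
      gcongr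
    have h1 := circ_zero h hE hδ hδ1 hU0 hρ0 (by linarith) hcos hζ
    rw [← h1]
    congr 1
    have : (ρ : ℂ) ≠ 0 := by exact_mod_cast hρ0.ne'
    field_simp
    ring
  have hDB : ∀ z ∈ B, D z = 0 := by
    intro z hz
    have hDl : Continuous fun t : ℝ => D ((t : ℂ) + z.im * Complex.I) := hDc.comp (by fun_prop)
    have h1 : HasDerivAt (fun θ : ℝ => 2 * ∫ t in (0 : ℝ)..θ, D ((t : ℂ) + z.im * Complex.I))
        (2 * D ((z.re : ℂ) + z.im * Complex.I)) z.re :=
      (intervalIntegral.integral_hasDerivAt_right (hDl.intervalIntegrable _ _)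
        (hDl.stronglyMeasurableAtFilter _ _) hDl.continuousAt).const_mul 2
    have h2 : (fun θ : ℝ => 2 * ∫ t in (0 : ℝ)..θ, D ((t : ℂ) + z.im * Complex.I)) =ᶠ[𝓝 z.re]
        fun _ => 0 := by
      have h3 : Continuous fun θ : ℝ => (θ : ℂ) + z.im * Complex.I := by fun_prop
      have h4 : (fun θ : ℝ => (θ : ℂ) + z.im * Complex.I) ⁻¹' B ∈ 𝓝 z.re := by
        refine (hBo.preimage h3).mem_nhds ?_
        rw [mem_preimage, Complex.re_add_im]; exact hz
      filter_upwards [h4] with θ hθ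
      have h5 := hHB _ hθ
      rwa [Hf_eq h] at h5
    have h3 := (h1.congr_of_eventuallyEq h2.symm).unique (hasDerivAt_const z.re (0 : ℝ))
    rw [Complex.re_add_im] at h3
    linarith
  -- identity theorem in the upper half plane
  have hup : ∀ z : ℂ, 0 < z.im → D z = 0 := by
    have hU := Ut_isU hc0 hc1
    have hDa : AnalyticOnNhd ℝ D {z : ℂ | 0 < z.im} := by
      intro z hz
      have hz' : z.im ≠ 0 := (show 0 < z.im from hz).ne'
      have h1 : AnalyticAt ℝ (Ut c) z := HarmonicAt.analyticAt (hU.harmonicAt_im hz')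
      have h2 : AnalyticAt ℝ U z := HarmonicAt.analyticAt (h.harmonicAt_im hz')
      have h3 : AnalyticAt ℝ (fun w : ℂ => U (-w)) z := by
        refine HarmonicAt.analyticAt (harmonicAt_comp (φ := fun w => -w) (by fun_prop)
          (h.harmonicAt_im ?_))
        simpa using hz'
      have h4 : AnalyticAt ℝ (fun z => (U z + U (-z)) / 2) z := (h2.add h3).div_const
      exact h1.sub h4
    have hz₁ : (ρ₀ : ℂ) + (ρ₀ / 2 : ℝ) * Complex.I ∈ B := by
      show ‖(ρ₀ : ℂ) + (ρ₀ / 2 : ℝ) * Complex.I‖ ^ 2 < 2 * ρ₀ * ((ρ₀ : ℂ) + (ρ₀ / 2 : ℝ) * Complex.I).re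
      rw [← Complex.normSq_eq_norm_sq, Complex.normSq_apply]
      have e1 : ((ρ₀ : ℂ) + (ρ₀ / 2 : ℝ) * Complex.I).re = ρ₀ := by
        simp only [Complex.add_re, Complex.mul_re, Complex.ofReal_re, Complex.ofReal_im,
          Complex.I_re, Complex.I_im]; ring
      have e2 : ((ρ₀ : ℂ) + (ρ₀ / 2 : ℝ) * Complex.I).im = ρ₀ / 2 := by
        simp only [Complex.add_im, Complex.mul_im, Complex.ofReal_re, Complex.ofReal_im,
          Complex.I_re, Complex.I_im]; ring
      rw [e1, e2]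
      nlinarith
    have hz₁' : (ρ₀ : ℂ) + (ρ₀ / 2 : ℝ) * Complex.I ∈ {z : ℂ | 0 < z.im} := by
      have e2 : ((ρ₀ : ℂ) + (ρ₀ / 2 : ℝ) * Complex.I).im = ρ₀ / 2 := by
        simp only [Complex.add_im, Complex.mul_im, Complex.ofReal_re, Complex.ofReal_im,
          Complex.I_re, Complex.I_im]; ring
      show 0 < ((ρ₀ : ℂ) + (ρ₀ / 2 : ℝ) * Complex.I).im
      rw [e2]; positivity
    have hpre : IsPreconnected {z : ℂ | 0 < z.im} := by
      have : Convex ℝ {z : ℂ | 0 < z.im} := by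
        have e : {z : ℂ | 0 < z.im} = Complex.imCLM ⁻¹' (Ioi 0) := by ext z; simp
        rw [e]
        exact (convex_Ioi 0).linear_preimage (Complex.imCLM : ℂ →ₗ[ℝ] ℝ)
      exact this.isPreconnected
    have hev : D =ᶠ[𝓝 ((ρ₀ : ℂ) + (ρ₀ / 2 : ℝ) * Complex.I)] 0 := by
      filter_upwards [hBo.mem_nhds hz₁] with w hw using hDB w hw
    exact fun z hz => hDa.eqOn_zero_of_preconnected_of_eventuallyEq_zero hpre hz₁' hev hz
  have hclosed : ∀ z : ℂ, 0 ≤ z.im → D z = 0 := by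
    intro z hz
    have h1 : Tendsto (fun s : ℝ => D (z + s * Complex.I)) (𝓝[>] 0) (𝓝 (D z)) := by
      have h2 : Continuous fun s : ℝ => D (z + s * Complex.I) := hDc.comp (by fun_prop)
      have h3 := h2.tendsto 0
      simp only [Complex.ofReal_zero, zero_mul, add_zero] at h3
      exact h3.mono_left nhdsWithin_le_nhds
    refine tendsto_nhds_unique h1 (tendsto_const_nhds.congr' ?_)
    filter_upwards [self_mem_nhdsWithin] with s hs
    refine (hup _ ?_).symm
    have hs' : 0 < s := hs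
    simp only [Complex.add_im, Complex.mul_im, Complex.ofReal_re, Complex.ofReal_im,
      Complex.I_re, Complex.I_im]
    linarith
  have hfin : D z = 0 := by
    rcases le_total 0 z.im with hz | hz
    · exact hclosed z hz
    · have h1 := hclosed (conj z) (by rw [Complex.conj_im]; linarith)
      simp only [hD, U2] at h1 ⊢
      have e1 : U (-conj z) = U (-z) := by rw [← h.symm (-z), map_neg]
      rw [(Ut_isU hc0 hc1).symm, h.symm, e1] at h1
      exact h1
  simp only [hD] at hfin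
  linarith

end

end Pool.Agent.W773.RD
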